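import Mathlib

/-!
Real types, uncountable families of disjoint pairs, Countryman lines, and `ω₁`.
-/

open Cardinal

namespace Pool.Agent.Helper69_LOTS

/-- The canonical well order of type `ω₁`. -/
abbrev Om : Type := (ℵ₁ : Cardinal.{0}).ord.ToType

theorem mk_Om : #Om = ℵ₁ := Cardinal.mk_ord_toType _

theorem Om_Iio_countable (i : Om) : (Set.Iio i).Countable := by
  have h := Cardinal.mk_Iio_lt i (by simp)
  rw [mk_Om] at h
  rw [← Cardinal.le_aleph0_iff_set_countable]
  exact Cardinal.lt_aleph_one_iff.1 h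

instance : Uncountable Om := by
  rw [← Cardinal.aleph0_lt_mk_iff, mk_Om]
  exact Cardinal.aleph0_lt_aleph_one

theorem Om_Iic_countable (i : Om) : (Set.Iic i).Countable := by
  rw [← Set.Iio_insert]
  exact (Om_Iio_countable i).insert _

/-- Transfinite recursion of length `ω₁` against countable sets. -/
theorem exists_rec {β : Type} (R : Set β → β → Prop) (h : ∀ D : Set β, D.Countable → ∃ x, R D x) :
    ∃ s : Om → β, ∀ α, R (s '' Set.Iio α) (s α) := by
  classical
  obtain ⟨x₀, -⟩ := h ∅ Set.countable_empty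
  have hne : Nonempty β := ⟨x₀⟩
  let F : ∀ α : Om, (∀ γ : Om, γ < α → β) → β :=
    fun α ih => Classical.epsilon (R {x | ∃ (γ : Om) (hγ : γ < α), ih γ hγ = x})
  let s : Om → β := WellFounded.fix (wellFounded_lt (α := Om)) F
  refine ⟨s, fun α => ?_⟩
  have hs : s α = Classical.epsilon (R {x | ∃ (γ : Om) (_ : γ < α), s γ = x}) :=
    WellFounded.fix_eq (wellFounded_lt (α := Om)) F α
  have he : {x | ∃ (γ : Om) (_ : γ < α), s γ = x} = s '' Set.Iio α := by
    ext x
    simp
  rw [he] at hs
  rw [hs]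
  exact Classical.epsilon_spec (h _ ((Om_Iio_countable α).image s))

/-- `T` is (isomorphic to) a set of reals. -/
def RealType (T : Type) [LinearOrder T] : Prop := Nonempty (T ↪o ℝ)

/-- `T` has an uncountable family of pairwise non-overlapping nondegenerate pairs. -/
def HasUncPairs (T : Type) [LinearOrder T] : Prop :=
  ∃ (ι : Type) (_ : Uncountable ι) (a b : ι → T), (∀ i, a i < b i) ∧
    ∀ i j, i ≠ j → b i ≤ a j ∨ b j ≤ a i

/-- The square of `T` is the union of countably many chains of the product order. -/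
def Ctry (T : Type) [LinearOrder T] : Prop :=
  ∃ c : T × T → ℕ, ∀ p q, c p = c q → (p.1 ≤ q.1 ∧ p.2 ≤ q.2) ∨ (q.1 ≤ p.1 ∧ q.2 ≤ p.2)

variable {T S : Type} [LinearOrder T] [LinearOrder S]

theorem RealType.exists_dense (h : RealType T) :
    ∃ D : Set T, D.Countable ∧ ∀ x y, x < y → ∃ d ∈ D, x ≤ d ∧ d ≤ y := by
  classical
  obtain ⟨φ⟩ := h
  let D2 : Set T := {x | ∃ y, x < y ∧ ∀ z, ¬ (x < z ∧ z < y)}
  have hD2 : D2.Countable := by
    have h1 : ∀ x : D2, ∃ y, x.1 < y ∧ ∀ z, ¬ (x.1 < z ∧ z < y) := fun x => x.2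
    choose y hy hy' using h1
    have h2 : ∀ x : D2, ∃ q : ℚ, φ x.1 < q ∧ (q : ℝ) < φ (y x) := fun x =>
      exists_rat_btwn (φ.lt_iff_lt.2 (hy x))
    choose q hq hq' using h2
    have key : ∀ x x' : D2, x.1 < x'.1 → q x < q x' := by
      intro x x' hxx
      have h3 : y x ≤ x'.1 := by
        by_contra h4
        exact hy' x x'.1 ⟨hxx, not_le.1 h4⟩
      have : (q x : ℝ) < q x' := (hq' x).trans_le ((φ.le_iff_le.2 h3).trans (hq x').le)
      exact_mod_cast this
    have hinj : Function.Injective q := by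
      intro x x' hxx
      by_contra hne
      rcases lt_or_gt_of_ne (fun h => hne (Subtype.ext h)) with h | h
      · exact (key x x' h).ne hxx
      · exact (key x' x h).ne hxx.symm
    exact Set.countable_coe_iff.1 hinj.countable
  by_cases hT : Nonempty T
  · obtain ⟨t₀⟩ := hT
    have hne : Nonempty T := ⟨t₀⟩
    let f : ℚ × ℚ → T := fun pq => Classical.epsilon (fun t => (pq.1 : ℝ) < φ t ∧ φ t < pq.2)
    refine ⟨D2 ∪ Set.range f, hD2.union (Set.countable_range f), ?_⟩
    intro x y hxy
    by_cases hz : ∃ z, x < z ∧ z < y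
    · obtain ⟨z, hz1, hz2⟩ := hz
      obtain ⟨p, hp1, hp2⟩ := exists_rat_btwn (φ.lt_iff_lt.2 hz1)
      obtain ⟨q, hq1, hq2⟩ := exists_rat_btwn (φ.lt_iff_lt.2 hz2)
      have hf : (p : ℝ) < φ (f (p, q)) ∧ φ (f (p, q)) < q :=
        Classical.epsilon_spec (p := fun t => (p : ℝ) < φ t ∧ φ t < q) ⟨z, hp2, hq1⟩
      refine ⟨f (p, q), Or.inr ⟨_, rfl⟩, ?_, ?_⟩
      · exact (φ.lt_iff_lt.1 (hp1.trans hf.1)).le
      · exact (φ.lt_iff_lt.1 (hf.2.trans hq2)).le
    · refine ⟨x, Or.inl ⟨y, hxy, fun z hz' => hz ⟨z, hz'⟩⟩, le_rfl, hxy.le⟩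
  · exact ⟨∅, Set.countable_empty, fun x => (hT ⟨x⟩).elim⟩

theorem RealType.of_dense {D : Set T} (hD : D.Countable)
    (h : ∀ x y, x < y → ∃ d ∈ D, x ≤ d ∧ d ≤ y) : RealType T := by
  classical
  have : Countable D := hD
  have hE : Nonempty (Encodable D) := nonempty_encodable D
  obtain ⟨hE⟩ := hE
  let w : D → ℝ := fun d => (1 / 2 : ℝ) ^ Encodable.encode d
  have hw : Summable w := summable_geometric_two_encode
  have hw0 : ∀ d, 0 < w d := fun d => by positivity
  let g : T → D → ℝ := fun x d => w d * ((if d.1 < x then 1 else 0) + (if d.1 ≤ x then 1 else 0))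
  have hg : ∀ x, Summable (g x) := by
    intro x
    refine Summable.of_nonneg_of_le (fun d => ?_) (fun d => ?_) (hw.mul_left 2)
    · have := (hw0 d).le
      simp only [g]
      split_ifs <;> simp [this]
    · have := (hw0 d).le
      simp only [g]
      split_ifs <;> linarith
  have hle : ∀ x y, x ≤ y → ∀ d, g x d ≤ g y d := by
    intro x y hxy d
    simp only [g]
    refine mul_le_mul_of_nonneg_left (add_le_add ?_ ?_) (hw0 d).le
    · by_cases h1 : d.1 < x
      · simp [h1, h1.trans_le hxy]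
      · simp only [h1, if_false]; split_ifs <;> norm_num
    · by_cases h1 : d.1 ≤ x
      · simp [h1, h1.trans hxy]
      · simp only [h1, if_false]; split_ifs <;> norm_num
  have hmono : StrictMono (fun x => ∑' d, g x d) := by
    intro x y hxy
    obtain ⟨d, hd, hxd, hdy⟩ := h x y hxy
    refine Summable.tsum_lt_tsum (i := ⟨d, hd⟩) (hle x y hxy.le) ?_ (hg x) (hg y)
    simp only [g]
    refine mul_lt_mul_of_pos_left ?_ (hw0 _)
    rcases hxd.lt_or_eq with h1 | h1
    · have h2 : ¬ d < x := not_lt.2 hxd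
      have h3 : ¬ d ≤ x := not_le.2 h1
      simp only [h2, h3, hdy, if_false, if_true]
      split_ifs <;> norm_num
    · subst h1
      simp [hxy, hxy.le]
  exact ⟨OrderEmbedding.ofStrictMono _ hmono⟩

theorem RealType.of_embedding (h : RealType S) (e : T ↪o S) : RealType T :=
  h.map fun φ => e.trans φ

theorem HasUncPairs.not_realType (h : HasUncPairs T) : ¬ RealType T := by
  rintro ⟨φ⟩
  obtain ⟨ι, hι, a, b, hab, hd⟩ := h
  have h2 : ∀ i, ∃ q : ℚ, φ (a i) < q ∧ (q : ℝ) < φ (b i) := fun i =>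
    exists_rat_btwn (φ.lt_iff_lt.2 (hab i))
  choose q hq hq' using h2
  have hinj : Function.Injective q := by
    intro i j hij
    by_contra hne
    have key : ∀ i j, b i ≤ a j → q i < q j := by
      intro i j h
      have : (q i : ℝ) < q j := (hq' i).trans_le ((φ.le_iff_le.2 h).trans (hq j).le)
      exact_mod_cast this
    rcases hd i j hne with h | h
    · exact (key i j h).ne hij
    · exact (key j i h).ne hij.symm
  exact hι.not_countable hinj.countable

theorem HasUncPairs.dual (h : HasUncPairs T) : HasUncPairs Tᵒᵈ := by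
  obtain ⟨ι, hι, a, b, hab, hd⟩ := h
  refine ⟨ι, hι, fun i => OrderDual.toDual (b i), fun i => OrderDual.toDual (a i),
    fun i => OrderDual.toDual_lt_toDual.2 (hab i), fun i j hij => ?_⟩
  rcases hd i j hij with h | h
  · exact Or.inr (OrderDual.toDual_le_toDual.2 h)
  · exact Or.inl (OrderDual.toDual_le_toDual.2 h)

theorem HasUncPairs.of_embedding (h : HasUncPairs T) (e : T ↪o S) : HasUncPairs S := by
  obtain ⟨ι, hι, a, b, hab, hd⟩ := h
  refine ⟨ι, hι, fun i => e (a i), fun i => e (b i), fun i => e.lt_iff_lt.2 (hab i),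
    fun i j hij => ?_⟩
  rcases hd i j hij with h | h
  · exact Or.inl (e.le_iff_le.2 h)
  · exact Or.inr (e.le_iff_le.2 h)

theorem Ctry.of_embedding (h : Ctry S) (e : T ↪o S) : Ctry T := by
  obtain ⟨c, hc⟩ := h
  refine ⟨fun p => c (e p.1, e p.2), fun p q hpq => ?_⟩
  have := hc (e p.1, e p.2) (e q.1, e q.2) hpq
  simpa using this

theorem Ctry.dual (h : Ctry T) : Ctry Tᵒᵈ := by
  obtain ⟨c, hc⟩ := h
  refine ⟨fun p => c (OrderDual.ofDual p.1, OrderDual.ofDual p.2), fun p q hpq => ?_⟩
  rcases hc _ _ hpq with h | h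
  · exact Or.inr h
  · exact Or.inl h

theorem Ctry.not_realType [hT : Uncountable T] (h : Ctry T) : ¬ RealType T := by
  classical
  rintro ⟨φ⟩
  obtain ⟨c, hc⟩ := h
  -- the set of `a` whose `n`-th section has at least two points is countable
  have h1 : ∀ n, {a | ∃ b b', b < b' ∧ c (a, b) = n ∧ c (a, b') = n}.Countable := by
    intro n
    let A : Set T := {a | ∃ b b', b < b' ∧ c (a, b) = n ∧ c (a, b') = n}
    have h2 : ∀ a : A, ∃ b b', b < b' ∧ c (a.1, b) = n ∧ c (a.1, b') = n := fun a => a.2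
    choose b b' hbb hb hb' using h2
    have h3 : ∀ a : A, ∃ q : ℚ, φ (b a) < q ∧ (q : ℝ) < φ (b' a) := fun a =>
      exists_rat_btwn (φ.lt_iff_lt.2 (hbb a))
    choose q hq hq' using h3
    have key : ∀ a a' : A, a.1 < a'.1 → q a < q a' := by
      intro a a' haa
      have h4 : b' a ≤ b a' := by
        rcases hc (a.1, b' a) (a'.1, b a') ((hb' a).trans (hb a').symm) with h5 | h5
        · exact h5.2
        · exact absurd h5.1 (not_le.2 haa)
      have : (q a : ℝ) < q a' := (hq' a).trans_le ((φ.le_iff_le.2 h4).trans (hq a').le)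
      exact_mod_cast this
    have hinj : Function.Injective q := by
      intro a a' haa
      by_contra hne
      rcases lt_or_gt_of_ne (fun h => hne (Subtype.ext h)) with h | h
      · exact (key a a' h).ne haa
      · exact (key a' a h).ne haa.symm
    exact Set.countable_coe_iff.1 hinj.countable
  have h2 : (⋃ n, {a | ∃ b b', b < b' ∧ c (a, b) = n ∧ c (a, b') = n}).Countable :=
    Set.countable_iUnion h1
  obtain ⟨a, ha⟩ : ∃ a, a ∉ (⋃ n, {a | ∃ b b', b < b' ∧ c (a, b) = n ∧ c (a, b') = n}) := by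
    by_contra hcon
    push Not at hcon
    have : (Set.univ : Set T).Countable := h2.mono (fun x _ => hcon x)
    exact hT.not_countable (Set.countable_univ_iff.1 this)
  have hinj : Function.Injective (fun b => c (a, b)) := by
    intro b b' hbb
    by_contra hne
    apply ha
    rw [Set.mem_iUnion]
    rcases lt_or_gt_of_ne hne with h | h
    · exact ⟨c (a, b), b, b', h, rfl, hbb.symm⟩
    · exact ⟨c (a, b), b', b, h, hbb.symm, rfl⟩
  exact hT.not_countable hinj.countable

theorem exists_uncountable_fiber {ι : Type} [Uncountable ι] (f : ι → ℕ) :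
    ∃ n, Uncountable {i // f i = n} := by
  by_contra hcon
  push Not at hcon
  have h1 : (⋃ n, {i | f i = n}).Countable := Set.countable_iUnion (fun n => by
    have := hcon n
    exact Set.countable_coe_iff.1 this)
  have h2 : (⋃ n, {i | f i = n}) = Set.univ := by
    ext i; simp
  rw [h2, Set.countable_univ_iff] at h1
  exact not_countable h1

theorem Ctry.hasUncPairs [hT : Uncountable T] (h : Ctry T) : HasUncPairs T := by
  classical
  have hnr := h.not_realType
  obtain ⟨c, hc⟩ := h
  have h1 : ∀ D : Set T, D.Countable → ∃ x y, x < y ∧ ∀ d ∈ D, d < x ∨ y < d := by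
    intro D hD
    by_contra hcon
    push Not at hcon
    apply hnr
    exact RealType.of_dense hD (fun x y hxy => hcon x y hxy)
  obtain ⟨s, hs⟩ := exists_rec (β := T × T)
    (R := fun D x => x.1 < x.2 ∧ ∀ d ∈ D, (d.1 < x.1 ∨ x.2 < d.1) ∧ (d.2 < x.1 ∨ x.2 < d.2))
    (fun D hD => by
      obtain ⟨x, y, hxy, hd⟩ := h1 (Prod.fst '' D ∪ Prod.snd '' D) ((hD.image _).union (hD.image _))
      exact ⟨(x, y), hxy, fun d hdD => ⟨hd _ (Or.inl ⟨d, hdD, rfl⟩), hd _ (Or.inr ⟨d, hdD, rfl⟩)⟩⟩)
  obtain ⟨n, hn⟩ := exists_uncountable_fiber (fun α => c (s α))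
  refine ⟨{α // c (s α) = n}, hn, fun i => (s i.1).1, fun i => (s i.1).2, fun i => (hs i.1).1, ?_⟩
  have key : ∀ i j : {α // c (s α) = n}, i.1 < j.1 →
      (s i.1).2 ≤ (s j.1).1 ∨ (s j.1).2 ≤ (s i.1).1 := by
    intro i j hij
    obtain ⟨h2, h3⟩ := (hs j.1).2 (s i.1) ⟨i.1, hij, rfl⟩
    have h4 := hc (s i.1) (s j.1) (i.2.trans j.2.symm)
    have h5 := (hs i.1).1
    have h6 := (hs j.1).1
    rcases h2 with h2 | h2
    · rcases h3 with h3 | h3
      · exact Or.inl h3.le
      · rcases h4 with h4 | h4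
        · exact absurd h4.2 (not_le.2 h3)
        · exact absurd h4.1 (not_le.2 h2)
    · exact Or.inr h2.le
  intro i j hij
  rcases lt_or_gt_of_ne (fun h => hij (Subtype.ext h)) with h | h
  · exact key i j h
  · exact (key j i h).symm

theorem wo_countable_Iio (e : T ↪o Om) (x : T) : (Set.Iio x).Countable := by
  have h := Om_Iio_countable (e x)
  refine Set.MapsTo.countable_of_injOn (f := e) (fun y hy => ?_) (e.injective.injOn) h
  exact e.lt_iff_lt.2 hy

theorem HasUncPairs.of_wo [hT : Uncountable T] (e : T ↪o Om) : HasUncPairs T := by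
  classical
  have hwf : WellFoundedLT T := e.wellFoundedLT
  let ι : Type := {t : T // ∃ s, t < s}
  have hι : Uncountable ι := by
    rw [← not_countable_iff]
    intro hc
    apply hT.not_countable
    have h1 : ({t : T | ∃ s, t < s}).Countable := Set.countable_coe_iff.1 hc
    have h2 : ({t : T | ¬ ∃ s, t < s}).Countable := by
      refine Set.Subsingleton.countable ?_
      intro x hx y hy
      rcases lt_trichotomy x y with h | h | h
      · exact absurd ⟨y, h⟩ hx
      · exact h
      · exact absurd ⟨x, h⟩ hy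
    have h3 : (Set.univ : Set T).Countable := by
      refine (h1.union h2).mono (fun x _ => ?_)
      exact em _
    exact Set.countable_univ_iff.1 h3
  have hb : ∀ t : ι, ∃ b, t.1 < b ∧ ∀ s, t.1 < s → b ≤ s := by
    intro t
    obtain ⟨s, hs⟩ := t.2
    have hne : ({s | t.1 < s} : Set T).Nonempty := ⟨s, hs⟩
    refine ⟨hwf.wf.min _ hne, hwf.wf.min_mem _ hne, fun s hs => ?_⟩
    exact not_lt.1 (hwf.wf.not_lt_min _ hs)
  choose b hb1 hb2 using hb
  refine ⟨ι, hι, fun t => t.1, b, hb1, fun i j hij => ?_⟩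
  rcases lt_or_gt_of_ne (fun h => hij (Subtype.ext h)) with h | h
  · exact Or.inl (hb2 i _ h)
  · exact Or.inr (hb2 j _ h)

theorem Ctry.not_wo [hT : Uncountable T] (h : Ctry T) (e : T ↪o Om) : False := by
  classical
  obtain ⟨c, hc⟩ := h
  have hIio := wo_countable_Iio e
  have hIic : ∀ x : T, (Set.Iic x).Countable := fun x => by
    rw [← Set.Iio_insert]; exact (hIio x).insert _
  have h1 : ∀ n, {a | ¬ {b | c (a, b) = n}.Countable}.Subsingleton := by
    intro n
    have key : ∀ a a', a < a' → ¬ {b | c (a, b) = n}.Countable →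
        ¬ {b | c (a', b) = n}.Countable → False := by
      intro a a' haa h1 h2
      have hne : ({b | c (a', b) = n}).Nonempty := by
        by_contra hemp
        rw [Set.not_nonempty_iff_eq_empty] at hemp
        rw [hemp] at h2
        exact h2 Set.countable_empty
      obtain ⟨b', hb'⟩ := hne
      apply h1
      refine (hIic b').mono (fun b hb => ?_)
      rcases hc (a, b) (a', b') (Eq.trans hb (Eq.symm hb')) with h3 | h3
      · exact h3.2
      · exact absurd h3.1 (not_le.2 haa)
    intro a ha a' ha'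
    rcases lt_trichotomy a a' with h | h | h
    · exact (key a a' h ha ha').elim
    · exact h
    · exact (key a' a h ha' ha).elim
  have h2 : (⋃ n, {a | ¬ {b | c (a, b) = n}.Countable}).Countable :=
    Set.countable_iUnion (fun n => (h1 n).countable)
  obtain ⟨a, ha⟩ : ∃ a, a ∉ (⋃ n, {a | ¬ {b | c (a, b) = n}.Countable}) := by
    by_contra hcon
    push Not at hcon
    have : (Set.univ : Set T).Countable := h2.mono (fun x _ => hcon x)
    exact hT.not_countable (Set.countable_univ_iff.1 this)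
  have h3 : (⋃ n, {b | c (a, b) = n}).Countable := by
    refine Set.countable_iUnion (fun n => ?_)
    by_contra hcon
    exact ha (Set.mem_iUnion.2 ⟨n, hcon⟩)
  have h4 : (⋃ n, {b | c (a, b) = n}) = Set.univ := by
    ext i; simp
  rw [h4, Set.countable_univ_iff] at h3
  exact hT.not_countable h3

end Pool.Agent.Helper69_LOTS
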