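import Mathlib
import Pool.Agent.Helper69_LOTS.Types

/-!
Existence of a Countryman line of cardinality `ℵ₁`.
-/

open Cardinal

namespace Pool.Agent.Helper69_LOTS

theorem exists_rec_inv {β : Type} [Nonempty β] (R : Om → (Om → β) → β → Prop)
    (hcongr : ∀ α f g x, (∀ γ, γ < α → f γ = g γ) → R α f x → R α g x)
    (hstep : ∀ α f, (∀ γ, γ < α → R γ f (f γ)) → ∃ x, R α f x) :
    ∃ s : Om → β, ∀ α, R α s (s α) := by
  classical
  obtain ⟨b₀⟩ := ‹Nonempty β›
  have hne : Nonempty β := ⟨b₀⟩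
  let F : ∀ α : Om, (∀ γ : Om, γ < α → β) → β :=
    fun α ih => Classical.epsilon (R α (fun γ => if h : γ < α then ih γ h else b₀))
  let s : Om → β := WellFounded.fix (wellFounded_lt (α := Om)) F
  have hs : ∀ α, s α = Classical.epsilon (R α (fun γ => if γ < α then s γ else b₀)) := by
    intro α
    exact WellFounded.fix_eq (wellFounded_lt (α := Om)) F α
  refine ⟨s, fun α => ?_⟩
  induction α using WellFoundedLT.induction with
  | ind α ih =>
    let f : Om → β := fun γ => if γ < α then s γ else b₀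
    have hf : ∀ γ, γ < α → f γ = s γ := fun γ hγ => by simp only [f, hγ, if_true]
    have h1 : ∃ x, R α f x := by
      refine hstep α f (fun γ hγ => ?_)
      rw [hf γ hγ]
      exact hcongr γ s f (s γ) (fun δ hδ => (hf δ (hδ.trans hγ)).symm) (ih γ hγ)
    have h2 : R α f (s α) := by
      rw [hs α]
      exact Classical.epsilon_spec h1
    exact hcongr α f s (s α) hf h2

/-- A coherent sequence of finite-to-one functions. -/
theorem exists_coherent : ∃ e : Om → Om → ℕ,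
    (∀ α n, {ξ | ξ < α ∧ e α ξ ≤ n}.Finite) ∧
    ∀ γ α, γ < α → {ξ | ξ < γ ∧ e γ ξ ≠ e α ξ}.Finite := by
  classical
  have main : ∃ e : Om → (Om → ℕ), ∀ α, (∀ n, {ξ | ξ < α ∧ e α ξ ≤ n}.Finite) ∧
      ∀ γ, γ < α → {ξ | ξ < γ ∧ e γ ξ ≠ e α ξ}.Finite := by
    refine exists_rec_inv (β := Om → ℕ) (fun α f x => (∀ n, {ξ | ξ < α ∧ x ξ ≤ n}.Finite) ∧
      ∀ γ, γ < α → {ξ | ξ < γ ∧ f γ ξ ≠ x ξ}.Finite) ?_ ?_
    · intro α f g x hfg hx
      refine ⟨hx.1, fun γ hγ => ?_⟩
      rw [← hfg γ hγ]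
      exact hx.2 γ hγ
    · intro α f hf
      by_cases hne : (Set.Iio α).Nonempty
      · obtain ⟨c, hc⟩ := (Om_Iio_countable α).exists_eq_range hne
        have hcα : ∀ n, c n < α := fun n => by
          have : c n ∈ Set.Iio α := by rw [hc]; exact ⟨n, rfl⟩
          exact this
        have hex : ∀ ξ, ξ < α → ∃ n, ξ ≤ c n := by
          intro ξ hξ
          have : ξ ∈ Set.range c := by rw [← hc]; exact hξ
          obtain ⟨n, hn⟩ := this
          exact ⟨n, hn.ge⟩
        let e' : ℕ → Om → ℕ := fun m ξ => if ξ < c m then f (c m) ξ else 0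
        let x : Om → ℕ := fun ξ => if h : ξ < α then
          max (Nat.find (hex ξ h)) (e' (Nat.find (hex ξ h)) ξ) else 0
        have hx : ∀ ξ (h : ξ < α), ∃ m, ξ ≤ c m ∧ x ξ = max m (e' m ξ) ∧
            ∀ k, ξ ≤ c k → m ≤ k := by
          intro ξ h
          refine ⟨Nat.find (hex ξ h), Nat.find_spec (hex ξ h), ?_, fun k hk => Nat.find_min' _ hk⟩
          simp only [x, h, dif_pos]
        refine ⟨x, ?_, ?_⟩
        · intro n
          have h1 : {ξ | ξ < α ∧ x ξ ≤ n} ⊆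
              ⋃ m ∈ Finset.range (n + 1), ({ξ | ξ < c m ∧ f (c m) ξ ≤ n} ∪ {c m}) := by
            rintro ξ ⟨h, h'⟩
            obtain ⟨m, hm1, hm2, -⟩ := hx ξ h
            rw [hm2] at h'
            simp only [Set.mem_iUnion]
            refine ⟨m, ?_, ?_⟩
            · rw [Finset.mem_range]
              have := (le_max_left m (e' m ξ)).trans h'
              omega
            · rcases hm1.lt_or_eq with h2 | h2
              · left
                refine ⟨h2, ?_⟩
                have := (le_max_right m (e' m ξ)).trans h'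
                simpa only [e', h2, if_true] using this
              · right
                exact h2
          refine Set.Finite.subset ?_ h1
          refine Set.Finite.biUnion (Finset.finite_toSet _) (fun m _ => ?_)
          exact ((hf (c m) (hcα m)).1 n).union (Set.finite_singleton _)
        · intro γ hγ
          have hγ' : γ ∈ Set.range c := by rw [← hc]; exact hγ
          obtain ⟨N, rfl⟩ := hγ'
          have hcoh : ∀ m, {ξ | ξ < c N ∧ ξ < c m ∧ f (c N) ξ ≠ f (c m) ξ}.Finite := by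
            intro m
            rcases lt_trichotomy (c m) (c N) with h | h | h
            · refine ((hf (c N) (hcα N)).2 (c m) h).subset ?_
              rintro ξ ⟨-, h2, h3⟩
              exact ⟨h2, h3.symm⟩
            · rw [h]
              refine Set.finite_empty.subset ?_
              rintro ξ ⟨-, -, h3⟩
              exact h3 rfl
            · refine ((hf (c m) (hcα m)).2 (c N) h).subset ?_
              rintro ξ ⟨h1, -, h3⟩
              exact ⟨h1, h3⟩
          have h1 : {ξ | ξ < c N ∧ f (c N) ξ ≠ x ξ} ⊆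
              ⋃ m ∈ Finset.range (N + 1), (({ξ | ξ < c N ∧ ξ < c m ∧ f (c N) ξ ≠ f (c m) ξ} ∪
                {ξ | ξ < c N ∧ f (c N) ξ ≤ m}) ∪ {c m}) := by
            rintro ξ ⟨h, h'⟩
            obtain ⟨m, hm1, hm2, hm3⟩ := hx ξ (h.trans (hcα N))
            simp only [Set.mem_iUnion]
            refine ⟨m, ?_, ?_⟩
            · rw [Finset.mem_range]
              have := hm3 N h.le
              omega
            · rcases hm1.lt_or_eq with h2 | h2
              · left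
                by_cases h4 : f (c N) ξ ≤ m
                · right
                  exact ⟨h, h4⟩
                · left
                  refine ⟨h, h2, ?_⟩
                  intro h5
                  apply h'
                  rw [hm2]
                  simp only [e', h2, if_true]
                  rw [← h5]
                  omega
              · right
                exact h2
          refine Set.Finite.subset ?_ h1
          refine Set.Finite.biUnion (Finset.finite_toSet _) (fun m _ => ?_)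
          exact ((hcoh m).union ((hf (c N) (hcα N)).1 m)).union (Set.finite_singleton _)
      · refine ⟨fun _ => 0, fun n => ?_, fun γ hγ => absurd ⟨γ, hγ⟩ hne⟩
        refine Set.finite_empty.subset ?_
        rintro ξ ⟨h, -⟩
        exact hne ⟨ξ, h⟩
  obtain ⟨e, he⟩ := main
  exact ⟨e, fun α => (he α).1, fun γ α h => (he α).2 γ h⟩

/-- The lexicographic comparison key of `α`. -/
noncomputable def key (e : Om → Om → ℕ) (α : Om) : Lex (Om → WithBot ℕ) :=
  toLex (fun ξ => if ξ < α then (e α ξ : WithBot ℕ) else ⊥)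

theorem key_lt {e : Om → Om → ℕ} {α β ξ : Om}
    (h : ∀ ζ, ζ < ξ → (if ζ < α then (e α ζ : WithBot ℕ) else ⊥) =
      (if ζ < β then (e β ζ : WithBot ℕ) else ⊥))
    (h' : (if ξ < α then (e α ξ : WithBot ℕ) else ⊥) <
      (if ξ < β then (e β ξ : WithBot ℕ) else ⊥)) : key e α < key e β :=
  ⟨ξ, h, h'⟩

theorem key_injective (e : Om → Om → ℕ) : Function.Injective (key e) := by
  have h : ∀ α β, α < β → key e α ≠ key e β := by
    intro α β hαβ heq
    have h1 := congrFun (congrArg (fun x : Lex (Om → WithBot ℕ) => ofLex x) heq) α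
    simp only [key, ofLex_toLex, lt_irrefl, if_false, hαβ, if_true] at h1
    exact WithBot.bot_ne_coe h1
  intro α β hαβ
  by_contra hne
  rcases lt_or_gt_of_ne hne with h1 | h1
  · exact h α β h1 hαβ
  · exact h β α h1 hαβ.symm

/-- The finite data attached to a pair `α < β`. -/
theorem exists_data {e : Om → Om → ℕ} (h1 : ∀ α n, {ξ | ξ < α ∧ e α ξ ≤ n}.Finite)
    (h2 : ∀ γ α, γ < α → {ξ | ξ < γ ∧ e γ ξ ≠ e α ξ}.Finite) (α β : Om) (hαβ : α < β) :
    ∃ (n m : ℕ) (i : Fin m) (u : Fin m ↪o Om), u i = α ∧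
      (∀ ξ, (∃ k, u k = ξ) ↔ (ξ < β ∧ e β ξ ≤ n) ∨ ξ = β) ∧
      (∀ ξ, ξ < α → e α ξ ≠ e β ξ → e α ξ ≤ n ∧ e β ξ ≤ n) := by
  classical
  have hD := h2 α β hαβ
  let n : ℕ := max (e β α) (hD.toFinset.sup (fun ξ => max (e α ξ) (e β ξ)))
  let F : Finset Om := insert β (h1 β n).toFinset
  have hF : ∀ ξ, ξ ∈ F ↔ (ξ < β ∧ e β ξ ≤ n) ∨ ξ = β := by
    intro ξ
    simp only [F, Finset.mem_insert, Set.Finite.mem_toFinset, Set.mem_ofPred_eq]
    tauto
  have hα : α ∈ F := (hF α).2 (Or.inl ⟨hαβ, le_max_left _ _⟩)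
  let u := F.orderEmbOfFin rfl
  have hu : ∀ ξ, (∃ k, u k = ξ) ↔ ξ ∈ F := by
    intro ξ
    have := Finset.range_orderEmbOfFin F rfl
    rw [← Finset.mem_coe, ← this]
    rfl
  obtain ⟨i, hi⟩ := (hu α).2 hα
  refine ⟨n, F.card, i, u, hi, fun ξ => (hu ξ).trans (hF ξ), ?_⟩
  intro ξ hξ hne
  have h3 : ξ ∈ hD.toFinset := by
    rw [Set.Finite.mem_toFinset]; exact ⟨hξ, hne⟩
  have h4 := Finset.le_sup (f := fun ξ => max (e α ξ) (e β ξ)) h3
  have h5 : hD.toFinset.sup (fun ξ => max (e α ξ) (e β ξ)) ≤ n := le_max_right _ _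
  have h6 := h4.trans h5
  simp only [max_le_iff] at h6
  exact h6

theorem data_compare_aux {e : Om → Om → ℕ} {α β γ δ : Om} (hαβ : α < β) (hγδ : γ < δ)
    {n m : ℕ} {i : Fin m} {u v : Fin m ↪o Om} (hu1 : u i = α) (hv1 : v i = γ)
    (hu2 : ∀ ξ, (∃ k, u k = ξ) ↔ (ξ < β ∧ e β ξ ≤ n) ∨ ξ = β)
    (hv2 : ∀ ξ, (∃ k, v k = ξ) ↔ (ξ < δ ∧ e δ ξ ≤ n) ∨ ξ = δ)
    (hu3 : ∀ ξ, ξ < α → e α ξ ≠ e β ξ → e α ξ ≤ n ∧ e β ξ ≤ n)
    (hv3 : ∀ ξ, ξ < γ → e γ ξ ≠ e δ ξ → e γ ξ ≤ n ∧ e δ ξ ≤ n)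
    (hval1 : ∀ k, e β (u k) = e δ (v k)) (hval2 : ∀ k, e α (u k) = e γ (v k))
    (j : Fin m) (hj : ∀ k, k < j → u k = v k) (hji : j ≤ i) (hlt : u j < v j) :
    (key e α < key e γ ∧ key e β < key e δ) ∨ (key e γ < key e α ∧ key e δ < key e β) := by
  classical
  -- basic facts
  have hηα : u j ≤ α := by rw [← hu1]; exact u.monotone hji
  have hηγ : u j < γ := by
    rw [← hv1]; exact hlt.trans_le (v.monotone hji)
  have hηβ : u j < β := hηα.trans_lt hαβ
  have hηδ : u j < δ := hηγ.trans hγδ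
  have hF1 : ∀ ξ, ξ < u j → (∃ k, u k = ξ) → ∃ k, u k = ξ ∧ v k = ξ := by
    rintro ξ hξ ⟨k, rfl⟩
    have hk : k < j := u.lt_iff_lt.1 hξ
    exact ⟨k, rfl, (hj k hk).symm⟩
  have hF2 : ∀ ξ, ξ < v j → (∃ k, v k = ξ) → ∃ k, u k = ξ ∧ v k = ξ := by
    rintro ξ hξ ⟨k, rfl⟩
    have hk : k < j := v.lt_iff_lt.1 hξ
    exact ⟨k, hj k hk, rfl⟩
  have hη' : ¬ ∃ k, v k = u j := by
    intro h
    obtain ⟨k, hk1, hk2⟩ := hF2 (u j) hlt h
    have : k = j := u.injective hk1
    subst this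
    exact hlt.ne hk2.symm
  -- for `ξ < η` not in `F`, `e α ξ = e β ξ` and `e γ ξ = e δ ξ`
  have hout : ∀ ξ, ξ < u j → (¬ ∃ k, u k = ξ) → e α ξ = e β ξ ∧ e γ ξ = e δ ξ := by
    intro ξ hξ hnot
    constructor
    · by_contra hne
      exact hnot ((hu2 ξ).2 (Or.inl ⟨hξ.trans hηβ, (hu3 ξ (hξ.trans_le hηα) hne).2⟩))
    · by_contra hne
      apply hnot
      obtain ⟨k, hk1, -⟩ := hF2 ξ (hξ.trans hlt)
        ((hv2 ξ).2 (Or.inl ⟨hξ.trans hηδ, (hv3 ξ (hξ.trans hηγ) hne).2⟩))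
      exact ⟨k, hk1⟩
  have hin : ∀ ξ, ξ < u j → (∃ k, u k = ξ) → e β ξ = e δ ξ ∧ e α ξ = e γ ξ := by
    intro ξ hξ hk
    obtain ⟨k, hk1, hk2⟩ := hF1 ξ hξ hk
    have h1 := hval1 k
    have h2 := hval2 k
    rw [hk1, hk2] at h1 h2
    exact ⟨h1, h2⟩
  by_cases hA : ∃ ξ, ξ < u j ∧ e β ξ ≠ e δ ξ
  · -- take the least one
    obtain ⟨ξ, ⟨hξ, hne⟩, hmin⟩ : ∃ ξ, (ξ < u j ∧ e β ξ ≠ e δ ξ) ∧
        ∀ ζ, ζ < ξ → ¬ (ζ < u j ∧ e β ζ ≠ e δ ζ) := by
      have hwf := wellFounded_lt (α := Om)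
      refine ⟨hwf.min {ξ | ξ < u j ∧ e β ξ ≠ e δ ξ} hA, hwf.min_mem _ hA, fun ζ hζ hcon => ?_⟩
      exact hwf.not_lt_min _ hcon hζ
    have hnot : ¬ ∃ k, u k = ξ := fun h => hne (hin ξ hξ h).1
    have hagree : ∀ ζ, ζ < ξ → e β ζ = e δ ζ ∧ e α ζ = e γ ζ := by
      intro ζ hζ
      have h1 : e β ζ = e δ ζ := by
        by_contra h2
        exact hmin ζ hζ ⟨hζ.trans hξ, h2⟩
      refine ⟨h1, ?_⟩
      by_cases h3 : ∃ k, u k = ζ
      · exact (hin ζ (hζ.trans hξ) h3).2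
      · have h4 := hout ζ (hζ.trans hξ) h3
        rw [h4.1, h4.2, h1]
    have h4 := hout ξ hξ hnot
    have hξα : ξ < α := hξ.trans_le hηα
    have hξβ : ξ < β := hξ.trans hηβ
    have hξγ : ξ < γ := hξ.trans hηγ
    have hξδ : ξ < δ := hξ.trans hηδ
    rcases lt_or_gt_of_ne hne with h5 | h5
    · left
      constructor
      · refine key_lt (ξ := ξ) (fun ζ hζ => ?_) ?_
        · simp only [hζ.trans hξα, hζ.trans hξγ, if_true, (hagree ζ hζ).2]
        · simp only [hξα, hξγ, if_true, h4.1, h4.2]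
          exact_mod_cast h5
      · refine key_lt (ξ := ξ) (fun ζ hζ => ?_) ?_
        · simp only [hζ.trans hξβ, hζ.trans hξδ, if_true, (hagree ζ hζ).1]
        · simp only [hξβ, hξδ, if_true]
          exact_mod_cast h5
    · right
      constructor
      · refine key_lt (ξ := ξ) (fun ζ hζ => ?_) ?_
        · simp only [hζ.trans hξα, hζ.trans hξγ, if_true, (hagree ζ hζ).2]
        · simp only [hξα, hξγ, if_true, h4.1, h4.2]
          exact_mod_cast h5
      · refine key_lt (ξ := ξ) (fun ζ hζ => ?_) ?_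
        · simp only [hζ.trans hξβ, hζ.trans hξδ, if_true, (hagree ζ hζ).1]
        · simp only [hξβ, hξδ, if_true]
          exact_mod_cast h5
  · push Not at hA
    have hagree : ∀ ζ, ζ < u j → e β ζ = e δ ζ ∧ e α ζ = e γ ζ := by
      intro ζ hζ
      refine ⟨hA ζ hζ, ?_⟩
      by_cases h3 : ∃ k, u k = ζ
      · exact (hin ζ hζ h3).2
      · have h4 := hout ζ hζ h3
        rw [h4.1, h4.2, hA ζ hζ]
    have h5 : e β (u j) ≤ n := by
      rcases (hu2 (u j)).1 ⟨j, rfl⟩ with h | h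
      · exact h.2
      · exact absurd h hηβ.ne
    have h6 : n < e δ (u j) := by
      by_contra hcon
      exact hη' ((hv2 (u j)).2 (Or.inl ⟨hηδ, not_lt.1 hcon⟩))
    left
    constructor
    · refine key_lt (ξ := u j) (fun ζ hζ => ?_) ?_
      · simp only [hζ.trans_le hηα, hζ.trans hηγ, if_true, (hagree ζ hζ).2]
      · have h7 : e γ (u j) = e δ (u j) := by
          by_contra hne
          exact absurd (hv3 (u j) hηγ hne).2 (not_le.2 h6)
        rcases hηα.lt_or_eq with h8 | h8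
        · have h9 : e α (u j) ≤ n := by
            by_cases h10 : e α (u j) = e β (u j)
            · rw [h10]; exact h5
            · exact (hu3 (u j) h8 h10).1
          simp only [h8, hηγ, if_true]
          rw [h7]
          exact_mod_cast h9.trans_lt h6
        · have h9 : ¬ u j < α := by rw [h8]; exact lt_irrefl _
          simp only [h9, hηγ, if_true, if_false]
          exact WithBot.bot_lt_coe _
    · refine key_lt (ξ := u j) (fun ζ hζ => ?_) ?_
      · simp only [hζ.trans hηβ, hζ.trans hηδ, if_true, (hagree ζ hζ).1]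
      · simp only [hηβ, hηδ, if_true]
        exact_mod_cast h5.trans_lt h6

theorem data_compare {e : Om → Om → ℕ} {α β γ δ : Om} (hαβ : α < β) (hγδ : γ < δ) (hne : α ≠ γ)
    {n m : ℕ} {i : Fin m} {u v : Fin m ↪o Om} (hu1 : u i = α) (hv1 : v i = γ)
    (hu2 : ∀ ξ, (∃ k, u k = ξ) ↔ (ξ < β ∧ e β ξ ≤ n) ∨ ξ = β)
    (hv2 : ∀ ξ, (∃ k, v k = ξ) ↔ (ξ < δ ∧ e δ ξ ≤ n) ∨ ξ = δ)
    (hu3 : ∀ ξ, ξ < α → e α ξ ≠ e β ξ → e α ξ ≤ n ∧ e β ξ ≤ n)
    (hv3 : ∀ ξ, ξ < γ → e γ ξ ≠ e δ ξ → e γ ξ ≤ n ∧ e δ ξ ≤ n)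
    (hval1 : ∀ k, e β (u k) = e δ (v k)) (hval2 : ∀ k, e α (u k) = e γ (v k)) :
    (key e α < key e γ ∧ key e β < key e δ) ∨ (key e γ < key e α ∧ key e δ < key e β) := by
  classical
  have hex : ∃ j, u j ≠ v j := ⟨i, by rw [hu1, hv1]; exact hne⟩
  obtain ⟨j, hj1, hj2⟩ : ∃ j, u j ≠ v j ∧ ∀ k, k < j → u k = v k := by
    have hwf := wellFounded_lt (α := Fin m)
    refine ⟨hwf.min {j | u j ≠ v j} hex, hwf.min_mem _ hex, fun k hk => ?_⟩
    by_contra hcon
    exact hwf.not_lt_min {j | u j ≠ v j} hcon hk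
  have hji : j ≤ i := by
    by_contra hcon
    have := hj2 i (not_le.1 hcon)
    rw [hu1, hv1] at this
    exact hne this
  rcases lt_or_gt_of_ne hj1 with h | h
  · exact data_compare_aux hαβ hγδ hu1 hv1 hu2 hv2 hu3 hv3 hval1 hval2 j hj2 hji h
  · exact (data_compare_aux hγδ hαβ hv1 hu1 hv2 hu2 hv3 hu3 (fun k => (hval1 k).symm)
      (fun k => (hval2 k).symm) j (fun k hk => (hj2 k hk).symm) hji h).symm

theorem code_compare {e : Om → Om → ℕ} {α β γ δ : Om} (hαβ : α < β) (hγδ : γ < δ)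
    {n n' m m' : ℕ} {i : Fin m} {i' : Fin m'} {u : Fin m ↪o Om} {v : Fin m' ↪o Om}
    (hu1 : u i = α) (hv1 : v i' = γ)
    (hu2 : ∀ ξ, (∃ k, u k = ξ) ↔ (ξ < β ∧ e β ξ ≤ n) ∨ ξ = β)
    (hv2 : ∀ ξ, (∃ k, v k = ξ) ↔ (ξ < δ ∧ e δ ξ ≤ n') ∨ ξ = δ)
    (hu3 : ∀ ξ, ξ < α → e α ξ ≠ e β ξ → e α ξ ≤ n ∧ e β ξ ≤ n)
    (hv3 : ∀ ξ, ξ < γ → e γ ξ ≠ e δ ξ → e γ ξ ≤ n' ∧ e δ ξ ≤ n')
    (hn : n = n')
    (hs : (⟨m, i, fun k => e β (u k), fun k => e α (u k)⟩ :
      Σ m : ℕ, Fin m × (Fin m → ℕ) × (Fin m → ℕ)) =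
      ⟨m', i', fun k => e δ (v k), fun k => e γ (v k)⟩) :
    (key e α ≤ key e γ ∧ key e β ≤ key e δ) ∨ (key e γ ≤ key e α ∧ key e δ ≤ key e β) := by
  by_cases hne : α = γ
  · rw [hne]
    rcases le_total (key e β) (key e δ) with h | h
    · exact Or.inl ⟨le_rfl, h⟩
    · exact Or.inr ⟨le_rfl, h⟩
  · subst hn
    obtain rfl : m = m' := congrArg Sigma.fst hs
    have hs' := eq_of_heq (Sigma.mk.inj hs).2
    have hi : i = i' := congrArg Prod.fst hs'
    subst hi
    have hb : ∀ k, e β (u k) = e δ (v k) := fun k =>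
      congrFun (congrArg (fun z => z.2.1) hs') k
    have ha : ∀ k, e α (u k) = e γ (v k) := fun k =>
      congrFun (congrArg (fun z => z.2.2) hs') k
    rcases data_compare hαβ hγδ hne hu1 hv1 hu2 hv2 hu3 hv3 hb ha with h | h
    · exact Or.inl ⟨h.1.le, h.2.le⟩
    · exact Or.inr ⟨h.1.le, h.2.le⟩

/-- **Existence of a Countryman line** of cardinality `ℵ₁`. -/
theorem exists_countryman : ∃ (T : Type) (_ : LinearOrder T), #T = ℵ₁ ∧ Ctry T := by
  classical
  obtain ⟨e, h1, h2⟩ := exists_coherent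
  have hdata : ∀ p : Om × Om, ∃ (n m : ℕ) (i : Fin m) (u : Fin m ↪o Om), p.1 < p.2 → (u i = p.1 ∧
      (∀ ξ, (∃ k, u k = ξ) ↔ (ξ < p.2 ∧ e p.2 ξ ≤ n) ∨ ξ = p.2) ∧
      (∀ ξ, ξ < p.1 → e p.1 ξ ≠ e p.2 ξ → e p.1 ξ ≤ n ∧ e p.2 ξ ≤ n)) := by
    intro p
    by_cases hp : p.1 < p.2
    · obtain ⟨n, m, i, u, h⟩ := exists_data h1 h2 p.1 p.2 hp
      exact ⟨n, m, i, u, fun _ => h⟩
    · exact ⟨0, 1, 0, OrderEmbedding.ofStrictMono (fun _ => p.1) (fun a b hab => by
        exact absurd hab (by simp [Subsingleton.elim a b])), fun h => absurd h hp⟩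
  choose n m i u hu using hdata
  let Code : Type := ℕ × (Σ m : ℕ, Fin m × (Fin m → ℕ) × (Fin m → ℕ))
  let code : Om × Om → Code := fun p =>
    (n p, ⟨m p, i p, fun k => e p.2 (u p k), fun k => e p.1 (u p k)⟩)
  obtain ⟨f, hf⟩ : ∃ f : Code → ℕ, Function.Injective f := exists_injective_nat Code
  have main : ∀ p q : Om × Om, p.1 < p.2 → q.1 < q.2 → code p = code q →
      (key e p.1 ≤ key e q.1 ∧ key e p.2 ≤ key e q.2) ∨
      (key e q.1 ≤ key e p.1 ∧ key e q.2 ≤ key e p.2) := by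
    intro p q hp hq hpq
    obtain ⟨hu1, hu2, hu3⟩ := hu p hp
    obtain ⟨hv1, hv2, hv3⟩ := hu q hq
    exact code_compare hp hq hu1 hv1 hu2 hv2 hu3 hv3 (congrArg Prod.fst hpq)
      (congrArg Prod.snd hpq)
  refine ⟨Set.range (key e), inferInstance, ?_, ?_⟩
  · rw [Cardinal.mk_range_eq _ (key_injective e), mk_Om]
  · have hinv : ∀ x : Set.range (key e), ∃ α, key e α = x.1 := fun x => x.2
    choose E hE using hinv
    refine ⟨fun p => if E p.1 < E p.2 then 3 * f (code (E p.1, E p.2)) else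
      if E p.2 < E p.1 then 3 * f (code (E p.2, E p.1)) + 2 else 1, ?_⟩
    rintro ⟨p1, p2⟩ ⟨q1, q2⟩ hpq
    have le_iff : ∀ x y : Set.range (key e), x ≤ y ↔ key e (E x) ≤ key e (E y) := by
      intro x y
      rw [hE, hE]
      rfl
    simp only [le_iff]
    simp only at hpq
    rcases lt_trichotomy (E p1) (E p2) with hp | hp | hp
    · rcases lt_trichotomy (E q1) (E q2) with hq | hq | hq
      · simp only [hp, hq, if_true] at hpq
        have h3 : f (code (E p1, E p2)) = f (code (E q1, E q2)) := by omega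
        exact main (E p1, E p2) (E q1, E q2) hp hq (hf h3)
      · simp only [hp, hq, lt_irrefl, if_true, if_false] at hpq
        omega
      · simp only [hp, hq, hq.not_gt, if_true, if_false] at hpq
        omega
    · rcases lt_trichotomy (E q1) (E q2) with hq | hq | hq
      · simp only [hp, hq, lt_irrefl, if_true, if_false] at hpq
        omega
      · rw [hp, hq]
        rcases le_total (key e (E p2)) (key e (E q2)) with h | h
        · exact Or.inl ⟨h, h⟩
        · exact Or.inr ⟨h, h⟩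
      · simp only [hp, hq, hq.not_gt, lt_irrefl, if_true, if_false] at hpq
        omega
    · rcases lt_trichotomy (E q1) (E q2) with hq | hq | hq
      · simp only [hp, hq, hp.not_gt, if_true, if_false] at hpq
        omega
      · simp only [hp, hq, hp.not_gt, lt_irrefl, if_true, if_false] at hpq
        omega
      · simp only [hp, hq, hp.not_gt, hq.not_gt, if_true, if_false] at hpq
        have h3 : f (code (E p2, E p1)) = f (code (E q2, E q1)) := by omega
        rcases main (E p2, E p1) (E q2, E q1) hp hq (hf h3) with h | h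
        · exact Or.inl ⟨h.2, h.1⟩
        · exact Or.inr ⟨h.2, h.1⟩

end Pool.Agent.Helper69_LOTS
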