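import Mathlib

/-!
Definitions for the basis problem for `aleph_1`-dense linearly ordered topological spaces (LOTS)
all of whose points have countable cofinality and countable coinitiality.
-/

open Cardinal

namespace Pool.Agent.Helper69_LOTS

/-- `f : A → B` is a LOTS embedding: an injective order-preserving map (for linear orders this is
the same as a strictly increasing map) which is continuous for the open interval topologies of
`A` and `B`. -/
def IsLOTSEmbedding {A B : Type} [LinearOrder A] [LinearOrder B] (f : A → B) : Prop :=
  StrictMono f ∧ @Continuous A B (Preorder.topology A) (Preorder.topology B) f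

/-- `A ⪯ B`: the linear order `A` LOTS-embeds into the linear order `B`. -/
def LOTSEmbeds (A B : Type) [LinearOrder A] [LinearOrder B] : Prop :=
  ∃ f : A → B, IsLOTSEmbedding f

/-- Membership of a linear order `L` in the class `C` of the problem: `L` has at least two
points, every open interval `(a, b)` with `a < b` has cardinality exactly `aleph_1`, and every
point has countable cofinality and countable coinitiality, wherever these are defined: if `x` is
the supremum of some set of strictly smaller points then it is the supremum of a countable such
set, and dually. -/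
structure MemC (L : Type) [LinearOrder L] : Prop where
  nontrivial : ∃ a b : L, a ≠ b
  card_Ioo : ∀ a b : L, a < b → #(Set.Ioo a b) = ℵ₁
  cofinality : ∀ x : L, (∃ S : Set L, (∀ y ∈ S, y < x) ∧ IsLUB S x) →
    ∃ S : Set L, S.Countable ∧ (∀ y ∈ S, y < x) ∧ IsLUB S x
  coinitiality : ∀ x : L, (∃ S : Set L, (∀ y ∈ S, x < y) ∧ IsGLB S x) →
    ∃ S : Set L, S.Countable ∧ (∀ y ∈ S, x < y) ∧ IsGLB S x

/-- The family `K` of linear orders is a basis for the class `C` under LOTS embeddability: all
its members belong to `C`, and every member of `C` has a member of the family LOTS-embedded in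
it. -/
def IsBasisForC {ι : Type} (K : ι → Type) [∀ i, LinearOrder (K i)] : Prop :=
  (∀ i, MemC (K i)) ∧ ∀ (L : Type) [LinearOrder L], MemC L → ∃ i, LOTSEmbeds (K i) L

/-- The family `B` of linear orders is a basis for the class of all uncountable linear orders
under (mere) order embeddability, as in Moore's five-element basis theorem. -/
def IsBasisForUncountable {ι : Type} (B : ι → Type) [∀ i, LinearOrder (B i)] : Prop :=
  (∀ i, Uncountable (B i)) ∧
    ∀ (L : Type) [LinearOrder L], Uncountable L → ∃ i, Nonempty (B i ↪o L)

/-- Every nonempty open interval `(a, b)` of `L` contains an order copy of the ordinal `ω₁` or of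
its reverse. -/
def IsLong (L : Type) [LinearOrder L] : Prop :=
  ∀ a b : L, a < b → Nonempty ((ℵ₁ : Cardinal.{0}).ord.ToType ↪o Set.Ioo a b) ∨
    Nonempty (((ℵ₁ : Cardinal.{0}).ord.ToType)ᵒᵈ ↪o Set.Ioo a b)

/-- The family `K` is a basis, under LOTS embeddability, for the subclass of `C` consisting of
those members of `C` in which every nonempty open interval contains a copy of `ω₁` or of its
reverse. -/
def IsBasisForLongC {ι : Type} (K : ι → Type) [∀ i, LinearOrder (K i)] : Prop :=
  (∀ i, MemC (K i) ∧ IsLong (K i)) ∧
    ∀ (L : Type) [LinearOrder L], MemC L → IsLong L → ∃ i, LOTSEmbeds (K i) L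

end Pool.Agent.Helper69_LOTS
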