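import Mathlib
import Pool.Agent.Helper69_LOTS.Defs

/-!
The order `KOrd T` of finitely supported functions from `ω` to `T + 1 + T`, lexicographically
ordered, and its basic properties.
-/

open Cardinal

namespace Pool.Agent.Helper69_LOTS

/-- The index order `T + 1 + T`. -/
def Idx (T : Type) : Type := (T ⊕ₗ Unit) ⊕ₗ T

namespace Idx

variable {T : Type}

noncomputable instance [LinearOrder T] : LinearOrder (Idx T) :=
  inferInstanceAs (LinearOrder ((T ⊕ₗ Unit) ⊕ₗ T))

instance : Zero (Idx T) := ⟨toLex (Sum.inl (toLex (Sum.inr ())))⟩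

/-- The lower copy of `T`. -/
def neg (t : T) : Idx T := toLex (Sum.inl (toLex (Sum.inl t)))

/-- The upper copy of `T`. -/
def pos (t : T) : Idx T := toLex (Sum.inr t)

theorem cases (x : Idx T) : (∃ t, x = neg t) ∨ x = 0 ∨ ∃ t, x = pos t := by
  rcases x with x | x
  · rcases x with x | x
    · exact Or.inl ⟨x, rfl⟩
    · exact Or.inr (Or.inl rfl)
  · exact Or.inr (Or.inr ⟨x, rfl⟩)

variable [LinearOrder T]

theorem neg_lt_neg {s t : T} : neg s < neg t ↔ s < t := by
  unfold neg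
  exact (Sum.Lex.inl_lt_inl_iff).trans Sum.Lex.inl_lt_inl_iff

theorem pos_lt_pos {s t : T} : pos s < pos t ↔ s < t := by
  unfold pos
  exact (Sum.Lex.inr_lt_inr_iff)

theorem neg_lt_zero (t : T) : neg t < (0 : Idx T) := by
  unfold neg
  exact (Sum.Lex.inl_lt_inl_iff).2 (Sum.Lex.inl_lt_inr _ _)

theorem zero_lt_pos (t : T) : (0 : Idx T) < pos t := by
  unfold pos
  exact Sum.Lex.inl_lt_inr _ _

theorem neg_lt_pos (s t : T) : neg s < pos t := (neg_lt_zero s).trans (zero_lt_pos t)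

end Idx

/-- Finitely supported functions from `ω` to `T + 1 + T`, lexicographically ordered. -/
def KOrd (T : Type) : Type := Lex (ℕ →₀ Idx T)

namespace KOrd

variable {T : Type}

noncomputable instance [LinearOrder T] : LinearOrder (KOrd T) :=
  inferInstanceAs (LinearOrder (Lex (ℕ →₀ Idx T)))

/-- The underlying function. -/
def fn (a : KOrd T) : ℕ → Idx T := fun n => (ofLex a : ℕ →₀ Idx T) n

theorem ext {a b : KOrd T} (h : ∀ n, fn a n = fn b n) : a = b := by
  have : (ofLex a : ℕ →₀ Idx T) = ofLex b := Finsupp.ext h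
  exact ofLex.injective this

theorem fn_bdd (a : KOrd T) : ∃ N, ∀ n, N ≤ n → fn a n = 0 := by
  refine ⟨(ofLex a : ℕ →₀ Idx T).support.sup id + 1, fun n hn => ?_⟩
  by_contra h
  have h1 : n ∈ (ofLex a : ℕ →₀ Idx T).support := Finsupp.mem_support_iff.2 h
  have h2 := Finset.le_sup (f := id) h1
  simp only [id] at h2
  omega

/-- Make an element out of a function which vanishes from some point on. -/
noncomputable def mk (f : ℕ → Idx T) (N : ℕ) (h : ∀ n, N ≤ n → f n = 0) : KOrd T :=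
  toLex (Finsupp.onFinset (Finset.range N) f (fun n hn => by
    by_contra h'
    exact hn (h n (by simpa using h'))))

@[simp] theorem fn_mk (f : ℕ → Idx T) (N : ℕ) (h : ∀ n, N ≤ n → f n = 0) (n : ℕ) :
    fn (mk f N h) n = f n := rfl

variable [LinearOrder T]

theorem lt_iff {a b : KOrd T} :
    a < b ↔ ∃ i, (∀ j, j < i → fn a j = fn b j) ∧ fn a i < fn b i := Iff.rfl

/-- `a` with the value at `N` replaced by `x` and everything after `N` erased. -/
noncomputable def cut (a : KOrd T) (N : ℕ) (x : Idx T) : KOrd T :=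
  mk (fun n => if n < N then fn a n else if n = N then x else 0) (N + 1) (by
    intro n hn
    have h1 : ¬ n < N := by omega
    have h2 : n ≠ N := by omega
    simp [h1, h2])

omit [LinearOrder T] in
theorem fn_cut_lt (a : KOrd T) (N : ℕ) (x : Idx T) {n : ℕ} (h : n < N) :
    fn (cut a N x) n = fn a n := by
  unfold cut; simp [h]

omit [LinearOrder T] in
theorem fn_cut_self (a : KOrd T) (N : ℕ) (x : Idx T) : fn (cut a N x) N = x := by
  unfold cut; simp

theorem cut_lt_self (a : KOrd T) (N : ℕ) {x : Idx T} (h : x < fn a N) : cut a N x < a :=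
  lt_iff.2 ⟨N, fun j hj => fn_cut_lt a N x hj, by rw [fn_cut_self]; exact h⟩

theorem self_lt_cut (a : KOrd T) (N : ℕ) {x : Idx T} (h : fn a N < x) : a < cut a N x :=
  lt_iff.2 ⟨N, fun j hj => (fn_cut_lt a N x hj).symm, by rw [fn_cut_self]; exact h⟩

theorem cut_lt_cut (a : KOrd T) (N : ℕ) {x y : Idx T} (h : x < y) : cut a N x < cut a N y :=
  lt_iff.2 ⟨N, fun j hj => by rw [fn_cut_lt a N x hj, fn_cut_lt a N y hj],
    by rw [fn_cut_self, fn_cut_self]; exact h⟩

theorem lt_of_prefix {a b c : KOrd T} {i : ℕ} (hij : ∀ j, j < i → fn a j = fn b j)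
    (hi : fn a i < fn b i) (hc : ∀ j, j ≤ i → fn c j = fn a j) : c < b :=
  lt_iff.2 ⟨i, fun j hj => (hc j hj.le).trans (hij j hj), by rw [hc i le_rfl]; exact hi⟩

theorem lt_of_prefix' {a b c : KOrd T} {i : ℕ} (hij : ∀ j, j < i → fn a j = fn b j)
    (hi : fn a i < fn b i) (hc : ∀ j, j ≤ i → fn c j = fn b j) : a < c :=
  lt_iff.2 ⟨i, fun j hj => (hij j hj).trans (hc j hj.le).symm, by rw [hc i le_rfl]; exact hi⟩

omit [LinearOrder T] in
theorem mk_card (h : #T = ℵ₁) : #(KOrd T) = ℵ₁ := by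
  have h1 : #(Idx T) = ℵ₁ := by
    have : #(Idx T) = #((T ⊕ Unit) ⊕ T) := rfl
    rw [this]
    simp only [mk_sum, Cardinal.lift_id, h, Cardinal.mk_fintype, Fintype.card_unit, Nat.cast_one]
    have hinf : ℵ₀ ≤ ℵ₁ := (Cardinal.aleph0_lt_aleph_one).le
    rw [Cardinal.add_one_eq hinf, Cardinal.add_eq_self hinf]
  have hinf : ℵ₀ ≤ ℵ₁ := (Cardinal.aleph0_lt_aleph_one).le
  have h2 : Infinite (Idx T) := by
    rw [Cardinal.infinite_iff, h1]; exact hinf
  have h3 : #(KOrd T) = #(ℕ →₀ Idx T) := rfl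
  rw [h3]
  have hne : Nontrivial (Idx T) := inferInstance
  rw [Cardinal.mk_finsupp_of_infinite' ℕ (Idx T), h1]
  simp [hinf]

theorem exists_lt_of_lt [Nonempty T] {a b : KOrd T} (h : a < b) :
    ∃ N, ∀ t : T, cut a N (Idx.pos t) < b ∧ a < cut a N (Idx.pos t) := by
  obtain ⟨i, hij, hi⟩ := lt_iff.1 h
  obtain ⟨N, hN⟩ := fn_bdd a
  refine ⟨max N (i + 1), fun t => ⟨?_, ?_⟩⟩
  · exact lt_of_prefix hij hi (fun j hj => fn_cut_lt a _ _ (by omega))
  · refine self_lt_cut a _ ?_
    rw [hN _ (le_max_left _ _)]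
    exact Idx.zero_lt_pos t

theorem memC (h : #T = ℵ₁) : MemC (KOrd T) := by
  have hne : Nonempty T := by
    rw [← Cardinal.mk_ne_zero_iff, h]
    exact (Cardinal.aleph0_pos.trans Cardinal.aleph0_lt_aleph_one).ne'
  obtain ⟨t₀⟩ := hne
  have : Nonempty T := ⟨t₀⟩
  have hzero : ∀ n : ℕ, 0 ≤ n → (fun _ : ℕ => (0 : Idx T)) n = 0 := fun _ _ => rfl
  refine ⟨?_, ?_, ?_, ?_⟩
  · let z : KOrd T := mk (fun _ => 0) 0 hzero
    refine ⟨z, cut z 0 (Idx.pos t₀), ?_⟩
    exact (self_lt_cut z 0 (by simp only [z, fn_mk]; exact Idx.zero_lt_pos t₀)).ne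
  · intro a b hab
    apply le_antisymm
    · calc #(Set.Ioo a b) ≤ #(KOrd T) := Cardinal.mk_subtype_le _
        _ = ℵ₁ := mk_card h
    · obtain ⟨N, hN⟩ := exists_lt_of_lt hab
      rw [← h]
      refine Cardinal.mk_le_of_injective
        (f := fun t : T => (⟨cut a N (Idx.pos t), Set.mem_Ioo.2 ⟨(hN t).2, (hN t).1⟩⟩ :
          Set.Ioo a b)) ?_
      intro s t hst
      have hst' : cut a N (Idx.pos s) = cut a N (Idx.pos t) := congrArg Subtype.val hst
      by_contra hne
      rcases lt_or_gt_of_ne hne with h1 | h1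
      · have := cut_lt_cut a N (Idx.pos_lt_pos.2 h1)
        exact this.ne hst'
      · have := cut_lt_cut a N (Idx.pos_lt_pos.2 h1)
        exact this.ne hst'.symm
  · intro x _
    obtain ⟨N, hN⟩ := fn_bdd x
    refine ⟨Set.range (fun n : ℕ => cut x (N + n) (Idx.neg t₀)), Set.countable_range _, ?_, ?_⟩
    · rintro _ ⟨n, rfl⟩
      refine cut_lt_self x _ ?_
      rw [hN _ (by omega)]
      exact Idx.neg_lt_zero t₀
    · refine ⟨?_, ?_⟩
      · rintro _ ⟨n, rfl⟩
        refine (cut_lt_self x _ ?_).le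
        rw [hN _ (by omega)]
        exact Idx.neg_lt_zero t₀
      · intro y hy
        by_contra hyx
        rw [not_le] at hyx
        obtain ⟨i, hij, hi⟩ := lt_iff.1 hyx
        have h1 : cut x (N + (i + 1)) (Idx.neg t₀) ≤ y := hy ⟨i + 1, rfl⟩
        have h2 : y < cut x (N + (i + 1)) (Idx.neg t₀) :=
          lt_of_prefix' hij hi (fun j hj => fn_cut_lt x _ _ (by omega))
        exact absurd h1 (not_le.2 h2)
  · intro x _
    obtain ⟨N, hN⟩ := fn_bdd x
    refine ⟨Set.range (fun n : ℕ => cut x (N + n) (Idx.pos t₀)), Set.countable_range _, ?_, ?_⟩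
    · rintro _ ⟨n, rfl⟩
      refine self_lt_cut x _ ?_
      rw [hN _ (by omega)]
      exact Idx.zero_lt_pos t₀
    · refine ⟨?_, ?_⟩
      · rintro _ ⟨n, rfl⟩
        refine (self_lt_cut x _ ?_).le
        rw [hN _ (by omega)]
        exact Idx.zero_lt_pos t₀
      · intro y hy
        by_contra hyx
        rw [not_le] at hyx
        obtain ⟨i, hij, hi⟩ := lt_iff.1 hyx
        have h1 : y ≤ cut x (N + (i + 1)) (Idx.pos t₀) := hy ⟨i + 1, rfl⟩
        have h2 : cut x (N + (i + 1)) (Idx.pos t₀) < y :=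
          lt_of_prefix hij hi (fun j hj => fn_cut_lt x _ _ (by omega))
        exact absurd h1 (not_le.2 h2)

end KOrd

end Pool.Agent.Helper69_LOTS
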