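import Mathlib
import Pool.Agent.Helper69_LOTS.Defs
import Pool.Agent.Helper69_LOTS.KOrd

/-!
If every open subinterval of `(A, B)` contains a `T`-indexed family of disjoint intervals, then
`KOrd T` LOTS-embeds.
-/

open Cardinal

namespace Pool.Agent.Helper69_LOTS

theorem lotsEmbedding_of_approx {A B : Type} [LinearOrder A] [LinearOrder B] {f : A → B}
    (hf : StrictMono f) (h1 : ∀ x y, y < f x → ∃ x', x' < x ∧ y < f x')
    (h2 : ∀ x y, f x < y → ∃ x', x < x' ∧ f x' < y) : IsLOTSEmbedding f := by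
  refine ⟨hf, ?_⟩
  letI := Preorder.topology A
  letI := Preorder.topology B
  have hA : OrderTopology A := ⟨rfl⟩
  have hB : OrderTopology B := ⟨rfl⟩
  rw [continuous_iff_continuousAt]
  intro x
  refine tendsto_order.2 ⟨fun a ha => ?_, fun a ha => ?_⟩
  · obtain ⟨x', hx', h⟩ := h1 x a ha
    filter_upwards [lt_mem_nhds hx'] with z hz
    exact h.trans (hf hz)
  · obtain ⟨x', hx', h⟩ := h2 x a ha
    filter_upwards [gt_mem_nhds hx'] with z hz
    exact (hf hz).trans h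

/-- There is a `T`-indexed family of disjoint intervals inside `(a, b)`. -/
def Fam (T : Type) [LinearOrder T] {L : Type} [LinearOrder L] (a b : L) : Prop :=
  ∃ l r : T → L, (∀ t, a < l t ∧ l t < r t ∧ r t < b) ∧ ∀ s t, s < t → r s ≤ l t

/-- Case analysis on the index order. -/
def Idx.elim {T β : Type} (f : T → β) (z : β) (g : T → β) : Idx T → β :=
  Sum.elim (Sum.elim f (fun _ => z)) g

@[simp] theorem Idx.elim_neg {T β : Type} (f : T → β) (z : β) (g : T → β) (t : T) :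
    Idx.elim f z g (Idx.neg t) = f t := rfl

@[simp] theorem Idx.elim_zero {T β : Type} (f : T → β) (z : β) (g : T → β) :
    Idx.elim f z g 0 = z := rfl

@[simp] theorem Idx.elim_pos {T β : Type} (f : T → β) (z : β) (g : T → β) (t : T) :
    Idx.elim f z g (Idx.pos t) = g t := rfl

/-- A nonempty open interval `(a, b)` inside `(A, B)` with a marked point `p`. -/
structure MInt {L : Type} [LinearOrder L] (A B : L) where
  a : L
  p : L
  b : L
  hA : A ≤ a
  hap : a < p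
  hpb : p < b
  hB : b ≤ B

section

variable {T L : Type} [LinearOrder T] [LinearOrder L] {A B : L}

theorem exists_step
    (hdense : ∀ a b, A ≤ a → a < b → b ≤ B → ∃ c, a < c ∧ c < b)
    (hfam : ∀ a b, A ≤ a → a < b → b ≤ B → Fam T a b)
    (S : MInt A B) (u v : L) (hu : u < S.p) (hv : S.p < v) :
    ∃ step : Idx T → MInt A B, ((step 0).p = S.p ∧ u < (step 0).a ∧ (step 0).b < v) ∧
      (∀ x, S.a ≤ (step x).a ∧ (step x).b ≤ S.b) ∧
      ∀ x y, x < y → (step x).b ≤ (step y).a := by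
  have hpB : S.p < B := S.hpb.trans_le S.hB
  have hAp : A < S.p := S.hA.trans_lt S.hap
  obtain ⟨a', ha1, ha2⟩ := hdense (max S.a u) S.p (le_max_of_le_left S.hA) (max_lt S.hap hu) hpB.le
  obtain ⟨b', hb1, hb2⟩ := hdense S.p (min S.b v) hAp.le (lt_min S.hpb hv)
    (min_le_of_left_le S.hB)
  have haa : S.a < a' := (le_max_left _ _).trans_lt ha1
  have hua : u < a' := (le_max_right _ _).trans_lt ha1
  have hbb : b' < S.b := hb2.trans_le (min_le_left _ _)
  have hbv : b' < v := hb2.trans_le (min_le_right _ _)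
  obtain ⟨l, r, hlr, hlr'⟩ := hfam S.a a' S.hA haa (ha2.le.trans hpB.le)
  obtain ⟨l2, r2, hlr2, hlr2'⟩ := hfam b' S.b (hAp.le.trans hb1.le) hbb S.hB
  have hmid : ∀ t, ∃ c, l t < c ∧ c < r t := fun t =>
    hdense (l t) (r t) (S.hA.trans (hlr t).1.le) (hlr t).2.1
      ((hlr t).2.2.le.trans (ha2.le.trans hpB.le))
  have hmid2 : ∀ t, ∃ c, l2 t < c ∧ c < r2 t := fun t =>
    hdense (l2 t) (r2 t) ((hAp.le.trans hb1.le).trans (hlr2 t).1.le) (hlr2 t).2.1
      ((hlr2 t).2.2.le.trans S.hB)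
  choose m hm using hmid
  choose m2 hm2 using hmid2
  let f : T → MInt A B := fun t => ⟨l t, m t, r t, S.hA.trans (hlr t).1.le, (hm t).1, (hm t).2,
    (hlr t).2.2.le.trans (ha2.le.trans hpB.le)⟩
  let z : MInt A B := ⟨a', S.p, b', S.hA.trans haa.le, ha2, hb1, hbb.le.trans S.hB⟩
  let g : T → MInt A B := fun t => ⟨l2 t, m2 t, r2 t, (hAp.le.trans hb1.le).trans (hlr2 t).1.le,
    (hm2 t).1, (hm2 t).2, (hlr2 t).2.2.le.trans S.hB⟩
  refine ⟨Idx.elim f z g, ⟨rfl, hua, hbv⟩, ?_, ?_⟩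
  · intro x
    rcases Idx.cases x with ⟨t, rfl⟩ | rfl | ⟨t, rfl⟩
    · exact ⟨(hlr t).1.le, (hlr t).2.2.le.trans (ha2.le.trans S.hpb.le)⟩
    · exact ⟨haa.le, hbb.le⟩
    · exact ⟨(S.hap.le.trans hb1.le).trans (hlr2 t).1.le, (hlr2 t).2.2.le⟩
  · intro x y hxy
    rcases Idx.cases x with ⟨t, rfl⟩ | rfl | ⟨t, rfl⟩
    · rcases Idx.cases y with ⟨s, rfl⟩ | rfl | ⟨s, rfl⟩
      · exact hlr' t s (Idx.neg_lt_neg.1 hxy)
      · exact (hlr t).2.2.le
      · exact (hlr t).2.2.le.trans ((ha2.le.trans hb1.le).trans (hlr2 s).1.le)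
    · rcases Idx.cases y with ⟨s, rfl⟩ | rfl | ⟨s, rfl⟩
      · exact absurd hxy (not_lt.2 (Idx.neg_lt_zero s).le)
      · exact absurd hxy (lt_irrefl _)
      · exact (hlr2 s).1.le
    · rcases Idx.cases y with ⟨s, rfl⟩ | rfl | ⟨s, rfl⟩
      · exact absurd hxy (not_lt.2 (Idx.neg_lt_pos s t).le)
      · exact absurd hxy (not_lt.2 (Idx.zero_lt_pos t).le)
      · exact hlr2' t s (Idx.pos_lt_pos.1 hxy)

/-- The interval attached to a finite prefix. -/
def node (step : MInt A B → ℕ → Idx T → MInt A B) (S₀ : MInt A B) :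
    ℕ → (ℕ → Idx T) → MInt A B
  | 0, _ => S₀
  | n + 1, σ => step (node step S₀ n σ) n (σ n)

theorem node_congr (step : MInt A B → ℕ → Idx T → MInt A B) (S₀ : MInt A B) (n : ℕ)
    (σ τ : ℕ → Idx T) (h : ∀ j, j < n → σ j = τ j) : node step S₀ n σ = node step S₀ n τ := by
  induction n with
  | zero => rfl
  | succ n ih =>
    simp only [node]
    rw [ih (fun j hj => h j (by omega)), h n (by omega)]

/-- **Embedding lemma.** -/
theorem KOrd.embeds [Nonempty T] (hAB : A < B)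
    (hdense : ∀ a b, A ≤ a → a < b → b ≤ B → ∃ c, a < c ∧ c < b)
    (hcof : ∀ p, A < p → p < B → ∃ s : ℕ → L, (∀ n, s n < p) ∧ ∀ y, y < p → ∃ n, y < s n)
    (hcoi : ∀ p, A < p → p < B → ∃ s : ℕ → L, (∀ n, p < s n) ∧ ∀ y, p < y → ∃ n, s n < y)
    (hfam : ∀ a b, A ≤ a → a < b → b ≤ B → Fam T a b) : LOTSEmbeds (KOrd T) L := by
  have hcof' : ∀ p, ∃ s : ℕ → L, A < p → p < B → (∀ n, s n < p) ∧
      ∀ y, y < p → ∀ N, ∃ n, N ≤ n ∧ y < s n := by
    intro p
    by_cases h1 : A < p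
    · by_cases h2 : p < B
      · obtain ⟨s, hs1, hs2⟩ := hcof p h1 h2
        refine ⟨s, fun _ _ => ⟨hs1, ?_⟩⟩
        intro y hy N
        induction N generalizing y with
        | zero => obtain ⟨n, hn⟩ := hs2 y hy; exact ⟨n, Nat.zero_le _, hn⟩
        | succ N ih =>
          obtain ⟨n, hn1, hn2⟩ := ih (max y (s N)) (max_lt hy (hs1 N))
          refine ⟨n, ?_, (le_max_left _ _).trans_lt hn2⟩
          have : n ≠ N := by
            rintro rfl
            exact absurd ((le_max_right y (s n)).trans_lt hn2) (lt_irrefl _)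
          omega
      · exact ⟨fun _ => p, fun _ h => absurd h h2⟩
    · exact ⟨fun _ => p, fun h _ => absurd h h1⟩
  have hcoi' : ∀ p, ∃ s : ℕ → L, A < p → p < B → (∀ n, p < s n) ∧
      ∀ y, p < y → ∀ N, ∃ n, N ≤ n ∧ s n < y := by
    intro p
    by_cases h1 : A < p
    · by_cases h2 : p < B
      · obtain ⟨s, hs1, hs2⟩ := hcoi p h1 h2
        refine ⟨s, fun _ _ => ⟨hs1, ?_⟩⟩
        intro y hy N
        induction N generalizing y with
        | zero => obtain ⟨n, hn⟩ := hs2 y hy; exact ⟨n, Nat.zero_le _, hn⟩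
        | succ N ih =>
          obtain ⟨n, hn1, hn2⟩ := ih (min y (s N)) (lt_min hy (hs1 N))
          refine ⟨n, ?_, hn2.trans_le (min_le_left _ _)⟩
          have : n ≠ N := by
            rintro rfl
            exact absurd (hn2.trans_le (min_le_right y (s n))) (lt_irrefl _)
          omega
      · exact ⟨fun _ => p, fun _ h => absurd h h2⟩
    · exact ⟨fun _ => p, fun h _ => absurd h h1⟩
  choose sL hsL using hcof'
  choose sR hsR using hcoi'
  have hAp : ∀ S : MInt A B, A < S.p := fun S => S.hA.trans_lt S.hap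
  have hpB : ∀ S : MInt A B, S.p < B := fun S => S.hpb.trans_le S.hB
  have hstep : ∀ (S : MInt A B) (n : ℕ), ∃ step : Idx T → MInt A B,
      ((step 0).p = S.p ∧ sL S.p n < (step 0).a ∧ (step 0).b < sR S.p n) ∧
      (∀ x, S.a ≤ (step x).a ∧ (step x).b ≤ S.b) ∧
      ∀ x y, x < y → (step x).b ≤ (step y).a := fun S n =>
    exists_step hdense hfam S (sL S.p n) (sR S.p n)
      ((hsL S.p (hAp S) (hpB S)).1 n) ((hsR S.p (hAp S) (hpB S)).1 n)
  choose step hst0 hst1 hst2 using hstep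
  obtain ⟨p₀, hp1, hp2⟩ := hdense A B le_rfl hAB le_rfl
  let S₀ : MInt A B := ⟨A, p₀, B, le_rfl, hp1, hp2, le_rfl⟩
  let nd := node step S₀
  have nd_succ : ∀ n σ, nd (n + 1) σ = step (nd n σ) n (σ n) := fun _ _ => rfl
  have nest : ∀ (σ : ℕ → Idx T) (n m : ℕ), n ≤ m →
      (nd n σ).a ≤ (nd m σ).a ∧ (nd m σ).b ≤ (nd n σ).b := by
    intro σ n m hnm
    induction m, hnm using Nat.le_induction with
    | base => exact ⟨le_rfl, le_rfl⟩
    | succ m _ ih =>
      rw [nd_succ]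
      exact ⟨ih.1.trans (hst1 _ _ _).1, (hst1 _ _ _).2.trans ih.2⟩
  have ptEq : ∀ (σ : ℕ → Idx T) (N : ℕ), (∀ n, N ≤ n → σ n = 0) → ∀ m, N ≤ m →
      (nd m σ).p = (nd N σ).p := by
    intro σ N h m hm
    induction m, hm using Nat.le_induction with
    | base => rfl
    | succ m hm ih =>
      rw [nd_succ, h m hm, (hst0 _ _).1, ih]
  choose bd hbd using fun a : KOrd T => KOrd.fn_bdd a
  let g : KOrd T → L := fun a => (nd (bd a) (KOrd.fn a)).p
  have g_eq : ∀ (a : KOrd T) (M : ℕ), (∀ n, M ≤ n → KOrd.fn a n = 0) →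
      g a = (nd M (KOrd.fn a)).p := by
    intro a M hM
    have h1 := ptEq (KOrd.fn a) M hM (max M (bd a)) (le_max_left _ _)
    have h2 := ptEq (KOrd.fn a) (bd a) (hbd a) (max M (bd a)) (le_max_right _ _)
    exact h2.symm.trans h1
  have g_mem : ∀ (a : KOrd T) (n : ℕ), (nd n (KOrd.fn a)).a < g a ∧ g a < (nd n (KOrd.fn a)).b := by
    intro a n
    have h1 := g_eq a (max n (bd a)) (fun m hm => hbd a m ((le_max_right _ _).trans hm))
    have h2 := nest (KOrd.fn a) n (max n (bd a)) (le_max_left _ _)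
    rw [h1]
    exact ⟨h2.1.trans_lt (nd (max n (bd a)) (KOrd.fn a)).hap,
      (nd (max n (bd a)) (KOrd.fn a)).hpb.trans_le h2.2⟩
  have hcongr : ∀ (a b : KOrd T) (n : ℕ), (∀ j, j < n → KOrd.fn a j = KOrd.fn b j) →
      nd n (KOrd.fn a) = nd n (KOrd.fn b) := fun a b n h => node_congr step S₀ n _ _ h
  have gmono : StrictMono g := by
    intro a b hab
    obtain ⟨i, hij, hi⟩ := KOrd.lt_iff.1 hab
    have e := hcongr a b i hij
    have h1 := (g_mem a (i + 1)).2
    have h2 := (g_mem b (i + 1)).1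
    rw [nd_succ] at h1 h2
    rw [← e] at h2
    exact h1.trans (lt_of_le_of_lt (hst2 _ _ _ _ hi) h2)
  obtain ⟨t₀⟩ := ‹Nonempty T›
  refine ⟨g, lotsEmbedding_of_approx gmono ?_ ?_⟩
  · intro x y hy
    have hgp : ∀ n, bd x ≤ n → (nd n (KOrd.fn x)).p = g x := fun n hn =>
      ptEq (KOrd.fn x) (bd x) (hbd x) n hn
    have hA' : A < g x := hAp _
    have hB' : g x < B := hpB _
    obtain ⟨n, hn1, hn2⟩ := (hsL (g x) hA' hB').2 y hy (bd x)
    have h3 : sL (g x) n < (nd (n + 1) (KOrd.fn x)).a := by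
      rw [nd_succ, hbd x n hn1]
      have := (hst0 (nd n (KOrd.fn x)) n).2.1
      rwa [hgp n hn1] at this
    refine ⟨KOrd.cut x (n + 1) (Idx.neg t₀), KOrd.cut_lt_self x _ ?_, ?_⟩
    · rw [hbd x _ (by omega)]; exact Idx.neg_lt_zero t₀
    · have h4 := (g_mem (KOrd.cut x (n + 1) (Idx.neg t₀)) (n + 1)).1
      rw [hcongr _ x (n + 1) (fun j hj => KOrd.fn_cut_lt x _ _ hj)] at h4
      exact (hn2.trans h3).trans h4
  · intro x y hy
    have hgp : ∀ n, bd x ≤ n → (nd n (KOrd.fn x)).p = g x := fun n hn =>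
      ptEq (KOrd.fn x) (bd x) (hbd x) n hn
    have hA' : A < g x := hAp _
    have hB' : g x < B := hpB _
    obtain ⟨n, hn1, hn2⟩ := (hsR (g x) hA' hB').2 y hy (bd x)
    have h3 : (nd (n + 1) (KOrd.fn x)).b < sR (g x) n := by
      rw [nd_succ, hbd x n hn1]
      have := (hst0 (nd n (KOrd.fn x)) n).2.2
      rwa [hgp n hn1] at this
    refine ⟨KOrd.cut x (n + 1) (Idx.pos t₀), KOrd.self_lt_cut x _ ?_, ?_⟩
    · rw [hbd x _ (by omega)]; exact Idx.zero_lt_pos t₀
    · have h4 := (g_mem (KOrd.cut x (n + 1) (Idx.pos t₀)) (n + 1)).2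
      rw [hcongr _ x (n + 1) (fun j hj => KOrd.fn_cut_lt x _ _ hj)] at h4
      exact h4.trans (h3.trans hn2)

end

end Pool.Agent.Helper69_LOTS
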