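import Mathlib
import Pool.Agent.Helper69_LOTS.Defs
import Pool.Agent.Helper69_LOTS.Emb

/-!
The repair lemma: order embeddings of a suitable separable order can be made continuous.
-/

open Cardinal

namespace Pool.Agent.Helper69_LOTS

/-- Left and right continuity of an increasing map at a point. -/
def ContAt {X L : Type} [LinearOrder X] [LinearOrder L] (f : X → L) (x : X) : Prop :=
  (∀ y, y < f x → ∃ x', x' < x ∧ y < f x') ∧ (∀ y, f x < y → ∃ x', x < x' ∧ f x' < y)

/-- Every sequence of distinct points has neighbourhoods covering every point only finitely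
often. -/
def PropP (X : Type) [LinearOrder X] : Prop :=
  ∀ d : ℕ → X, Function.Injective d → ∃ u v : ℕ → X, (∀ k, u k < d k ∧ d k < v k) ∧
    ∀ x, {k | u k < x ∧ x < v k}.Finite

/-- The family hypothesis of the repair lemma. -/
def FamHyp {X L : Type} [LinearOrder X] [LinearOrder L] (D : Set X) (R : Set L) (A B : L) : Prop :=
  ∀ a ∈ R, ∀ b ∈ R, A ≤ a → a < b → b ≤ B → ∃ f : X → L, StrictMono f ∧
    (∀ x, a < f x ∧ f x < b) ∧ ∀ x, x ∉ D → ContAt f x

theorem exists_seq {X : Type} [LinearOrder X] {Q : Set X} (hQ : Q.Countable) {w p : X}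
    (hwp : w < p) (hd : ∀ z, w ≤ z → z < p → ∃ q ∈ Q, z < q ∧ q < p) :
    ∃ s : ℕ → X, (∀ n, s n ∈ Q ∧ w < s n ∧ s n < p) ∧ StrictMono s ∧
      ∀ z, z < p → ∃ n, z < s n := by
  classical
  obtain ⟨q₀, hq0, hq1, hq2⟩ := hd w le_rfl hwp
  obtain ⟨q, hq⟩ := hQ.exists_eq_range ⟨q₀, hq0⟩
  let Y : Type := {z : X // z ∈ Q ∧ w < z ∧ z < p}
  have hstep : ∀ (n : ℕ) (z : Y), ∃ z' : Y, z.1 < z'.1 ∧ (q n < p → q n < z'.1) := by
    rintro n ⟨z, hz1, hz2, hz3⟩
    by_cases h : q n < p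
    · obtain ⟨c, hc1, hc2, hc3⟩ := hd (max z (q n)) (hz2.le.trans (le_max_left _ _)) (max_lt hz3 h)
      exact ⟨⟨c, hc1, hz2.trans ((le_max_left _ _).trans_lt hc2), hc3⟩,
        (le_max_left _ _).trans_lt hc2, fun _ => (le_max_right _ _).trans_lt hc2⟩
    · obtain ⟨c, hc1, hc2, hc3⟩ := hd z hz2.le hz3
      exact ⟨⟨c, hc1, hz2.trans hc2, hc3⟩, hc2, fun h' => absurd h' h⟩
  choose nxt hn1 hn2 using hstep
  let s : ℕ → Y := fun n => Nat.rec ⟨q₀, hq0, hq1, hq2⟩ (fun n z => nxt n z) n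
  have hs : ∀ n, s (n + 1) = nxt n (s n) := fun n => rfl
  refine ⟨fun n => (s n).1, fun n => (s n).2, ?_, ?_⟩
  · refine strictMono_nat_of_lt_succ (fun n => ?_)
    rw [hs]
    exact hn1 n (s n)
  · intro z hz
    by_cases hwz : w ≤ z
    · obtain ⟨c, hc1, hc2, hc3⟩ := hd z hwz hz
      rw [hq] at hc1
      obtain ⟨n, rfl⟩ := hc1
      refine ⟨n + 1, ?_⟩
      have := hn2 n (s n) hc3
      change z < (s (n + 1)).1
      rw [hs]
      exact hc2.trans this
    · exact ⟨0, (not_le.1 hwz).trans hq1⟩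

/-- Left block. -/
theorem left_block {X L : Type} [LinearOrder X] [LinearOrder L] {Q D : Set X} (hQ : Q.Countable)
    (hQD : Q ⊆ D) (hQd : ∀ x y, x < y → ∃ q ∈ Q, x < q ∧ q < y)
    {A B : L} {R : Set L} (hR : R.Countable)
    (hRd : ∀ a b, A ≤ a → a < b → b ≤ B → ∃ q ∈ R, a < q ∧ q < b)
    (hfam : FamHyp (X := X) D R A B) (w p : X) (hwp : w < p) (y0 y1 : L) (hA : A ≤ y0)
    (hy : y0 < y1) (hB : y1 ≤ B) :
    ∃ h : X → L, (∀ x x', w < x → x < x' → x' < p → h x < h x') ∧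
      (∀ x, w < x → x < p → y0 < h x ∧ h x < y1) ∧
      (∀ y, y < y1 → ∃ x, w < x ∧ x < p ∧ y < h x) ∧
      (∀ x, w < x → x < p → x ∉ D → (∀ y, y < h x → ∃ x', w < x' ∧ x' < x ∧ y < h x') ∧
        (∀ y, h x < y → ∃ x', x < x' ∧ x' < p ∧ h x' < y)) := by
  classical
  obtain ⟨s, hs1, hs2, hs3⟩ := exists_seq hQ hwp (fun z _ hz => hQd z p hz)
  obtain ⟨t, ht1, ht2, ht3⟩ := exists_seq hR hy (fun z hz hz' => hRd z y1 (hA.trans hz) hz' hB)
  have htB : ∀ n, t n ≤ B := fun n => (ht1 n).2.2.le.trans hB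
  have htA : ∀ n, A ≤ t n := fun n => hA.trans (ht1 n).2.1.le
  have hF : ∀ n, ∃ f : X → L, StrictMono f ∧ (∀ x, t n < f x ∧ f x < t (n + 1)) ∧
      ∀ x, x ∉ D → ContAt f x := fun n =>
    hfam (t n) (ht1 n).1 (t (n + 1)) (ht1 (n + 1)).1 (htA n) (ht2 (Nat.lt_succ_self n)) (htB _)
  choose F hF1 hF2 hF3 using hF
  -- the index of a point
  let j : X → ℕ := fun x => if h : ∃ n, x < s n then Nat.find h else 0
  have hj1 : ∀ x, x < p → x < s (j x) := by
    intro x hx
    have h := hs3 x hx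
    simp only [j, dif_pos h]
    exact Nat.find_spec h
  have hj2 : ∀ x, x < p → ∀ n, x < s n → j x ≤ n := by
    intro x hx n hn
    have h := hs3 x hx
    simp only [j, dif_pos h]
    exact Nat.find_min' h hn
  have hjmono : ∀ x x', x ≤ x' → x' < p → j x ≤ j x' := fun x x' hxx hx' =>
    hj2 x (hxx.trans_lt hx') _ (hxx.trans_lt (hj1 x' hx'))
  have hlow : ∀ x, x < p → ∀ n, n < j x → s n ≤ x := by
    intro x hx n hn
    by_contra hcon
    exact absurd (hj2 x hx n (not_le.1 hcon)) (not_le.2 hn)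
  let h : X → L := fun x => F (j x) x
  have hval : ∀ x, t (j x) < h x ∧ h x < t (j x + 1) := fun x => hF2 (j x) x
  have hmono : ∀ x x', w < x → x < x' → x' < p → h x < h x' := by
    intro x x' _ hxx hx'
    rcases (hjmono x x' hxx.le hx').lt_or_eq with h1 | h1
    · exact (hval x).2.trans ((ht2.monotone h1).trans_lt (hval x').1)
    · simp only [h]
      rw [h1]
      exact hF1 _ hxx
  refine ⟨h, hmono, ?_, ?_, ?_⟩
  · intro x _ _
    exact ⟨(ht1 _).2.1.trans (hval x).1, (hval x).2.trans (ht1 _).2.2⟩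
  · intro y hy'
    obtain ⟨n, hn⟩ := ht3 y hy'
    refine ⟨s n, (hs1 n).2.1, (hs1 n).2.2, ?_⟩
    have h1 : n ≤ j (s n) := by
      by_contra hcon
      have h2 := hj1 (s n) (hs1 n).2.2
      exact absurd (hs2.lt_iff_lt.1 h2) (by omega)
    exact hn.trans ((ht2.monotone h1).trans_lt (hval _).1)
  · intro x hwx hxp hxD
    have hxs : ∀ n, x ≠ s n := fun n hn => hxD (hQD (hn ▸ (hs1 n).1))
    have hc := hF3 (j x) x hxD
    constructor
    · intro y hyx
      obtain ⟨x', hx', hy'⟩ := hc.1 y hyx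
      -- lower end of the piece
      obtain ⟨lo, hlo1, hlo2, hlo3⟩ : ∃ lo, w ≤ lo ∧ lo < x ∧ ∀ n, n < j x → s n ≤ lo := by
        rcases Nat.eq_zero_or_pos (j x) with h0 | h0
        · exact ⟨w, le_rfl, hwx, fun n hn => absurd hn (by omega)⟩
        · refine ⟨s (j x - 1), (hs1 _).2.1.le, ?_, fun n hn => hs2.monotone (by omega)⟩
          exact lt_of_le_of_ne (hlow x hxp _ (by omega)) (hxs _).symm
      obtain ⟨z, -, hz1, hz2⟩ := hQd (max x' lo) x (max_lt hx' hlo2)
      have hjz : j z = j x := by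
        apply le_antisymm (hjmono z x hz2.le hxp)
        by_contra hcon
        have h1 := hlo3 (j z) (not_le.1 hcon)
        have h2 := hj1 z (hz2.trans hxp)
        exact absurd (h1.trans ((le_max_right _ _).trans hz1.le)) (not_le.2 h2)
      refine ⟨z, hlo1.trans_lt ((le_max_right _ _).trans_lt hz1), hz2, ?_⟩
      simp only [h]
      rw [hjz]
      exact hy'.trans (hF1 _ ((le_max_left _ _).trans_lt hz1))
    · intro y hyx
      obtain ⟨x', hx', hy'⟩ := hc.2 y hyx
      obtain ⟨z, -, hz1, hz2⟩ := hQd x (min x' (s (j x))) (lt_min hx' (hj1 x hxp))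
      have hzp : z < p := (hz2.trans_le (min_le_right _ _)).trans (hs1 _).2.2
      have hjz : j z = j x := by
        apply le_antisymm _ (hjmono x z hz1.le hzp)
        exact hj2 z hzp _ (hz2.trans_le (min_le_right _ _))
      refine ⟨z, hz1, hzp, ?_⟩
      simp only [h]
      rw [hjz]
      exact (hF1 _ (hz2.trans_le (min_le_left _ _))).trans hy'

theorem FamHyp.dual {X L : Type} [LinearOrder X] [LinearOrder L] {D : Set X} {R : Set L} {A B : L}
    (h : FamHyp (X := X) D R A B) :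
    FamHyp (X := Xᵒᵈ) (L := Lᵒᵈ) (OrderDual.ofDual ⁻¹' D) (OrderDual.ofDual ⁻¹' R)
      (OrderDual.toDual B) (OrderDual.toDual A) := by
  intro a ha b hb hBa hab hbA
  obtain ⟨f, hf1, hf2, hf3⟩ := h (OrderDual.ofDual b) hb (OrderDual.ofDual a) ha hbA hab hBa
  refine ⟨fun x => OrderDual.toDual (f (OrderDual.ofDual x)), ?_, ?_, ?_⟩
  · intro x y hxy
    exact hf1 hxy
  · intro x
    exact ⟨(hf2 (OrderDual.ofDual x)).2, (hf2 (OrderDual.ofDual x)).1⟩
  · intro x hx
    have := hf3 (OrderDual.ofDual x) hx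
    exact ⟨this.2, this.1⟩

/-- Right block. -/
theorem right_block {X L : Type} [LinearOrder X] [LinearOrder L] {Q D : Set X} (hQ : Q.Countable)
    (hQD : Q ⊆ D) (hQd : ∀ x y, x < y → ∃ q ∈ Q, x < q ∧ q < y)
    {A B : L} {R : Set L} (hR : R.Countable)
    (hRd : ∀ a b, A ≤ a → a < b → b ≤ B → ∃ q ∈ R, a < q ∧ q < b)
    (hfam : FamHyp (X := X) D R A B) (w p : X) (hwp : p < w) (y0 y1 : L) (hA : y0 ≤ B)
    (hy : y1 < y0) (hB : A ≤ y1) :
    ∃ h : X → L, (∀ x x', p < x → x < x' → x' < w → h x < h x') ∧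
      (∀ x, p < x → x < w → y1 < h x ∧ h x < y0) ∧
      (∀ y, y1 < y → ∃ x, p < x ∧ x < w ∧ h x < y) ∧
      (∀ x, p < x → x < w → x ∉ D → (∀ y, h x < y → ∃ x', x < x' ∧ x' < w ∧ h x' < y) ∧
        (∀ y, y < h x → ∃ x', p < x' ∧ x' < x ∧ y < h x')) := by
  obtain ⟨h, h1, h2, h3, h4⟩ := left_block (X := Xᵒᵈ) (L := Lᵒᵈ)
    (Q := OrderDual.ofDual ⁻¹' Q) (D := OrderDual.ofDual ⁻¹' D)
    (hQ.preimage OrderDual.ofDual.injective) (fun x hx => hQD hx)
    (fun x y hxy => by
      obtain ⟨q, hq, hq1, hq2⟩ := hQd (OrderDual.ofDual y) (OrderDual.ofDual x) hxy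
      exact ⟨OrderDual.toDual q, hq, hq2, hq1⟩)
    (A := OrderDual.toDual B) (B := OrderDual.toDual A) (R := OrderDual.ofDual ⁻¹' R)
    (hR.preimage OrderDual.ofDual.injective)
    (fun a b ha hab hb => by
      obtain ⟨q, hq, hq1, hq2⟩ := hRd (OrderDual.ofDual b) (OrderDual.ofDual a) hb hab ha
      exact ⟨OrderDual.toDual q, hq, hq2, hq1⟩)
    hfam.dual (OrderDual.toDual w) (OrderDual.toDual p) hwp (OrderDual.toDual y0)
    (OrderDual.toDual y1) hA hy hB
  refine ⟨fun x => OrderDual.ofDual (h (OrderDual.toDual x)), ?_, ?_, ?_, ?_⟩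
  · intro x x' hpx hxx hxw
    exact h1 (OrderDual.toDual x') (OrderDual.toDual x) hxw hxx hpx
  · intro x hpx hxw
    have := h2 (OrderDual.toDual x) hxw hpx
    exact ⟨this.2, this.1⟩
  · intro y hy'
    obtain ⟨x, hx1, hx2, hx3⟩ := h3 (OrderDual.toDual y) hy'
    exact ⟨OrderDual.ofDual x, hx2, hx1, hx3⟩
  · intro x hpx hxw hxD
    have := h4 (OrderDual.toDual x) hxw hpx hxD
    constructor
    · intro y hy'
      obtain ⟨x', hx1, hx2, hx3⟩ := this.1 (OrderDual.toDual y) hy'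
      exact ⟨OrderDual.ofDual x', hx2, hx1, hx3⟩
    · intro y hy'
      obtain ⟨x', hx1, hx2, hx3⟩ := this.2 (OrderDual.toDual y) hy'
      exact ⟨OrderDual.ofDual x', hx2, hx1, hx3⟩

/-- A stage of the construction. -/
structure Stage {X L : Type} [LinearOrder X] [LinearOrder L] (D : Set X) (A B : L) where
  g : X → L
  P : Finset X
  mono : StrictMono g
  mem : ∀ x, A < g x ∧ g x < B
  cont : ∀ x, x ∉ D → ContAt g x

theorem exists_next {X L : Type} [LinearOrder X] [LinearOrder L] {Q D : Set X} (hQ : Q.Countable)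
    (hQD : Q ⊆ D) (hQd : ∀ x y, x < y → ∃ q ∈ Q, x < q ∧ q < y)
    {A B : L} {R : Set L} (hR : R.Countable)
    (hRd : ∀ a b, A ≤ a → a < b → b ≤ B → ∃ q ∈ R, a < q ∧ q < b)
    (hfam : FamHyp (X := X) D R A B) (S : Stage (X := X) D A B) (d u v : X) (hu : u < d)
    (hv : d < v) :
    ∃ (S' : Stage (X := X) D A B) (w w' : X), (u < w ∧ w < d ∧ d < w' ∧ w' < v) ∧
      (∀ z ∈ S.P, z ≠ d → ¬ (w ≤ z ∧ z ≤ w')) ∧
      (∀ x, (x ≤ w ∨ w' ≤ x ∨ x = d) → S'.g x = S.g x) ∧
      (S.P ⊆ S'.P ∧ d ∈ S'.P ∧ w ∈ S'.P ∧ w' ∈ S'.P) ∧ ContAt S'.g d := by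
  classical
  -- choose `w`
  obtain ⟨w, hwQ, hw1, hw2⟩ : ∃ w ∈ Q, (u < w ∧ ∀ z ∈ S.P, z < d → z < w) ∧ w < d := by
    let m : X := (insert u (S.P.filter (· < d))).max' (Finset.insert_nonempty _ _)
    have hm : m < d := by
      rw [Finset.max'_lt_iff]
      intro y hy
      rw [Finset.mem_insert, Finset.mem_filter] at hy
      rcases hy with rfl | hy
      · exact hu
      · exact hy.2
    obtain ⟨w, hwQ, hw1, hw2⟩ := hQd m d hm
    refine ⟨w, hwQ, ⟨?_, fun z hz hzd => ?_⟩, hw2⟩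
    · exact (Finset.le_max' _ u (Finset.mem_insert_self _ _)).trans_lt hw1
    · refine (Finset.le_max' _ z ?_).trans_lt hw1
      rw [Finset.mem_insert, Finset.mem_filter]
      exact Or.inr ⟨hz, hzd⟩
  obtain ⟨w', hw'Q, hw'1, hw'2⟩ : ∃ w ∈ Q, (w < v ∧ ∀ z ∈ S.P, d < z → w < z) ∧ d < w := by
    let m : X := (insert v (S.P.filter (d < ·))).min' (Finset.insert_nonempty _ _)
    have hm : d < m := by
      rw [Finset.lt_min'_iff]
      intro y hy
      rw [Finset.mem_insert, Finset.mem_filter] at hy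
      rcases hy with rfl | hy
      · exact hv
      · exact hy.2
    obtain ⟨w, hwQ, hw1, hw2⟩ := hQd d m hm
    refine ⟨w, hwQ, ⟨?_, fun z hz hzd => ?_⟩, hw1⟩
    · exact hw2.trans_le (Finset.min'_le _ v (Finset.mem_insert_self _ _))
    · refine hw2.trans_le (Finset.min'_le _ z ?_)
      rw [Finset.mem_insert, Finset.mem_filter]
      exact Or.inr ⟨hz, hzd⟩
  have hgw : S.g w < S.g d := S.mono hw2
  have hgw' : S.g d < S.g w' := S.mono hw'2
  obtain ⟨hL, hL1, hL2, hL3, hL4⟩ := left_block hQ hQD hQd hR hRd hfam w d hw2 (S.g w) (S.g d)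
    (S.mem w).1.le hgw (S.mem d).2.le
  obtain ⟨hRt, hR1, hR2, hR3, hR4⟩ := right_block hQ hQD hQd hR hRd hfam w' d hw'2 (S.g w') (S.g d)
    (S.mem w').2.le hgw' (S.mem d).1.le
  let g' : X → L := fun x => if w < x ∧ x < d then hL x else if d < x ∧ x < w' then hRt x else S.g x
  have g'L : ∀ x, w < x → x < d → g' x = hL x := fun x h1 h2 => by simp only [g', h1, h2, and_self, if_true]
  have g'R : ∀ x, d < x → x < w' → g' x = hRt x := fun x h1 h2 => by
    have h3 : ¬ (w < x ∧ x < d) := fun h => absurd h.2 h1.not_gt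
    simp only [g', h3, h1, h2, and_self, if_true, if_false]
  have g'O : ∀ x, (x ≤ w ∨ w' ≤ x ∨ x = d) → g' x = S.g x := fun x h => by
    have h3 : ¬ (w < x ∧ x < d) := by
      rintro ⟨h1, h2⟩
      rcases h with h | h | h
      · exact absurd h (not_le.2 h1)
      · exact absurd (h2.trans hw'2) (not_lt.2 h)
      · exact h2.ne h
    have h4 : ¬ (d < x ∧ x < w') := by
      rintro ⟨h1, h2⟩
      rcases h with h | h | h
      · exact absurd (hw2.trans h1) (not_lt.2 h)
      · exact absurd h2 (not_lt.2 h)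
      · exact h1.ne h.symm
    simp only [g', h3, h4, if_false]
  -- trichotomy of positions
  have pos : ∀ x, (x ≤ w) ∨ (w < x ∧ x < d) ∨ x = d ∨ (d < x ∧ x < w') ∨ w' ≤ x := by
    intro x
    rcases le_or_gt x w with h | h
    · exact Or.inl h
    · rcases lt_trichotomy x d with h1 | h1 | h1
      · exact Or.inr (Or.inl ⟨h, h1⟩)
      · exact Or.inr (Or.inr (Or.inl h1))
      · rcases lt_or_ge x w' with h2 | h2
        · exact Or.inr (Or.inr (Or.inr (Or.inl ⟨h1, h2⟩)))
        · exact Or.inr (Or.inr (Or.inr (Or.inr h2)))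
  have hmono : StrictMono g' := by
    intro x y hxy
    rcases pos x with hx | hx | hx | hx | hx
    · rw [g'O x (Or.inl hx)]
      rcases pos y with hy | hy | hy | hy | hy
      · rw [g'O y (Or.inl hy)]; exact S.mono hxy
      · rw [g'L y hy.1 hy.2]; exact (S.mono.monotone hx).trans_lt (hL2 y hy.1 hy.2).1
      · rw [g'O y (Or.inr (Or.inr hy))]; exact S.mono hxy
      · rw [g'R y hy.1 hy.2]
        exact (S.mono.monotone (hx.trans hw2.le)).trans_lt (hR2 y hy.1 hy.2).1
      · rw [g'O y (Or.inr (Or.inl hy))]; exact S.mono hxy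
    · rw [g'L x hx.1 hx.2]
      rcases pos y with hy | hy | hy | hy | hy
      · exact absurd (hx.1.trans hxy) (not_lt.2 hy)
      · rw [g'L y hy.1 hy.2]; exact hL1 x y hx.1 hxy hy.2
      · rw [g'O y (Or.inr (Or.inr hy)), hy]; exact (hL2 x hx.1 hx.2).2
      · rw [g'R y hy.1 hy.2]; exact (hL2 x hx.1 hx.2).2.trans (hR2 y hy.1 hy.2).1
      · rw [g'O y (Or.inr (Or.inl hy))]
        exact (hL2 x hx.1 hx.2).2.trans (hgw'.trans_le (S.mono.monotone hy))
    · rw [g'O x (Or.inr (Or.inr hx))]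
      subst hx
      rcases pos y with hy | hy | hy | hy | hy
      · exact absurd (hw2.trans hxy) (not_lt.2 hy)
      · exact absurd hy.2 hxy.not_gt
      · exact absurd hy hxy.ne'
      · rw [g'R y hy.1 hy.2]; exact (hR2 y hy.1 hy.2).1
      · rw [g'O y (Or.inr (Or.inl hy))]; exact S.mono hxy
    · rw [g'R x hx.1 hx.2]
      rcases pos y with hy | hy | hy | hy | hy
      · exact absurd ((hw2.trans hx.1).trans hxy) (not_lt.2 hy)
      · exact absurd (hx.1.trans hxy) hy.2.not_gt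
      · exact absurd (hx.1.trans hxy) (by rw [hy]; exact lt_irrefl _)
      · rw [g'R y hy.1 hy.2]; exact hR1 x y hx.1 hxy hy.2
      · rw [g'O y (Or.inr (Or.inl hy))]
        exact (hR2 x hx.1 hx.2).2.trans_le (S.mono.monotone hy)
    · rw [g'O x (Or.inr (Or.inl hx))]
      have hy : w' ≤ y := hx.trans hxy.le
      rw [g'O y (Or.inr (Or.inl hy))]
      exact S.mono hxy
  have hmem : ∀ x, A < g' x ∧ g' x < B := by
    intro x
    rcases pos x with hx | hx | hx | hx | hx
    · rw [g'O x (Or.inl hx)]; exact S.mem x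
    · rw [g'L x hx.1 hx.2]
      exact ⟨(S.mem w).1.trans (hL2 x hx.1 hx.2).1, (hL2 x hx.1 hx.2).2.trans (S.mem d).2⟩
    · rw [g'O x (Or.inr (Or.inr hx))]; exact S.mem x
    · rw [g'R x hx.1 hx.2]
      exact ⟨(S.mem d).1.trans (hR2 x hx.1 hx.2).1, (hR2 x hx.1 hx.2).2.trans (S.mem w').2⟩
    · rw [g'O x (Or.inr (Or.inl hx))]; exact S.mem x
  have hcont : ∀ x, x ∉ D → ContAt g' x := by
    intro x hxD
    have hxw : x ≠ w := fun h => hxD (h ▸ hQD hwQ)
    have hxw' : x ≠ w' := fun h => hxD (h ▸ hQD hw'Q)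
    rcases pos x with hx | hx | hx | hx | hx
    · have hxlt : x < w := lt_of_le_of_ne hx hxw
      unfold ContAt
      rw [g'O x (Or.inl hx)]
      have hc := S.cont x hxD
      refine ⟨fun y hy => ?_, fun y hy => ?_⟩
      · obtain ⟨x', h1, h2⟩ := hc.1 y hy
        exact ⟨x', h1, by rw [g'O x' (Or.inl (h1.le.trans hx))]; exact h2⟩
      · obtain ⟨x', h1, h2⟩ := hc.2 y hy
        rcases le_total x' w with h3 | h3
        · exact ⟨x', h1, by rw [g'O x' (Or.inl h3)]; exact h2⟩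
        · exact ⟨w, hxlt, by
            rw [g'O w (Or.inl le_rfl)]; exact (S.mono.monotone h3).trans_lt h2⟩
    · unfold ContAt
      rw [g'L x hx.1 hx.2]
      have hc := hL4 x hx.1 hx.2 hxD
      refine ⟨fun y hy => ?_, fun y hy => ?_⟩
      · obtain ⟨x', h1, h2, h3⟩ := hc.1 y hy
        exact ⟨x', h2, by rw [g'L x' h1 (h2.trans hx.2)]; exact h3⟩
      · obtain ⟨x', h1, h2, h3⟩ := hc.2 y hy
        exact ⟨x', h1, by rw [g'L x' (hx.1.trans h1) h2]; exact h3⟩
    · unfold ContAt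
      rw [g'O x (Or.inr (Or.inr hx)), hx]
      refine ⟨fun y hy => ?_, fun y hy => ?_⟩
      · obtain ⟨x', h1, h2, h3⟩ := hL3 y hy
        exact ⟨x', h2, by rw [g'L x' h1 h2]; exact h3⟩
      · obtain ⟨x', h1, h2, h3⟩ := hR3 y hy
        exact ⟨x', h1, by rw [g'R x' h1 h2]; exact h3⟩
    · unfold ContAt
      rw [g'R x hx.1 hx.2]
      have hc := hR4 x hx.1 hx.2 hxD
      refine ⟨fun y hy => ?_, fun y hy => ?_⟩
      · obtain ⟨x', h1, h2, h3⟩ := hc.2 y hy
        exact ⟨x', h2, by rw [g'R x' h1 (h2.trans hx.2)]; exact h3⟩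
      · obtain ⟨x', h1, h2, h3⟩ := hc.1 y hy
        exact ⟨x', h1, by rw [g'R x' (hx.1.trans h1) h2]; exact h3⟩
    · have hxlt : w' < x := lt_of_le_of_ne hx hxw'.symm
      unfold ContAt
      rw [g'O x (Or.inr (Or.inl hx))]
      have hc := S.cont x hxD
      refine ⟨fun y hy => ?_, fun y hy => ?_⟩
      · obtain ⟨x', h1, h2⟩ := hc.1 y hy
        rcases le_total w' x' with h3 | h3
        · exact ⟨x', h1, by rw [g'O x' (Or.inr (Or.inl h3))]; exact h2⟩
        · exact ⟨w', hxlt, by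
            rw [g'O w' (Or.inr (Or.inl le_rfl))]; exact h2.trans_le (S.mono.monotone h3)⟩
      · obtain ⟨x', h1, h2⟩ := hc.2 y hy
        exact ⟨x', h1, by rw [g'O x' (Or.inr (Or.inl (hx.trans h1.le)))]; exact h2⟩
  refine ⟨⟨g', insert d (insert w (insert w' S.P)), hmono, hmem, hcont⟩, w, w',
    ⟨hw1.1, hw2, hw'2, hw'1.1⟩, ?_, g'O, ?_, ?_⟩
  · rintro z hz hzd ⟨h1, h2⟩
    rcases lt_or_gt_of_ne hzd with h | h
    · exact absurd (hw1.2 z hz h) (not_lt.2 h1)
    · exact absurd (hw'1.2 z hz h) (not_lt.2 h2)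
  · refine ⟨fun z hz => ?_, ?_, ?_, ?_⟩
    · simp [hz]
    · simp
    · simp
    · simp
  · change ContAt g' d
    unfold ContAt
    rw [g'O d (Or.inr (Or.inr rfl))]
    refine ⟨fun y hy => ?_, fun y hy => ?_⟩
    · obtain ⟨x', h1, h2, h3⟩ := hL3 y hy
      exact ⟨x', h2, by rw [g'L x' h1 h2]; exact h3⟩
    · obtain ⟨x', h1, h2, h3⟩ := hR3 y hy
      exact ⟨x', h1, by rw [g'R x' h1 h2]; exact h3⟩

/-- **Repair lemma.** -/
theorem repair_aux {X L : Type} [LinearOrder X] [LinearOrder L] {Q D : Set X} (hQ : Q.Countable)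
    (hQD : Q ⊆ D) (hQd : ∀ x y, x < y → ∃ q ∈ Q, x < q ∧ q < y)
    {A B : L} {R : Set L} (hR : R.Countable)
    (hRd : ∀ a b, A ≤ a → a < b → b ≤ B → ∃ q ∈ R, a < q ∧ q < b)
    (hfam : FamHyp (X := X) D R A B) (hP : PropP X) (S₀ : Stage (X := X) D A B)
    (d : ℕ → X) (hd : Function.Injective d) (hdD : Set.range d = D) : LOTSEmbeds X L := by
  classical
  obtain ⟨u, v, huv, hfin⟩ := hP d hd
  have hnext := fun (S : Stage (X := X) D A B) (k : ℕ) =>
    exists_next hQ hQD hQd hR hRd hfam S (d k) (u k) (v k) (huv k).1 (huv k).2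
  choose nxt w w' h1 h2 h3 h4 h5 using hnext
  let S : ℕ → Stage (X := X) D A B := fun n => Nat.rec S₀ (fun k S => nxt S k) n
  have hS : ∀ k, S (k + 1) = nxt (S k) k := fun k => rfl
  let a : ℕ → X := fun k => w (S k) k
  let b : ℕ → X := fun k => w' (S k) k
  have hab : ∀ k, u k < a k ∧ a k < d k ∧ d k < b k ∧ b k < v k := fun k => h1 (S k) k
  have hout : ∀ k x, (x ≤ a k ∨ b k ≤ x ∨ x = d k) → (S (k + 1)).g x = (S k).g x := fun k x hx => by
    rw [hS]; exact h3 (S k) k x hx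
  have hPsub : ∀ k, (S k).P ⊆ (S (k + 1)).P := fun k => by rw [hS]; exact (h4 (S k) k).1
  have hPd : ∀ k, d k ∈ (S (k + 1)).P := fun k => by rw [hS]; exact (h4 (S k) k).2.1
  have hPa : ∀ k, a k ∈ (S (k + 1)).P := fun k => by rw [hS]; exact (h4 (S k) k).2.2.1
  have hPb : ∀ k, b k ∈ (S (k + 1)).P := fun k => by rw [hS]; exact (h4 (S k) k).2.2.2
  have hPavoid : ∀ k, ∀ z ∈ (S k).P, z ≠ d k → ¬ (a k ≤ z ∧ z ≤ b k) := fun k => h2 (S k) k
  have hcd : ∀ k, ContAt (S (k + 1)).g (d k) := fun k => by rw [hS]; exact h5 (S k) k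
  have hPmono : ∀ k m, k ≤ m → (S k).P ⊆ (S m).P := by
    intro k m hkm
    induction m, hkm using Nat.le_induction with
    | base => exact Finset.Subset.refl _
    | succ m _ ih => exact ih.trans (hPsub m)
  have hprot : ∀ k, ∀ z ∈ (S k).P, (S (k + 1)).g z = (S k).g z := by
    intro k z hz
    by_cases hzd : z = d k
    · exact hout k z (Or.inr (Or.inr hzd))
    · have := hPavoid k z hz hzd
      rcases le_or_gt z (a k) with h | h
      · exact hout k z (Or.inl h)
      · rcases le_or_gt (b k) z with h' | h'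
        · exact hout k z (Or.inr (Or.inl h'))
        · exact absurd ⟨h.le, h'.le⟩ this
  have hprot' : ∀ k m, k ≤ m → ∀ z ∈ (S k).P, (S m).g z = (S k).g z := by
    intro k m hkm z hz
    induction m, hkm using Nat.le_induction with
    | base => rfl
    | succ m hm ih => rw [hprot m z (hPmono k m hm hz), ih]
  -- stabilisation
  have hK : ∀ x, ∃ K, ∀ k, K ≤ k → ¬ (a k ≤ x ∧ x ≤ b k) := by
    intro x
    obtain ⟨K, hK⟩ := (hfin x).bddAbove
    refine ⟨K + 1, fun k hk hcon => ?_⟩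
    have : k ≤ K := hK ⟨(hab k).1.trans_le hcon.1, hcon.2.trans_lt (hab k).2.2.2⟩
    omega
  choose K hK using hK
  have hstab : ∀ x N, (∀ k, N ≤ k → ¬ (a k ≤ x ∧ x ≤ b k)) → ∀ k, N ≤ k →
      (S k).g x = (S N).g x := by
    intro x N hN k hk
    induction k, hk using Nat.le_induction with
    | base => rfl
    | succ k hk ih =>
      rw [← ih]
      have := hN k hk
      rcases le_or_gt x (a k) with h | h
      · exact hout k x (Or.inl h)
      · rcases le_or_gt (b k) x with h' | h'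
        · exact hout k x (Or.inr (Or.inl h'))
        · exact absurd ⟨h.le, h'.le⟩ this
  let g : X → L := fun x => (S (K x)).g x
  have hg : ∀ x N, (∀ k, N ≤ k → ¬ (a k ≤ x ∧ x ≤ b k)) → ∀ k, N ≤ k → (S k).g x = g x := by
    intro x N hN k hk
    have e1 := hstab x N hN (max N (K x)) (le_max_left _ _)
    have e2 := hstab x (K x) (hK x) (max N (K x)) (le_max_right _ _)
    have e3 := hstab x N hN k hk
    rw [e3, ← e1, e2]
  have hgK : ∀ x k, K x ≤ k → (S k).g x = g x := fun x k hk => hg x (K x) (hK x) k hk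
  have hgP : ∀ k, ∀ z ∈ (S k).P, g z = (S k).g z := by
    intro k z hz
    rw [← hprot' k (max k (K z)) (le_max_left _ _) z hz]
    exact (hgK z _ (le_max_right _ _)).symm
  have gmono : StrictMono g := by
    intro x y hxy
    rw [← hgK x (max (K x) (K y)) (le_max_left _ _), ← hgK y (max (K x) (K y)) (le_max_right _ _)]
    exact (S _).mono hxy
  -- a good stage for every point
  have hgood : ∀ x, ∃ N, (∀ k, N ≤ k → ¬ (a k ≤ x ∧ x ≤ b k)) ∧ ContAt (S N).g x := by
    intro x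
    by_cases hx : x ∈ D
    · rw [← hdD] at hx
      obtain ⟨m, rfl⟩ := hx
      refine ⟨m + 1, fun k hk => ?_, hcd m⟩
      refine hPavoid k (d m) (hPmono (m + 1) k hk (hPd m)) (fun h => ?_)
      have := hd h
      omega
    · exact ⟨K x, hK x, (S _).cont x hx⟩
  refine ⟨g, lotsEmbedding_of_approx gmono ?_ ?_⟩
  · intro x y hy
    obtain ⟨N, hN, hc⟩ := hgood x
    rw [← hg x N hN N le_rfl] at hy
    obtain ⟨x', hx', hy'⟩ := hc.1 y hy
    have key : ∀ k, N ≤ k → (∃ z, z < x ∧ z ∈ (S k).P ∧ y < (S k).g z) ∨ y < (S k).g x' := by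
      intro k hk
      induction k, hk using Nat.le_induction with
      | base => exact Or.inr hy'
      | succ k hk ih =>
        rcases ih with ⟨z, hz1, hz2, hz3⟩ | h
        · exact Or.inl ⟨z, hz1, hPsub k hz2, by rw [hprot k z hz2]; exact hz3⟩
        · rcases le_or_gt x' (a k) with h' | h'
          · right; rw [hout k x' (Or.inl h')]; exact h
          · rcases le_or_gt (b k) x' with h'' | h''
            · right; rw [hout k x' (Or.inr (Or.inl h''))]; exact h
            · left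
              refine ⟨b k, ?_, hPb k, ?_⟩
              · by_contra hcon
                exact hN k hk ⟨(h'.trans hx').le, not_lt.1 hcon⟩
              · rw [hout k (b k) (Or.inr (Or.inl le_rfl))]
                exact h.trans ((S k).mono h'')
    rcases key (max N (K x')) (le_max_left _ _) with ⟨z, hz1, hz2, hz3⟩ | h
    · exact ⟨z, hz1, by rw [hgP _ z hz2]; exact hz3⟩
    · exact ⟨x', hx', by rw [← hgK x' _ (le_max_right N (K x'))]; exact h⟩
  · intro x y hy
    obtain ⟨N, hN, hc⟩ := hgood x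
    rw [← hg x N hN N le_rfl] at hy
    obtain ⟨x', hx', hy'⟩ := hc.2 y hy
    have key : ∀ k, N ≤ k → (∃ z, x < z ∧ z ∈ (S k).P ∧ (S k).g z < y) ∨ (S k).g x' < y := by
      intro k hk
      induction k, hk using Nat.le_induction with
      | base => exact Or.inr hy'
      | succ k hk ih =>
        rcases ih with ⟨z, hz1, hz2, hz3⟩ | h
        · exact Or.inl ⟨z, hz1, hPsub k hz2, by rw [hprot k z hz2]; exact hz3⟩
        · rcases le_or_gt x' (a k) with h' | h'
          · right; rw [hout k x' (Or.inl h')]; exact h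
          · rcases le_or_gt (b k) x' with h'' | h''
            · right; rw [hout k x' (Or.inr (Or.inl h''))]; exact h
            · left
              refine ⟨a k, ?_, hPa k, ?_⟩
              · by_contra hcon
                exact hN k hk ⟨not_lt.1 hcon, (hx'.trans h'').le⟩
              · rw [hout k (a k) (Or.inl le_rfl)]
                exact ((S k).mono h').trans h
    rcases key (max N (K x')) (le_max_left _ _) with ⟨z, hz1, hz2, hz3⟩ | h
    · exact ⟨z, hz1, by rw [hgP _ z hz2]; exact hz3⟩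
    · exact ⟨x', hx', by rw [← hgK x' _ (le_max_right N (K x'))]; exact h⟩

end Pool.Agent.Helper69_LOTS
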