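import Mathlib
import Pool.Agent.Helper69_LOTS.Defs
import Pool.Agent.Helper69_LOTS.Types
import Pool.Agent.Helper69_LOTS.Repair

/-!
A set of cardinality `ℵ₁` in the lexicographic order on `ω^ω` all of whose uncountable subsets
contain members of the class `C` with the covering property `PropP`.
-/

open Cardinal

namespace Pool.Agent.Helper69_LOTS

/-- The Baire space with the lexicographic order. -/
abbrev LN : Type := Lex (ℕ → ℕ)

theorem LN.lt_iff {x y : LN} : x < y ↔ ∃ i, (∀ j, j < i → ofLex x j = ofLex y j) ∧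
    ofLex x i < ofLex y i := Iff.rfl

theorem LN.realType : RealType LN := by
  refine RealType.of_dense (D := Set.range (fun a : ℕ →₀ ℕ => (toLex (⇑a) : LN)))
    (Set.countable_range _) ?_
  intro x y hxy
  obtain ⟨i, hij, hi⟩ := LN.lt_iff.1 hxy
  let z : ℕ → ℕ := fun n => if n ≤ i then ofLex y n else 0
  have hz : ∃ a : ℕ →₀ ℕ, ⇑a = z := by
    refine ⟨Finsupp.onFinset (Finset.range (i + 1)) z (fun n hn => ?_), rfl⟩
    by_contra hcon
    apply hn
    simp only [z]
    rw [if_neg]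
    intro h
    apply hcon
    rw [Finset.mem_range]
    omega
  obtain ⟨a, ha⟩ := hz
  refine ⟨toLex z, ⟨a, by simp only [ha]⟩, ?_, ?_⟩
  · refine le_of_lt (LN.lt_iff.2 ⟨i, fun j hj => ?_, ?_⟩)
    · simp only [ofLex_toLex, z, hj.le, if_true, hij j hj]
    · simp only [ofLex_toLex, z, le_refl, if_true, hi]
  · by_cases h : ∃ n, 0 < ofLex y n ∧ i < n
    · obtain ⟨n, ⟨hn1, hn2⟩, hn3⟩ : ∃ n, (0 < ofLex y n ∧ i < n) ∧
          ∀ m, m < n → ¬ (0 < ofLex y m ∧ i < m) :=
        ⟨Nat.find h, Nat.find_spec h, fun m hm => Nat.find_min h hm⟩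
      refine le_of_lt (LN.lt_iff.2 ⟨n, fun j hj => ?_, ?_⟩)
      · simp only [ofLex_toLex, z]
        split_ifs with h'
        · rfl
        · have := hn3 j hj
          push Not at this h'
          by_contra hcon
          have h3 := this (by omega)
          omega
      · simp only [ofLex_toLex, z, not_le.2 hn2, if_false]
        exact hn1
    · push Not at h
      apply le_of_eq
      funext n
      change (if n ≤ i then ofLex y n else 0) = ofLex y n
      split_ifs with h'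
      · rfl
      · by_contra hcon
        have := h n (by omega)
        omega

/-- Agreement below `m`. -/
def Agr (m : ℕ) (x y : LN) : Prop := ∀ i, i < m → ofLex x i = ofLex y i

theorem Agr.convex {m : ℕ} {d u v x : LN} (hu : Agr m d u) (hv : Agr m d v) (h1 : u < x)
    (h2 : x < v) : Agr m d x := by
  obtain ⟨i, hij, hi⟩ := LN.lt_iff.1 h1
  have hmi : m ≤ i := by
    by_contra hcon
    push Not at hcon
    have h3 : v < x := by
      refine LN.lt_iff.2 ⟨i, fun j hj => ?_, ?_⟩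
      · rw [← hv j (hj.trans hcon), hu j (hj.trans hcon), hij j hj]
      · rw [← hv i hcon, hu i hcon]; exact hi
    exact absurd h2 h3.not_gt
  intro j hj
  rw [hu j hj, hij j (by omega)]

theorem countable_left {T : Type} [LinearOrder T] (h : RealType T) (Z : Set T) :
    {x | x ∈ Z ∧ (Z ∩ Set.Iio x).Countable}.Countable := by
  classical
  obtain ⟨φ⟩ := h
  let I : Set T := {x | x ∈ Z ∧ (Z ∩ Set.Iio x).Countable}
  have h1 : ({x | x ∈ I ∧ ∀ y ∈ I, ¬ x < y}).Countable := by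
    refine Set.Subsingleton.countable ?_
    intro x hx y hy
    rcases lt_trichotomy x y with h | h | h
    · exact absurd h (hx.2 y hy.1)
    · exact h
    · exact absurd h (hy.2 x hx.1)
  have h2 : (⋃ q ∈ {q : ℚ | ({z | z ∈ Z ∧ φ z < q}).Countable},
      {z | z ∈ Z ∧ φ z < q}).Countable :=
    (Set.to_countable _).biUnion (fun q hq => hq)
  refine (h1.union h2).mono (fun x hx => ?_)
  by_cases hm : ∀ y ∈ I, ¬ x < y
  · exact Or.inl ⟨hx, hm⟩
  · right
    push Not at hm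
    obtain ⟨y, hy, hxy⟩ := hm
    obtain ⟨q, hq1, hq2⟩ := exists_rat_btwn (φ.lt_iff_lt.2 hxy)
    simp only [Set.mem_iUnion]
    refine ⟨q, ?_, hx.1, hq1⟩
    refine hy.2.mono ?_
    rintro z ⟨hz1, hz2⟩
    exact ⟨hz1, φ.lt_iff_lt.1 (hz2.trans hq2)⟩

theorem countable_right {T : Type} [LinearOrder T] (h : RealType T) (Z : Set T) :
    {x | x ∈ Z ∧ (Z ∩ Set.Ioi x).Countable}.Countable := by
  classical
  obtain ⟨φ⟩ := h
  let I : Set T := {x | x ∈ Z ∧ (Z ∩ Set.Ioi x).Countable}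
  have h1 : ({x | x ∈ I ∧ ∀ y ∈ I, ¬ y < x}).Countable := by
    refine Set.Subsingleton.countable ?_
    intro x hx y hy
    rcases lt_trichotomy x y with h | h | h
    · exact absurd h (hy.2 x hx.1)
    · exact h
    · exact absurd h (hx.2 y hy.1)
  have h2 : (⋃ q ∈ {q : ℚ | ({z | z ∈ Z ∧ (q : ℝ) < φ z}).Countable},
      {z | z ∈ Z ∧ (q : ℝ) < φ z}).Countable :=
    (Set.to_countable _).biUnion (fun q hq => hq)
  refine (h1.union h2).mono (fun x hx => ?_)
  by_cases hm : ∀ y ∈ I, ¬ y < x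
  · exact Or.inl ⟨hx, hm⟩
  · right
    push Not at hm
    obtain ⟨y, hy, hxy⟩ := hm
    obtain ⟨q, hq1, hq2⟩ := exists_rat_btwn (φ.lt_iff_lt.2 hxy)
    simp only [Set.mem_iUnion]
    refine ⟨q, ?_, hx.1, hq2⟩
    refine hy.2.mono ?_
    rintro z ⟨hz1, hz2⟩
    exact ⟨hz1, φ.lt_iff_lt.1 (hq1.trans hz2)⟩

/-- The condensation points of `X₀`. -/
def core (X₀ : Set LN) : Set LN :=
  {x | x ∈ X₀ ∧ ∀ m, ¬ ({y | y ∈ X₀ ∧ Agr m x y} ∩ Set.Iio x).Countable ∧
    ¬ ({y | y ∈ X₀ ∧ Agr m x y} ∩ Set.Ioi x).Countable}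

theorem core_subset (X₀ : Set LN) : core X₀ ⊆ X₀ := fun _ hx => hx.1

theorem diff_core_countable (X₀ : Set LN) : (X₀ \ core X₀).Countable := by
  classical
  let Z : (Σ m : ℕ, (Fin m → ℕ)) → Set LN := fun s =>
    {y | y ∈ X₀ ∧ ∀ i : Fin s.1, ofLex y i = s.2 i}
  have h1 : (⋃ s, ({x | x ∈ Z s ∧ (Z s ∩ Set.Iio x).Countable} ∪
      {x | x ∈ Z s ∧ (Z s ∩ Set.Ioi x).Countable})).Countable :=
    Set.countable_iUnion (fun s =>
      (countable_left LN.realType _).union (countable_right LN.realType _))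
  refine h1.mono ?_
  rintro x ⟨hx, hx'⟩
  have h2 : ∃ m, ({y | y ∈ X₀ ∧ Agr m x y} ∩ Set.Iio x).Countable ∨
      ({y | y ∈ X₀ ∧ Agr m x y} ∩ Set.Ioi x).Countable := by
    by_contra hcon
    push Not at hcon
    exact hx' ⟨hx, hcon⟩
  obtain ⟨m, hm⟩ := h2
  have h3 : Z ⟨m, fun i => ofLex x i⟩ = {y | y ∈ X₀ ∧ Agr m x y} := by
    ext y
    constructor
    · rintro ⟨h4, h5⟩
      exact ⟨h4, fun i hi => (h5 ⟨i, hi⟩).symm⟩
    · rintro ⟨h4, h5⟩
      exact ⟨h4, fun i => (h5 i.1 i.2).symm⟩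
  rw [Set.mem_iUnion]
  refine ⟨⟨m, fun i => ofLex x i⟩, ?_⟩
  rw [h3]
  have h4 : x ∈ {y | y ∈ X₀ ∧ Agr m x y} := ⟨hx, fun i _ => rfl⟩
  rcases hm with h | h
  · exact Or.inl ⟨h4, h⟩
  · exact Or.inr ⟨h4, h⟩

theorem core_left {X₀ : Set LN} {x : LN} (hx : x ∈ core X₀) (m : ℕ) :
    ¬ {y | y ∈ core X₀ ∧ Agr m x y ∧ y < x}.Countable := by
  intro h
  apply (hx.2 m).1
  refine (h.union (diff_core_countable X₀)).mono ?_
  rintro y ⟨⟨h1, h2⟩, h3⟩
  by_cases h4 : y ∈ core X₀
  · exact Or.inl ⟨h4, h2, h3⟩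
  · exact Or.inr ⟨h1, h4⟩

theorem core_right {X₀ : Set LN} {x : LN} (hx : x ∈ core X₀) (m : ℕ) :
    ¬ {y | y ∈ core X₀ ∧ Agr m x y ∧ x < y}.Countable := by
  intro h
  apply (hx.2 m).2
  refine (h.union (diff_core_countable X₀)).mono ?_
  rintro y ⟨⟨h1, h2⟩, h3⟩
  by_cases h4 : y ∈ core X₀
  · exact Or.inl ⟨h4, h2, h3⟩
  · exact Or.inr ⟨h1, h4⟩

theorem nonempty_of_not_countable {α : Type} {s : Set α} (h : ¬ s.Countable) : s.Nonempty := by
  by_contra hcon
  rw [Set.not_nonempty_iff_eq_empty] at hcon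
  exact h (hcon ▸ Set.countable_empty)

theorem core_Ioo {X₀ : Set LN} {x y : LN} (hx : x ∈ core X₀) (hxy : x < y) :
    ¬ {z | z ∈ core X₀ ∧ x < z ∧ z < y}.Countable := by
  obtain ⟨i, hij, hi⟩ := LN.lt_iff.1 hxy
  intro h
  apply core_right hx (i + 1)
  refine h.mono ?_
  rintro z ⟨h1, h2, h3⟩
  refine ⟨h1, h3, LN.lt_iff.2 ⟨i, fun j hj => ?_, ?_⟩⟩
  · rw [← h2 j (by omega), hij j hj]
  · rw [← h2 i (by omega)]; exact hi

theorem core_memC {X₀ : Set LN} (hcard : #X₀ ≤ ℵ₁) (hX₀ : ¬ X₀.Countable) :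
    MemC (core X₀) := by
  have hcore : ¬ (core X₀).Countable := by
    intro h
    apply hX₀
    refine (h.union (diff_core_countable X₀)).mono (fun x hx => ?_)
    by_cases h' : x ∈ core X₀
    · exact Or.inl h'
    · exact Or.inr ⟨hx, h'⟩
  obtain ⟨x₀, hx₀⟩ := nonempty_of_not_countable hcore
  refine ⟨?_, ?_, ?_, ?_⟩
  · obtain ⟨y, hy1, -, hy2⟩ := nonempty_of_not_countable (core_right hx₀ 0)
    refine ⟨⟨x₀, hx₀⟩, ⟨y, hy1⟩, fun h => ?_⟩
    exact hy2.ne (congrArg Subtype.val h)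
  · intro a b hab
    apply le_antisymm
    · calc #(Set.Ioo a b) ≤ #(core X₀) := Cardinal.mk_subtype_le _
        _ ≤ #X₀ := Cardinal.mk_le_mk_of_subset (core_subset X₀)
        _ ≤ ℵ₁ := hcard
    · have h1 := core_Ioo a.2 (show a.1 < b.1 from hab)
      have h2 : ¬ (Set.Ioo a b).Countable := by
        intro h
        apply h1
        refine (h.image Subtype.val).mono ?_
        rintro z ⟨hz1, hz2, hz3⟩
        exact ⟨⟨z, hz1⟩, ⟨hz2, hz3⟩, rfl⟩
      rw [← Cardinal.le_aleph0_iff_set_countable] at h2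
      by_contra hcon
      exact h2 (Cardinal.lt_aleph_one_iff.1 (not_le.1 hcon))
  · rintro x -
    have h1 : ∀ m : ℕ, ∃ y : core X₀, Agr m x.1 y.1 ∧ y < x := by
      intro m
      obtain ⟨y, hy1, hy2, hy3⟩ := nonempty_of_not_countable (core_left x.2 m)
      exact ⟨⟨y, hy1⟩, hy2, hy3⟩
    choose y hy1 hy2 using h1
    refine ⟨Set.range y, Set.countable_range y, ?_, ?_, ?_⟩
    · rintro _ ⟨m, rfl⟩; exact hy2 m
    · rintro _ ⟨m, rfl⟩; exact (hy2 m).le
    · intro z hz
      by_contra hcon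
      obtain ⟨i, hij, hi⟩ := LN.lt_iff.1 (not_le.1 hcon)
      have h2 : z < y (i + 1) := by
        refine LN.lt_iff.2 ⟨i, fun j hj => ?_, ?_⟩
        · rw [← hy1 (i + 1) j (by omega)]; exact hij j hj
        · rw [← hy1 (i + 1) i (by omega)]; exact hi
      exact absurd (hz ⟨i + 1, rfl⟩) (not_le.2 h2)
  · rintro x -
    have h1 : ∀ m : ℕ, ∃ y : core X₀, Agr m x.1 y.1 ∧ x < y := by
      intro m
      obtain ⟨y, hy1, hy2, hy3⟩ := nonempty_of_not_countable (core_right x.2 m)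
      exact ⟨⟨y, hy1⟩, hy2, hy3⟩
    choose y hy1 hy2 using h1
    refine ⟨Set.range y, Set.countable_range y, ?_, ?_, ?_⟩
    · rintro _ ⟨m, rfl⟩; exact hy2 m
    · rintro _ ⟨m, rfl⟩; exact (hy2 m).le
    · intro z hz
      by_contra hcon
      obtain ⟨i, hij, hi⟩ := LN.lt_iff.1 (not_le.1 hcon)
      have h2 : y (i + 1) < z := by
        refine LN.lt_iff.2 ⟨i, fun j hj => ?_, ?_⟩
        · rw [← hy1 (i + 1) j (by omega)]; exact hij j hj
        · rw [← hy1 (i + 1) i (by omega)]; exact hi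
      exact absurd (hz ⟨i + 1, rfl⟩) (not_le.2 h2)

theorem core_propP {f : Om → LN}
    (hf : ∀ β α, β < α → ∃ N, ∀ n, N ≤ n → ofLex (f β) n < ofLex (f α) n)
    {X₀ : Set LN} (hX₀ : X₀ ⊆ Set.range f) : PropP (core X₀) := by
  classical
  intro d hd
  have h1 : ∀ k, ∃ α, f α = (d k).1 := fun k => hX₀ (core_subset X₀ (d k).2)
  choose α hα using h1
  obtain ⟨α₀, hα₀⟩ : ∃ α₀, ∀ k, α k < α₀ := by
    by_contra hcon
    push Not at hcon
    have h2 : (Set.univ : Set Om).Countable := by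
      refine (Set.countable_iUnion (fun k => Om_Iic_countable (α k))).mono (fun x _ => ?_)
      obtain ⟨k, hk⟩ := hcon x
      exact Set.mem_iUnion.2 ⟨k, hk⟩
    exact not_countable (Set.countable_univ_iff.1 h2)
  have h2 : ∀ k, ∃ n, k ≤ n ∧ ofLex (d k).1 n < ofLex (f α₀) n := by
    intro k
    obtain ⟨N, hN⟩ := hf (α k) α₀ (hα₀ k)
    refine ⟨max k N, le_max_left _ _, ?_⟩
    have := hN (max k N) (le_max_right _ _)
    rwa [hα k] at this
  choose n hn1 hn2 using h2
  -- exceptional points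
  let C : Set (core X₀) := {x | ∃ β, β ≤ α₀ ∧ f β = x.1}
  have hC : C.Countable := by
    have h3 : ((fun x : core X₀ => x.1) '' C).Countable := by
      refine ((Om_Iic_countable α₀).image f).mono ?_
      rintro _ ⟨x, ⟨β, hβ, hβ'⟩, rfl⟩
      exact ⟨β, hβ, hβ'⟩
    exact Set.countable_of_injective_of_countable_image
      (fun x _ y _ h => Subtype.ext h) h3
  have hCne : C.Nonempty := ⟨d 0, α 0, (hα₀ 0).le, hα 0⟩
  obtain ⟨c, hc⟩ := hC.exists_eq_range hCne
  have hleft : ∀ k, ∃ y : core X₀, Agr (n k + 1) (d k).1 y.1 ∧ y < d k := by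
    intro k
    obtain ⟨y, hy1, hy2, hy3⟩ := nonempty_of_not_countable (core_left (d k).2 (n k + 1))
    exact ⟨⟨y, hy1⟩, hy2, hy3⟩
  have hright : ∀ k, ∃ y : core X₀, Agr (n k + 1) (d k).1 y.1 ∧ d k < y := by
    intro k
    obtain ⟨y, hy1, hy2, hy3⟩ := nonempty_of_not_countable (core_right (d k).2 (n k + 1))
    exact ⟨⟨y, hy1⟩, hy2, hy3⟩
  choose p hp1 hp2 using hleft
  choose q hq1 hq2 using hright
  let FL : ℕ → Finset (core X₀) := fun k =>
    insert (p k) (((Finset.range (k + 1)).image c).filter (· < d k))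
  let FR : ℕ → Finset (core X₀) := fun k =>
    insert (q k) (((Finset.range (k + 1)).image c).filter (d k < ·))
  let u : ℕ → core X₀ := fun k => (FL k).max' (Finset.insert_nonempty _ _)
  let v : ℕ → core X₀ := fun k => (FR k).min' (Finset.insert_nonempty _ _)
  refine ⟨u, v, fun k => ⟨?_, ?_⟩, fun x => ?_⟩
  · rw [Finset.max'_lt_iff]
    intro y hy
    rw [Finset.mem_insert, Finset.mem_filter] at hy
    rcases hy with rfl | hy
    · exact hp2 k
    · exact hy.2
  · rw [Finset.lt_min'_iff]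
    intro y hy
    rw [Finset.mem_insert, Finset.mem_filter] at hy
    rcases hy with rfl | hy
    · exact hq2 k
    · exact hy.2
  · by_cases hx : x ∈ C
    · rw [hc] at hx
      obtain ⟨j, rfl⟩ := hx
      have h3 : {k | u k < c j ∧ c j < v k} ⊆ (Finset.range j : Set ℕ) ∪ {k | d k = c j} := by
        rintro k ⟨hk1, hk2⟩
        by_cases hkj : k < j
        · left; simpa using hkj
        · right
          have hmem : c j ∈ (Finset.range (k + 1)).image c :=
            Finset.mem_image.2 ⟨j, by rw [Finset.mem_range]; omega, rfl⟩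
          rcases lt_trichotomy (d k) (c j) with h | h | h
          · exfalso
            have : v k ≤ c j := Finset.min'_le _ _ (by
              rw [Finset.mem_insert, Finset.mem_filter]; exact Or.inr ⟨hmem, h⟩)
            exact absurd hk2 (not_lt.2 this)
          · exact h
          · exfalso
            have : c j ≤ u k := Finset.le_max' _ _ (by
              rw [Finset.mem_insert, Finset.mem_filter]; exact Or.inr ⟨hmem, h⟩)
            exact absurd hk1 (not_lt.2 this)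
      refine Set.Finite.subset ((Finset.finite_toSet _).union ?_) h3
      refine Set.Subsingleton.finite ?_
      intro k hk k' hk'
      exact hd (Eq.trans hk (Eq.symm hk'))
    · obtain ⟨β, hβ⟩ : ∃ β, f β = x.1 := hX₀ (core_subset X₀ x.2)
      have hβ' : α₀ < β := by
        by_contra hcon
        exact hx ⟨β, not_lt.1 hcon, hβ⟩
      obtain ⟨N, hN⟩ := hf α₀ β hβ'
      refine (Finset.finite_toSet (Finset.range N)).subset ?_
      rintro k ⟨hk1, hk2⟩
      rw [Finset.mem_coe, Finset.mem_range]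
      by_contra hcon
      have hpx : p k < x := (Finset.le_max' (FL k) (p k) (Finset.mem_insert_self _ _)).trans_lt hk1
      have hqx : x < q k := hk2.trans_le (Finset.min'_le (FR k) (q k) (Finset.mem_insert_self _ _))
      have h4 : Agr (n k + 1) (d k).1 x.1 := Agr.convex (hp1 k) (hq1 k) hpx hqx
      have h5 := h4 (n k) (Nat.lt_succ_self _)
      have h6 := hn2 k
      have h7 := hN (n k) (by have := hn1 k; omega)
      rw [hβ] at h7
      omega

theorem exists_increasing : ∃ f : Om → LN,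
    ∀ β α, β < α → ∃ N, ∀ n, N ≤ n → ofLex (f β) n < ofLex (f α) n := by
  classical
  obtain ⟨s, hs⟩ := exists_rec (β := LN)
    (R := fun D x => ∀ d ∈ D, ∃ N, ∀ n, N ≤ n → ofLex d n < ofLex x n) (fun D hD => by
      by_cases hne : D.Nonempty
      · obtain ⟨c, hc⟩ := hD.exists_eq_range hne
        refine ⟨toLex (fun n => 1 + ∑ k ∈ Finset.range (n + 1), ofLex (c k) n), ?_⟩
        rintro d hd
        rw [hc] at hd
        obtain ⟨k, rfl⟩ := hd
        refine ⟨k, fun n hn => ?_⟩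
        simp only [ofLex_toLex]
        have := Finset.single_le_sum (f := fun k => ofLex (c k) n) (s := Finset.range (n + 1))
          (fun i _ => Nat.zero_le _) (Finset.mem_range.2 (show k < n + 1 by omega))
        omega
      · exact ⟨toLex (fun _ => 0), fun d hd => absurd ⟨d, hd⟩ hne⟩)
  exact ⟨s, fun β α h => hs α (s β) ⟨β, h, rfl⟩⟩

/-- The main statement of this file. -/
theorem exists_lambda : ∃ W : Set LN, #W = ℵ₁ ∧ ∀ X₀ ⊆ W, ¬ X₀.Countable →
    ∃ X ⊆ X₀, MemC X ∧ PropP X ∧ NoMaxOrder X ∧ Nonempty X ∧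
      ∃ Q : Set X, Q.Countable ∧ ∀ x y, x < y → ∃ q ∈ Q, x < q ∧ q < y := by
  classical
  obtain ⟨f, hf⟩ := exists_increasing
  have hinj : Function.Injective f := by
    have h1 : ∀ β α, β < α → f β ≠ f α := by
      intro β α h heq
      obtain ⟨N, hN⟩ := hf β α h
      have := hN N le_rfl
      rw [heq] at this
      exact lt_irrefl _ this
    intro β α h
    by_contra hne
    rcases lt_or_gt_of_ne hne with h2 | h2
    · exact h1 _ _ h2 h
    · exact h1 _ _ h2 h.symm
  refine ⟨Set.range f, by rw [Cardinal.mk_range_eq _ hinj, mk_Om], fun X₀ hX₀ hunc => ?_⟩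
  have hcard : #X₀ ≤ ℵ₁ := by
    calc #X₀ ≤ #(Set.range f) := Cardinal.mk_le_mk_of_subset hX₀
      _ = ℵ₁ := by rw [Cardinal.mk_range_eq _ hinj, mk_Om]
  have hC := core_memC hcard hunc
  refine ⟨core X₀, core_subset X₀, hC, core_propP hf hX₀, ?_, ?_, ?_⟩
  · refine ⟨fun x => ?_⟩
    obtain ⟨y, hy1, -, hy2⟩ := nonempty_of_not_countable (core_right x.2 0)
    exact ⟨⟨y, hy1⟩, hy2⟩
  · obtain ⟨a, -, -⟩ := hC.nontrivial
    exact ⟨a⟩
  · have hrt : RealType (core X₀) := LN.realType.of_embedding (OrderEmbedding.subtype _)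
    obtain ⟨D, hD, hD'⟩ := hrt.exists_dense
    refine ⟨D, hD, fun x y hxy => ?_⟩
    have hden : ∀ x y : core X₀, x < y → ∃ z, x < z ∧ z < y := by
      intro x y hxy
      obtain ⟨z, hz1, hz2, hz3⟩ := nonempty_of_not_countable (core_Ioo x.2 (show x.1 < y.1 from hxy))
      exact ⟨⟨z, hz1⟩, hz2, hz3⟩
    obtain ⟨z, hz1, hz2⟩ := hden x y hxy
    obtain ⟨x', hx1, hx2⟩ := hden x z hz1
    obtain ⟨q, hq, hq1, hq2⟩ := hD' x' z hx2
    exact ⟨q, hq, hx1.trans_le hq1, hq2.trans_lt hz2⟩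

end Pool.Agent.Helper69_LOTS
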