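import Mathlib
import Pool.Agent.Helper69_LOTS.Repair

/-!
The repair lemma in its final form.
-/

open Cardinal

namespace Pool.Agent.Helper69_LOTS

theorem countable_discont {X L : Type} [LinearOrder X] [LinearOrder L] {A B : L} {R : Set L}
    (hR : R.Countable)
    (hRd : ∀ a b, A ≤ a → a < b → b ≤ B → ∃ q ∈ R, a < q ∧ q < b)
    {f : X → L} (hf : StrictMono f) (hAB : ∀ x, A < f x ∧ f x < B) :
    {x | ¬ ContAt f x}.Countable := by
  classical
  have hL : {x | ∃ y, y < f x ∧ ∀ x', x' < x → f x' ≤ y}.Countable := by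
    let E : Set X := {x | ∃ y, y < f x ∧ ∀ x', x' < x → f x' ≤ y}
    have h1 : ∀ x : E, ∃ q : R, q.1 < f x.1 ∧ ∀ x', x' < x.1 → f x' < q.1 := by
      rintro ⟨x, y, hy, hy'⟩
      obtain ⟨q, hq, hq1, hq2⟩ := hRd (max A y) (f x) (le_max_left _ _) (max_lt (hAB x).1 hy)
        (hAB x).2.le
      exact ⟨⟨q, hq⟩, hq2, fun x' hx' => ((hy' x' hx').trans (le_max_right _ _)).trans_lt hq1⟩
    choose q hq1 hq2 using h1
    have hinj : Function.Injective q := by
      intro x x' hxx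
      by_contra hne
      rcases lt_or_gt_of_ne (fun h => hne (Subtype.ext h)) with h | h
      · exact absurd (((hq1 x).trans (hq2 x' x.1 h))) (by rw [hxx]; exact lt_irrefl _)
      · exact absurd (((hq1 x').trans (hq2 x x'.1 h))) (by rw [hxx]; exact lt_irrefl _)
    have : Countable R := hR
    exact Set.countable_coe_iff.1 hinj.countable
  have hRt : {x | ∃ y, f x < y ∧ ∀ x', x < x' → y ≤ f x'}.Countable := by
    let E : Set X := {x | ∃ y, f x < y ∧ ∀ x', x < x' → y ≤ f x'}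
    have h1 : ∀ x : E, ∃ q : R, f x.1 < q.1 ∧ ∀ x', x.1 < x' → q.1 < f x' := by
      rintro ⟨x, y, hy, hy'⟩
      obtain ⟨q, hq, hq1, hq2⟩ := hRd (f x) (min B y) (hAB x).1.le (lt_min (hAB x).2 hy)
        (min_le_left _ _)
      exact ⟨⟨q, hq⟩, hq1, fun x' hx' => hq2.trans_le ((min_le_right _ _).trans (hy' x' hx'))⟩
    choose q hq1 hq2 using h1
    have hinj : Function.Injective q := by
      intro x x' hxx
      by_contra hne
      rcases lt_or_gt_of_ne (fun h => hne (Subtype.ext h)) with h | h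
      · exact absurd (((hq2 x x'.1 h).trans (hq1 x'))) (by rw [hxx]; exact lt_irrefl _)
      · exact absurd (((hq2 x' x.1 h).trans (hq1 x))) (by rw [hxx]; exact lt_irrefl _)
    have : Countable R := hR
    exact Set.countable_coe_iff.1 hinj.countable
  refine (hL.union hRt).mono (fun x hx => ?_)
  have hx' : ¬ ContAt f x := hx
  unfold ContAt at hx'
  rw [not_and_or] at hx'
  rcases hx' with h | h
  · left
    push Not at h
    exact h
  · right
    push Not at h
    exact h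

/-- **Repair lemma**, final form. -/
theorem repair {X L : Type} [LinearOrder X] [LinearOrder L] [NoMaxOrder X] [Nonempty X]
    {Q : Set X} (hQ : Q.Countable) (hQd : ∀ x y, x < y → ∃ q ∈ Q, x < q ∧ q < y)
    (hP : PropP X) {A B : L} (hAB : A < B) {R : Set L} (hR : R.Countable)
    (hRd : ∀ a b, A ≤ a → a < b → b ≤ B → ∃ q ∈ R, a < q ∧ q < b)
    (hemb : ∀ a b, A ≤ a → a < b → b ≤ B → ∃ f : X → L, StrictMono f ∧ ∀ x, a < f x ∧ f x < b) :
    LOTSEmbeds X L := by
  classical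
  have hemb' : ∀ ab : L × L, ∃ f : X → L, (A ≤ ab.1 ∧ ab.1 < ab.2 ∧ ab.2 ≤ B) →
      (StrictMono f ∧ ∀ x, ab.1 < f x ∧ f x < ab.2) := by
    intro ab
    by_cases h : A ≤ ab.1 ∧ ab.1 < ab.2 ∧ ab.2 ≤ B
    · obtain ⟨f, hf⟩ := hemb ab.1 ab.2 h.1 h.2.1 h.2.2
      exact ⟨f, fun _ => hf⟩
    · exact ⟨fun _ => A, fun h' => absurd h' h⟩
  choose F hF using hemb'
  let V : Set (L × L) := {ab | ab ∈ R ×ˢ R ∧ (A ≤ ab.1 ∧ ab.1 < ab.2 ∧ ab.2 ≤ B)}
  have hV : V.Countable := (hR.prod hR).mono (fun ab hab => hab.1)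
  let D : Set X := Q ∪ ⋃ ab ∈ V, {x | ¬ ContAt (F ab) x}
  have hD : D.Countable := by
    refine hQ.union (hV.biUnion (fun ab hab => ?_))
    obtain ⟨h1, h2⟩ := hF ab hab.2
    exact countable_discont hR hRd h1 (fun x =>
      ⟨hab.2.1.trans_lt (h2 x).1, (h2 x).2.trans_le hab.2.2.2⟩)
  have hfam : FamHyp (X := X) D R A B := by
    intro a ha b hb h1 h2 h3
    obtain ⟨h4, h5⟩ := hF (a, b) ⟨h1, h2, h3⟩
    refine ⟨F (a, b), h4, h5, fun x hx => ?_⟩
    by_contra hcon
    apply hx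
    right
    simp only [Set.mem_iUnion]
    exact ⟨(a, b), ⟨⟨ha, hb⟩, h1, h2, h3⟩, hcon⟩
  have hDinf : D.Infinite := by
    refine Set.infinite_of_forall_exists_gt (fun x => ?_)
    obtain ⟨y, hy⟩ := exists_gt x
    obtain ⟨q, hq, hq1, -⟩ := hQd x y hy
    exact ⟨q, Or.inl hq, hq1⟩
  have hDc : Countable D := hD
  have hDi : Infinite D := hDinf.to_subtype
  obtain ⟨hden⟩ := nonempty_denumerable D
  let d : ℕ → X := fun n => ((Denumerable.eqv D).symm n).1
  have hd : Function.Injective d := fun m n h =>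
    (Denumerable.eqv D).symm.injective (Subtype.ext h)
  have hdD : Set.range d = D := by
    ext x
    constructor
    · rintro ⟨n, rfl⟩
      exact ((Denumerable.eqv D).symm n).2
    · intro hx
      exact ⟨Denumerable.eqv D ⟨x, hx⟩, by simp [d]⟩
  obtain ⟨a, ha, ha1, ha2⟩ := hRd A B le_rfl hAB le_rfl
  obtain ⟨b, hb, hb1, hb2⟩ := hRd a B ha1.le ha2 le_rfl
  obtain ⟨f, hf1, hf2, hf3⟩ := hfam a ha b hb ha1.le hb1 hb2.le
  let S₀ : Stage (X := X) D A B := ⟨f, ∅, hf1, fun x =>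
    ⟨ha1.trans (hf2 x).1, (hf2 x).2.trans hb2⟩, hf3⟩
  exact repair_aux hQ Set.subset_union_left hQd hR hRd hfam hP S₀ d hd hdD

end Pool.Agent.Helper69_LOTS
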