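import Mathlib
import Pool.Agent.Helper69_LOTS.Defs
import Pool.Agent.Helper69_LOTS.Types
import Pool.Agent.Helper69_LOTS.Countryman
import Pool.Agent.Helper69_LOTS.Lambda
import Pool.Agent.Helper69_LOTS.Repair2

/-!
The structure of a five-element basis for the uncountable linear orders, and the transfer to the
class `C`.
-/

open Cardinal

namespace Pool.Agent.Helper69_LOTS

section incompat

variable {S T : Type} [LinearOrder S] [LinearOrder T]

/-- Reversing an embedding into a dual order. -/
def flip (e : S ↪o Tᵒᵈ) : Sᵒᵈ ↪o T where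
  toFun x := OrderDual.ofDual (e (OrderDual.ofDual x))
  inj' x y h := by
    have := e.injective (OrderDual.ofDual.injective h)
    exact OrderDual.ofDual.injective this
  map_rel_iff' {x y} := by
    have := e.le_iff_le (a := OrderDual.ofDual y) (b := OrderDual.ofDual x)
    exact this

theorem hasUncPairs_of_dual (h : HasUncPairs Sᵒᵈ) : HasUncPairs S := by
  have := h.dual
  exact this.of_embedding (OrderEmbedding.ofStrictMono
    (fun x : Sᵒᵈᵒᵈ => OrderDual.ofDual (OrderDual.ofDual x)) (fun x y hxy => hxy))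

theorem HasUncPairs.of_wo_dual [Uncountable S] (e : S ↪o Omᵒᵈ) : HasUncPairs S := by
  have : Uncountable Sᵒᵈ := ‹Uncountable S›
  exact hasUncPairs_of_dual (HasUncPairs.of_wo (flip e))

theorem Ctry.not_wo_dual [Uncountable S] (h : Ctry S) (e : S ↪o Omᵒᵈ) : False := by
  have : Uncountable Sᵒᵈ := ‹Uncountable S›
  exact Ctry.not_wo h.dual (flip e)

theorem not_wo_both [Uncountable S] (e : S ↪o Om) (e' : S ↪o Omᵒᵈ) : False := by
  have h1 : WellFoundedLT S := e.wellFoundedLT
  have h2 : WellFoundedLT Sᵒᵈ := (flip e').wellFoundedLT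
  have h3 : WellFoundedGT S := ⟨h2.wf⟩
  have := Finite.of_wellFoundedLT_wellFoundedGT S
  exact not_countable (α := S) inferInstance

theorem Ctry.not_both [Uncountable S] (h : Ctry T) (e : S ↪o T) (e' : S ↪o Tᵒᵈ) : False := by
  obtain ⟨c, hc⟩ := h
  obtain ⟨n, hn⟩ := exists_uncountable_fiber (fun s : S => c (e s, OrderDual.ofDual (e' s)))
  obtain ⟨x, y, hxy⟩ : ∃ x y : {s : S // c (e s, OrderDual.ofDual (e' s)) = n}, x < y := by
    have : Nontrivial {s : S // c (e s, OrderDual.ofDual (e' s)) = n} := by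
      by_contra hcon
      rw [not_nontrivial_iff_subsingleton] at hcon
      exact not_countable (α := {s : S // c (e s, OrderDual.ofDual (e' s)) = n}) inferInstance
    obtain ⟨x, y, hxy⟩ := exists_pair_ne {s : S // c (e s, OrderDual.ofDual (e' s)) = n}
    rcases lt_or_gt_of_ne hxy with h | h
    · exact ⟨x, y, h⟩
    · exact ⟨y, x, h⟩
  have hxy' : x.1 < y.1 := hxy
  have h1 := e.lt_iff_lt.2 hxy'
  have h2 : OrderDual.ofDual (e' y.1) < OrderDual.ofDual (e' x.1) := e'.lt_iff_lt.2 hxy'
  rcases hc _ _ (x.2.trans y.2.symm) with h3 | h3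
  · exact absurd h3.2 (not_le.2 h2)
  · exact absurd h3.1 (not_le.2 h1)

end incompat

theorem mk_eq_of_embedding {S : Type} {T : Type} [hS : Uncountable S] {f : S → T}
    (hf : Function.Injective f) (hT : #T = ℵ₁) : #S = ℵ₁ := by
  apply le_antisymm
  · rw [← hT]; exact Cardinal.mk_le_of_injective hf
  · by_contra hcon
    have := Cardinal.lt_aleph_one_iff.1 (not_le.1 hcon)
    exact hS.not_countable (Cardinal.mk_le_aleph0_iff.1 this)

/-- The structure of a five-element basis for the uncountable linear orders. -/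
theorem basis_structure {B : Fin 5 → Type} [∀ i, LinearOrder (B i)] (hB : IsBasisForUncountable B)
    {W : Set LN} (hW : #W = ℵ₁) :
    ∃ r : Fin 5, Nonempty (B r ↪o W) ∧ (∀ j, j ≠ r → HasUncPairs (B j)) ∧ ∀ j, #(B j) = ℵ₁ := by
  classical
  obtain ⟨CC, hCCo, hCC, hCtry⟩ := exists_countryman
  have unc_of : ∀ {T : Type}, #T = ℵ₁ → Uncountable T := fun {T} h => by
    rw [← Cardinal.aleph0_lt_mk_iff, h]; exact Cardinal.aleph0_lt_aleph_one
  have hCCu : Uncountable CC := unc_of hCC
  have hCCu' : Uncountable CCᵒᵈ := hCCu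
  have hOmu' : Uncountable Omᵒᵈ := (inferInstance : Uncountable Om)
  have hWu : Uncountable W := unc_of hW
  obtain ⟨hBu, hBB⟩ := hB
  obtain ⟨i1, ⟨e1⟩⟩ := hBB Om inferInstance
  obtain ⟨i2, ⟨e2⟩⟩ := hBB Omᵒᵈ hOmu'
  obtain ⟨i3, ⟨e3⟩⟩ := hBB W hWu
  obtain ⟨i4, ⟨e4⟩⟩ := hBB CC hCCu
  obtain ⟨i5, ⟨e5⟩⟩ := hBB CCᵒᵈ hCCu'
  have u1 := hBu i1
  have u2 := hBu i2
  have u3 := hBu i3
  have u4 := hBu i4
  have u5 := hBu i5
  have p1 : HasUncPairs (B i1) := HasUncPairs.of_wo e1
  have p2 : HasUncPairs (B i2) := HasUncPairs.of_wo_dual e2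
  have c4 : Ctry (B i4) := hCtry.of_embedding e4
  have c5 : Ctry (B i5) := hCtry.dual.of_embedding e5
  have p4 : HasUncPairs (B i4) := c4.hasUncPairs
  have p5 : HasUncPairs (B i5) := c5.hasUncPairs
  have r3 : RealType (B i3) :=
    (LN.realType.of_embedding (OrderEmbedding.subtype _ : W ↪o LN)).of_embedding e3
  have n12 : i1 ≠ i2 := by rintro rfl; exact not_wo_both e1 e2
  have n13 : i1 ≠ i3 := by rintro rfl; exact p1.not_realType r3
  have n14 : i1 ≠ i4 := by rintro rfl; exact c4.not_wo e1
  have n15 : i1 ≠ i5 := by rintro rfl; exact c5.not_wo e1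
  have n23 : i2 ≠ i3 := by rintro rfl; exact p2.not_realType r3
  have n24 : i2 ≠ i4 := by rintro rfl; exact c4.not_wo_dual e2
  have n25 : i2 ≠ i5 := by rintro rfl; exact c5.not_wo_dual e2
  have n34 : i3 ≠ i4 := by rintro rfl; exact p4.not_realType r3
  have n35 : i3 ≠ i5 := by rintro rfl; exact p5.not_realType r3
  have n45 : i4 ≠ i5 := by rintro rfl; exact hCtry.not_both e4 e5
  let g : Fin 5 → Fin 5 := ![i1, i2, i3, i4, i5]
  have hg : Function.Injective g := by
    intro a b hab
    fin_cases a <;> fin_cases b <;> simp [g] at hab ⊢ <;>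
      first
        | exact (n12 hab).elim | exact (n12 hab.symm).elim
        | exact (n13 hab).elim | exact (n13 hab.symm).elim
        | exact (n14 hab).elim | exact (n14 hab.symm).elim
        | exact (n15 hab).elim | exact (n15 hab.symm).elim
        | exact (n23 hab).elim | exact (n23 hab.symm).elim
        | exact (n24 hab).elim | exact (n24 hab.symm).elim
        | exact (n25 hab).elim | exact (n25 hab.symm).elim
        | exact (n34 hab).elim | exact (n34 hab.symm).elim
        | exact (n35 hab).elim | exact (n35 hab.symm).elim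
        | exact (n45 hab).elim | exact (n45 hab.symm).elim
  have hsurj : Function.Surjective g := Finite.injective_iff_surjective.1 hg
  have hall : ∀ j, j = i1 ∨ j = i2 ∨ j = i3 ∨ j = i4 ∨ j = i5 := by
    intro j
    obtain ⟨k, rfl⟩ := hsurj j
    fin_cases k <;> simp [g]
  refine ⟨i3, ⟨e3⟩, fun j hj => ?_, fun j => ?_⟩
  · rcases hall j with rfl | rfl | rfl | rfl | rfl
    · exact p1
    · exact p2
    · exact absurd rfl hj
    · exact p4
    · exact p5
  · rcases hall j with rfl | rfl | rfl | rfl | rfl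
    · exact mk_eq_of_embedding e1.injective mk_Om
    · exact mk_eq_of_embedding e2.injective mk_Om
    · exact mk_eq_of_embedding e3.injective hW
    · exact mk_eq_of_embedding e4.injective hCC
    · exact mk_eq_of_embedding e5.injective hCC

end Pool.Agent.Helper69_LOTS
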