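import Mathlib
import Pool.Agent.Helper69_LOTS.Basis

/-!
From a five-element basis for the uncountable linear orders to a six-element basis for `C`.
-/

open Cardinal

namespace Pool.Agent.Helper69_LOTS

section memC

variable {L : Type} [LinearOrder L]

theorem MemC.dense (h : MemC L) {a b : L} (hab : a < b) : ∃ c, a < c ∧ c < b := by
  have h1 := h.card_Ioo a b hab
  have h2 : #(Set.Ioo a b) ≠ 0 := by
    rw [h1]; exact (Cardinal.aleph0_pos.trans Cardinal.aleph0_lt_aleph_one).ne'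
  obtain ⟨c⟩ := Cardinal.mk_ne_zero_iff.1 h2
  exact ⟨c.1, c.2.1, c.2.2⟩

theorem MemC.uncountable_Ioo (h : MemC L) {a b : L} (hab : a < b) :
    Uncountable (Set.Ioo a b) := by
  rw [← Cardinal.aleph0_lt_mk_iff, h.card_Ioo a b hab]; exact Cardinal.aleph0_lt_aleph_one

theorem MemC.exists_seq_left (h : MemC L) {A p : L} (hAp : A < p) :
    ∃ s : ℕ → L, (∀ n, s n < p) ∧ ∀ y, y < p → ∃ n, y < s n := by
  have h1 : IsLUB (Set.Iio p) p := by
    refine ⟨fun y hy => le_of_lt hy, fun y hy => ?_⟩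
    by_contra hcon
    obtain ⟨c, hc1, hc2⟩ := h.dense (not_le.1 hcon)
    exact absurd (hy hc2) (not_le.2 hc1)
  obtain ⟨S, hS, hS1, hS2⟩ := h.cofinality p ⟨Set.Iio p, fun y hy => hy, h1⟩
  have hne : S.Nonempty := by
    by_contra hcon
    rw [Set.not_nonempty_iff_eq_empty] at hcon
    subst hcon
    exact absurd (hS2.2 (fun y hy => absurd hy (Set.notMem_empty y) : A ∈ upperBounds ∅))
      (not_le.2 hAp)
  obtain ⟨s, rfl⟩ := hS.exists_eq_range hne
  refine ⟨s, fun n => hS1 _ ⟨n, rfl⟩, fun y hy => ?_⟩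
  by_contra hcon
  push Not at hcon
  refine absurd (hS2.2 (?_ : y ∈ upperBounds (Set.range s))) (not_le.2 hy)
  rintro _ ⟨n, rfl⟩
  exact hcon n

theorem MemC.exists_seq_right (h : MemC L) {B p : L} (hpB : p < B) :
    ∃ s : ℕ → L, (∀ n, p < s n) ∧ ∀ y, p < y → ∃ n, s n < y := by
  have h1 : IsGLB (Set.Ioi p) p := by
    refine ⟨fun y hy => le_of_lt hy, fun y hy => ?_⟩
    by_contra hcon
    obtain ⟨c, hc1, hc2⟩ := h.dense (not_le.1 hcon)
    exact absurd (hy hc1) (not_le.2 hc2)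
  obtain ⟨S, hS, hS1, hS2⟩ := h.coinitiality p ⟨Set.Ioi p, fun y hy => hy, h1⟩
  have hne : S.Nonempty := by
    by_contra hcon
    rw [Set.not_nonempty_iff_eq_empty] at hcon
    subst hcon
    exact absurd (hS2.2 (fun y hy => absurd hy (Set.notMem_empty y) : B ∈ lowerBounds ∅))
      (not_le.2 hpB)
  obtain ⟨s, rfl⟩ := hS.exists_eq_range hne
  refine ⟨s, fun n => hS1 _ ⟨n, rfl⟩, fun y hy => ?_⟩
  by_contra hcon
  push Not at hcon
  refine absurd (hS2.2 (?_ : y ∈ lowerBounds (Set.range s))) (not_le.2 hy)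
  rintro _ ⟨n, rfl⟩
  exact hcon n

/-- There is an uncountable family of non-overlapping nondegenerate intervals inside `(a, b)`. -/
def UncFam (a b : L) : Prop :=
  ∃ (ι : Type) (_ : Uncountable ι) (l r : ι → L), (∀ i, a < l i ∧ l i < r i ∧ r i < b) ∧
    ∀ i j, i ≠ j → r i ≤ l j ∨ r j ≤ l i

/-- An uncountable family of intervals yields a family indexed by a basis element. -/
theorem exists_fam {n : ℕ} {B : Fin n → Type} [∀ i, LinearOrder (B i)]
    (hB : IsBasisForUncountable B) {a b : L} (h : UncFam a b) : ∃ j, Fam (B j) a b := by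
  classical
  obtain ⟨ι, hι, l, r, hlr, hd⟩ := h
  have hinj : Function.Injective l := by
    intro i j hij
    by_contra hne
    rcases hd i j hne with h | h
    · exact absurd (hlr i).2.1 (by rw [hij]; exact not_lt.2 h)
    · exact absurd (hlr j).2.1 (by rw [← hij]; exact not_lt.2 h)
  have hunc : Uncountable (Set.range l) := by
    rw [← not_countable_iff]
    intro hc
    have h1 : Function.Injective (fun i => (⟨l i, i, rfl⟩ : Set.range l)) := fun i j hij =>
      hinj (congrArg Subtype.val hij)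
    exact hι.not_countable h1.countable
  obtain ⟨j, ⟨e⟩⟩ := hB.2 (Set.range l) hunc
  have hi : ∀ t : B j, ∃ i, l i = (e t).1 := fun t => (e t).2
  choose i hi using hi
  refine ⟨j, fun t => l (i t), fun t => r (i t), fun t => hlr (i t), fun s t hst => ?_⟩
  have h1 : l (i s) < l (i t) := by
    rw [hi, hi]; exact e.lt_iff_lt.2 hst
  have hne : i s ≠ i t := fun h => h1.ne (by rw [h])
  rcases hd (i s) (i t) hne with h | h
  · exact h
  · exact absurd ((hlr (i t)).2.1.trans_le h) h1.not_gt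

/-- The pigeonhole principle for shrinking intervals. -/
theorem exists_hereditary {κ : Type} (s : Finset κ) (F : κ → L → L → Prop)
    (hmono : ∀ j a b a' b', a' ≤ a → b ≤ b' → F j a b → F j a' b') (A B : L) (hAB : A < B)
    (h : ∀ a b, A ≤ a → a < b → b ≤ B → ∃ j ∈ s, F j a b) :
    ∃ j ∈ s, ∃ A' B', A ≤ A' ∧ A' < B' ∧ B' ≤ B ∧
      ∀ a b, A' ≤ a → a < b → b ≤ B' → F j a b := by
  classical
  induction s using Finset.induction_on generalizing A B with
  | empty =>
    obtain ⟨j, hj, -⟩ := h A B le_rfl hAB le_rfl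
    exact absurd hj (Finset.notMem_empty j)
  | insert k s hk ih =>
    by_cases h1 : ∀ a b, A ≤ a → a < b → b ≤ B → F k a b
    · exact ⟨k, Finset.mem_insert_self _ _, A, B, le_rfl, hAB, le_rfl, h1⟩
    · push Not at h1
      obtain ⟨A1, B1, hA1, hAB1, hB1, hF⟩ := h1
      have h2 : ∀ a b, A1 ≤ a → a < b → b ≤ B1 → ∃ j ∈ s, F j a b := by
        intro a b ha hab hb
        obtain ⟨j, hj, hj'⟩ := h a b (hA1.trans ha) hab (hb.trans hB1)
        rcases Finset.mem_insert.1 hj with rfl | hj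
        · exact absurd (hmono j a b A1 B1 ha hb hj') hF
        · exact ⟨j, hj, hj'⟩
      obtain ⟨j, hj, A', B', h3, h4, h5, h6⟩ := ih A1 B1 hAB1 h2
      exact ⟨j, Finset.mem_insert_of_mem hj, A', B', hA1.trans h3, h4, h5.trans hB1, h6⟩

theorem Fam.mono {T : Type} [LinearOrder T] {a b a' b' : L} (ha : a' ≤ a) (hb : b ≤ b')
    (h : Fam T a b) : Fam T a' b' := by
  obtain ⟨l, r, hlr, hd⟩ := h
  exact ⟨l, r, fun t => ⟨ha.trans_lt (hlr t).1, (hlr t).2.1, (hlr t).2.2.trans_le hb⟩, hd⟩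

/-- The case in which no interval is ccc. -/
theorem case_nonccc {n : ℕ} {B : Fin n → Type} [∀ i, LinearOrder (B i)]
    (hB : IsBasisForUncountable B) (hL : MemC L) {A₀ B₀ : L} (hAB : A₀ < B₀)
    (h : ∀ a b, A₀ ≤ a → a < b → b ≤ B₀ → UncFam a b) :
    ∃ j, LOTSEmbeds (KOrd (B j)) L := by
  classical
  obtain ⟨j, -, A', B', h1, h2, h3, h4⟩ := exists_hereditary Finset.univ
    (fun j a b => Fam (B j) a b) (fun j a b a' b' ha hb hF => Fam.mono ha hb hF) A₀ B₀ hAB
    (fun a b ha hab hb => by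
      obtain ⟨j, hj⟩ := exists_fam hB (h a b ha hab hb)
      exact ⟨j, Finset.mem_univ _, hj⟩)
  refine ⟨j, ?_⟩
  have hne : Nonempty (B j) := by
    have := hB.1 j
    by_contra hcon
    rw [not_nonempty_iff] at hcon
    exact not_countable (α := B j) inferInstance
  exact KOrd.embeds h2 (fun a b _ hab _ => hL.dense hab)
    (fun p hp _ => hL.exists_seq_left hp) (fun p _ hp => hL.exists_seq_right hp) h4

/-- A ccc interval is separable. -/
theorem separable_of_ccc {B : Fin 5 → Type} [∀ i, LinearOrder (B i)]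
    (hB : IsBasisForUncountable B) {r : Fin 5} (hr : RealType (B r))
    (hp : ∀ j, j ≠ r → HasUncPairs (B j)) (hL : MemC L) {A₀ B₀ : L} (hAB : A₀ < B₀)
    (hccc : ¬ UncFam A₀ B₀) :
    ∃ R : Set L, R.Countable ∧ ∀ a b, A₀ ≤ a → a < b → b ≤ B₀ → ∃ q ∈ R, a < q ∧ q < b := by
  classical
  by_contra hcon
  push Not at hcon
  have hcon' : ∀ D : Set (L × L × L), D.Countable → ∃ x : L × L × L,
      (A₀ < x.1 ∧ x.1 < x.2.1 ∧ x.2.1 < x.2.2 ∧ x.2.2 < B₀) ∧
      ∀ d ∈ D, ¬ (x.1 < d.2.1 ∧ d.2.1 < x.2.2) := by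
    intro D hD
    obtain ⟨a, b, ha, hab, hb, h⟩ := hcon ((fun d : L × L × L => d.2.1) '' D) (hD.image _)
    obtain ⟨a', ha1, ha2⟩ := hL.dense hab
    obtain ⟨b', hb1, hb2⟩ := hL.dense ha2
    obtain ⟨s, hs1, hs2⟩ := hL.dense hb1
    refine ⟨(a', s, b'), ⟨ha.trans_lt ha1, hs1, hs2, hb2.trans_le hb⟩, ?_⟩
    rintro d hd ⟨h1, h2⟩
    exact absurd (h d.2.1 ⟨d, hd, rfl⟩ (ha1.trans h1)) (not_le.2 (h2.trans hb2))
  obtain ⟨s, hs⟩ := exists_rec (β := L × L × L)
    (R := fun D x => (A₀ < x.1 ∧ x.1 < x.2.1 ∧ x.2.1 < x.2.2 ∧ x.2.2 < B₀) ∧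
      ∀ d ∈ D, ¬ (x.1 < d.2.1 ∧ d.2.1 < x.2.2)) hcon'
  have hs1 : ∀ α, A₀ < (s α).1 ∧ (s α).1 < (s α).2.1 ∧ (s α).2.1 < (s α).2.2 ∧ (s α).2.2 < B₀ :=
    fun α => (hs α).1
  have hs2 : ∀ γ α, γ < α → ¬ ((s α).1 < (s γ).2.1 ∧ (s γ).2.1 < (s α).2.2) := fun γ α h =>
    (hs α).2 (s γ) ⟨γ, h, rfl⟩
  let p : Om → L := fun α => (s α).2.1
  have hinj : Function.Injective p := by
    have key : ∀ γ α, γ < α → p γ ≠ p α := by
      intro γ α h heq
      apply hs2 γ α h
      change (s α).1 < p γ ∧ p γ < (s α).2.2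
      rw [heq]
      exact ⟨(hs1 α).2.1, (hs1 α).2.2.1⟩
    intro γ α h
    by_contra hne
    rcases lt_or_gt_of_ne hne with h1 | h1
    · exact key _ _ h1 h
    · exact key _ _ h1 h.symm
  have hunc : Uncountable (Set.range p) := by
    rw [← not_countable_iff]
    intro hc
    have h1 : Function.Injective (fun i => (⟨p i, i, rfl⟩ : Set.range p)) := fun i j hij =>
      hinj (congrArg Subtype.val hij)
    exact not_countable (α := Om) h1.countable
  obtain ⟨j, ⟨e⟩⟩ := hB.2 (Set.range p) hunc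
  have hpAB : ∀ α, A₀ < p α ∧ p α < B₀ := fun α =>
    ⟨(hs1 α).1.trans (hs1 α).2.1, (hs1 α).2.2.1.trans (hs1 α).2.2.2⟩
  by_cases hjr : j = r
  · subst hjr
    have hα : ∀ t : B j, ∃ α, p α = (e t).1 := fun t => (e t).2
    choose α hα using hα
    obtain ⟨D, hD, hD'⟩ := hr.exists_dense
    obtain ⟨α₀, hα₀⟩ : ∃ α₀, ∀ d ∈ D, α d < α₀ := by
      by_contra hcon2
      push Not at hcon2
      have h2 : (Set.univ : Set Om).Countable := by
        refine (hD.biUnion (fun d _ => Om_Iic_countable (α d))).mono (fun x _ => ?_)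
        obtain ⟨d, hd, hd'⟩ := hcon2 x
        exact Set.mem_biUnion hd hd'
      exact not_countable (Set.countable_univ_iff.1 h2)
    have hαinj : Function.Injective α := by
      intro t t' htt
      have : (e t).1 = (e t').1 := by rw [← hα, ← hα, htt]
      exact e.injective (Subtype.ext this)
    let ι : Type := {t : B j // α₀ ≤ α t}
    have hι : Uncountable ι := by
      rw [← not_countable_iff]
      intro hc
      have h1 : ({t : B j | α₀ ≤ α t}).Countable := Set.countable_coe_iff.1 hc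
      have h2 : ({t : B j | ¬ α₀ ≤ α t}).Countable := by
        refine Set.MapsTo.countable_of_injOn (f := α) (t := Set.Iio α₀) (fun t ht => ?_)
          hαinj.injOn (Om_Iio_countable α₀)
        exact not_le.1 ht
      have h3 : (Set.univ : Set (B j)).Countable :=
        (h1.union h2).mono (fun x _ => em _)
      exact (hB.1 j).not_countable (Set.countable_univ_iff.1 h3)
    apply hccc
    refine ⟨ι, hι, fun t => (s (α t.1)).1, fun t => (s (α t.1)).2.2, fun t =>
      ⟨(hs1 _).1, (hs1 _).2.1.trans (hs1 _).2.2.1, (hs1 _).2.2.2⟩, ?_⟩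
    have key : ∀ t t' : ι, t.1 < t'.1 → (s (α t.1)).2.2 ≤ (s (α t'.1)).1 := by
      intro t t' htt
      obtain ⟨d, hd, hd1, hd2⟩ := hD' t.1 t'.1 htt
      have hlt : α d < α₀ := hα₀ d hd
      have hd3 : t.1 < d := by
        refine lt_of_le_of_ne hd1 (fun h => ?_)
        rw [← h] at hlt
        exact absurd t.2 (not_le.2 hlt)
      have hd4 : d < t'.1 := by
        refine lt_of_le_of_ne hd2 (fun h => ?_)
        rw [h] at hlt
        exact absurd t'.2 (not_le.2 hlt)
      have h1 : p (α t.1) < p (α d) := by rw [hα, hα]; exact e.lt_iff_lt.2 hd3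
      have h2 : p (α d) < p (α t'.1) := by rw [hα, hα]; exact e.lt_iff_lt.2 hd4
      have h3 : (s (α t.1)).2.2 ≤ p (α d) := by
        by_contra hcon3
        exact hs2 (α d) (α t.1) (hlt.trans_le t.2) ⟨(hs1 _).2.1.trans h1, not_le.1 hcon3⟩
      have h4 : p (α d) ≤ (s (α t'.1)).1 := by
        by_contra hcon3
        exact hs2 (α d) (α t'.1) (hlt.trans_le t'.2) ⟨not_le.1 hcon3, h2.trans (hs1 _).2.2.1⟩
      exact h3.trans h4
    intro t t' hne
    rcases lt_or_gt_of_ne (fun h => hne (Subtype.ext h)) with h | h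
    · exact Or.inl (key t t' h)
    · exact Or.inr (key t' t h)
  · obtain ⟨ι, hι, a, b, hab, hd⟩ := hp j hjr
    apply hccc
    refine ⟨ι, hι, fun i => (e (a i)).1, fun i => (e (b i)).1, fun i => ⟨?_, ?_, ?_⟩,
      fun i i' hne => ?_⟩
    · obtain ⟨α, hα⟩ := (e (a i)).2
      change A₀ < (e (a i)).1
      rw [← hα]; exact (hpAB α).1
    · exact e.lt_iff_lt.2 (hab i)
    · obtain ⟨α, hα⟩ := (e (b i)).2
      change (e (b i)).1 < B₀
      rw [← hα]; exact (hpAB α).2
    · rcases hd i i' hne with h | h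
      · exact Or.inl (e.le_iff_le.2 h)
      · exact Or.inr (e.le_iff_le.2 h)

end memC

/-- **Transfer theorem.** -/
theorem transfer {B : Fin 5 → Type} [∀ i, LinearOrder (B i)] (hB : IsBasisForUncountable B) :
    ∃ (X : Set LN), MemC X ∧ (∀ j, MemC (KOrd (B j))) ∧
      ∀ (L : Type) [LinearOrder L], MemC L → LOTSEmbeds X L ∨ ∃ j, LOTSEmbeds (KOrd (B j)) L := by
  classical
  obtain ⟨W, hW, hWX⟩ := exists_lambda
  obtain ⟨r, ⟨er⟩, hpairs, hcard⟩ := basis_structure hB hW
  let X₀ : Set LN := Set.range (fun t : B r => (er t).1)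
  have hinj₀ : Function.Injective (fun t : B r => (er t).1) := fun s t h =>
    er.injective (Subtype.ext h)
  have hX₀W : X₀ ⊆ W := by
    rintro _ ⟨t, rfl⟩
    exact (er t).2
  have hX₀unc : ¬ X₀.Countable := by
    intro hc
    have h1 : Function.Injective (fun i => (⟨(er i).1, i, rfl⟩ : X₀)) := fun i j hij =>
      hinj₀ (congrArg (fun z : X₀ => z.1) hij)
    have : Countable X₀ := hc
    exact (hB.1 r).not_countable h1.countable
  obtain ⟨X, hXX₀, hXC, hXP, hXmax, hXne, Q, hQ, hQd⟩ := hWX X₀ hX₀W hX₀unc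
  -- `X` embeds into `B r`
  have hXB : Nonempty (X ↪o B r) := by
    have h1 : ∀ x : X, ∃ t : B r, (er t).1 = x.1 := fun x => hXX₀ x.2
    choose φ hφ using h1
    refine ⟨OrderEmbedding.ofStrictMono φ (fun x y hxy => ?_)⟩
    have h2 : (er (φ x)).1 < (er (φ y)).1 := by rw [hφ, hφ]; exact hxy
    exact er.lt_iff_lt.1 h2
  obtain ⟨eX⟩ := hXB
  have hrr : RealType (B r) :=
    (LN.realType.of_embedding (OrderEmbedding.subtype _ : W ↪o LN)).of_embedding er
  refine ⟨X, hXC, fun j => KOrd.memC (hcard j), fun L _ hL => ?_⟩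
  obtain ⟨a₁, b₁, hab₁⟩ := hL.nontrivial
  obtain ⟨A₀, B₀, hAB⟩ : ∃ A₀ B₀ : L, A₀ < B₀ := by
    rcases lt_or_gt_of_ne hab₁ with h | h
    · exact ⟨_, _, h⟩
    · exact ⟨_, _, h⟩
  by_cases hccc : ∀ a b, A₀ ≤ a → a < b → b ≤ B₀ → UncFam a b
  · exact Or.inr (case_nonccc hB hL hAB hccc)
  · left
    push Not at hccc
    obtain ⟨A, C, hA, hAC, hC, hnot⟩ := hccc
    obtain ⟨R, hR, hRd⟩ := separable_of_ccc hB hrr hpairs hL hAC hnot
    refine repair hQ hQd hXP hAC hR hRd (fun a b ha hab hb => ?_)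
    have hunc := hL.uncountable_Ioo hab
    obtain ⟨j, ⟨e⟩⟩ := hB.2 (Set.Ioo a b) hunc
    have hreal : RealType (Set.Ioo a b) := by
      have hR' : ({x : Set.Ioo a b | x.1 ∈ R}).Countable := by
        refine Set.countable_of_injective_of_countable_image (f := Subtype.val)
          (fun x _ y _ h => Subtype.ext h) (hR.mono ?_)
        rintro _ ⟨x, hx, rfl⟩
        exact hx
      refine RealType.of_dense hR' (fun x y hxy => ?_)
      obtain ⟨q, hq, hq1, hq2⟩ := hRd x.1 y.1 (ha.trans x.2.1.le) hxy (y.2.2.le.trans hb)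
      exact ⟨⟨q, x.2.1.trans hq1, hq2.trans y.2.2⟩, hq, hq1.le, hq2.le⟩
    have hjr : j = r := by
      by_contra hne
      exact (hpairs j hne).not_realType (hreal.of_embedding e)
    subst hjr
    refine ⟨fun x => (e (eX x)).1, fun x y hxy => ?_, fun x => (e (eX x)).2⟩
    exact e.lt_iff_lt.2 (eX.lt_iff_lt.2 hxy)

theorem IsBasisForC.reindex {ι κ : Type} (e : κ ≃ ι) {K : ι → Type} [inst : ∀ i, LinearOrder (K i)]
    (h : IsBasisForC K) : @IsBasisForC κ (fun i => K (e i)) (fun i => inst (e i)) := by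
  refine ⟨fun i => h.1 (e i), fun L _ hL => ?_⟩
  obtain ⟨i, hi⟩ := h.2 L hL
  obtain ⟨k, rfl⟩ := e.surjective i
  exact ⟨k, hi⟩

/-- The six orders, indexed by `Option (Fin 5)`. -/
def sixOrders (X : Set LN) (B : Fin 5 → Type) : Option (Fin 5) → Type
  | none => X
  | some j => KOrd (B j)

noncomputable instance sixOrders.inst (X : Set LN) (B : Fin 5 → Type) [∀ i, LinearOrder (B i)] :
    ∀ o, LinearOrder (sixOrders X B o)
  | none => inferInstanceAs (LinearOrder X)
  | some j => inferInstanceAs (LinearOrder (KOrd (B j)))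

/-- Five-element basis for the uncountable linear orders gives a six-element basis for `C`. -/
theorem five_gives_six :
    (∃ (B : Fin 5 → Type) (_ : ∀ i, LinearOrder (B i)), IsBasisForUncountable B) →
      ∃ (K : Fin 6 → Type) (_ : ∀ i, LinearOrder (K i)), IsBasisForC K := by
  rintro ⟨B, hBo, hB⟩
  obtain ⟨X, hX, hKB, hall⟩ := transfer hB
  have h : IsBasisForC (sixOrders X B) := by
    refine ⟨?_, fun L _ hL => ?_⟩
    · rintro (_ | j)
      · exact hX
      · exact hKB j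
    · rcases hall L hL with h | ⟨j, h⟩
      · exact ⟨none, h⟩
      · exact ⟨some j, h⟩
  exact ⟨_, _, h.reindex (finSuccEquiv 5)⟩

end Pool.Agent.Helper69_LOTS
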