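import Mathlib
import Pool.Agent.Helper69_LOTS.Main

/-!
Every basis for the class `C` has at least six elements (in ZFC).
-/

open Cardinal

namespace Pool.Agent.Helper69_LOTS

variable {T : Type} [LinearOrder T]

/-- The prefix of length `m`. -/
def KOrd.pre (m : ℕ) (a : KOrd T) : Fin m → Idx T := fun i => KOrd.fn a i

omit [LinearOrder T] in
theorem KOrd.pre_eq {m : ℕ} {a b : KOrd T} (h : KOrd.pre m a = KOrd.pre m b) :
    ∀ j, j < m → KOrd.fn a j = KOrd.fn b j := fun j hj => congrFun h ⟨j, hj⟩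

/-- An uncountable family of points of `KOrd T` branches uncountably somewhere. -/
theorem exists_branching {E : Type} [hE : Uncountable E] {e : E → KOrd T}
    (he : Function.Injective e) :
    ∃ (m : ℕ) (s : Fin m → Idx T),
      ¬ {x | ∃ t, KOrd.pre m (e t) = s ∧ KOrd.fn (e t) m = x}.Countable := by
  classical
  by_contra hcon
  push Not at hcon
  have hC : ∀ m, {s : Fin m → Idx T | ∃ t, KOrd.pre m (e t) = s}.Countable := by
    intro m
    induction m with
    | zero => exact Set.to_countable _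
    | succ m ih =>
      have h1 : (⋃ s ∈ {s : Fin m → Idx T | ∃ t, KOrd.pre m (e t) = s},
          (fun x => (Fin.snoc s x : Fin (m + 1) → Idx T)) ''
            {x | ∃ t, KOrd.pre m (e t) = s ∧ KOrd.fn (e t) m = x}).Countable :=
        ih.biUnion (fun s _ => (hcon m s).image _)
      refine h1.mono ?_
      rintro s ⟨t, rfl⟩
      refine Set.mem_biUnion (x := KOrd.pre m (e t)) ⟨t, rfl⟩ ⟨KOrd.fn (e t) m, ⟨t, rfl, rfl⟩, ?_⟩
      ext i
      refine Fin.lastCases ?_ (fun i => ?_) i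
      · simp [KOrd.pre]
      · simp [KOrd.pre]
  choose N hN using fun a : KOrd T => KOrd.fn_bdd a
  have hcount : Countable (Σ m : ℕ, {s : Fin m → Idx T // ∃ t, KOrd.pre m (e t) = s}) := by
    have : ∀ m, Countable {s : Fin m → Idx T // ∃ t, KOrd.pre m (e t) = s} := fun m => hC m
    infer_instance
  have hinj : Function.Injective (fun t : E =>
      (⟨N (e t), KOrd.pre (N (e t)) (e t), t, rfl⟩ :
        Σ m : ℕ, {s : Fin m → Idx T // ∃ t, KOrd.pre m (e t) = s})) := by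
    intro t t' htt
    have h1 : N (e t) = N (e t') := congrArg Sigma.fst htt
    have h2 : ∀ j, j < N (e t) → KOrd.fn (e t) j = KOrd.fn (e t') j := by
      have key : ∀ (n n' : ℕ) (f : Fin n → Idx T) (f' : Fin n' → Idx T) (hf : ∃ t, KOrd.pre n (e t) = f)
          (hf' : ∃ t, KOrd.pre n' (e t) = f'),
          (⟨n, f, hf⟩ : Σ m : ℕ, {s : Fin m → Idx T // ∃ t, KOrd.pre m (e t) = s}) = ⟨n', f', hf'⟩ →
          ∀ j (hj : j < n) (hj' : j < n'), f ⟨j, hj⟩ = f' ⟨j, hj'⟩ := by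
        intro n n' f f' hf hf' heq j hj hj'
        obtain rfl : n = n' := congrArg Sigma.fst heq
        have := eq_of_heq (Sigma.mk.inj heq).2
        have h3 : f = f' := congrArg Subtype.val this
        rw [h3]
      intro j hj
      exact key _ _ _ _ _ _ htt j hj (h1 ▸ hj)
    apply he
    apply KOrd.ext
    intro n
    by_cases hn : n < N (e t)
    · exact h2 n hn
    · rw [hN (e t) n (by omega), hN (e t') n (by omega)]
  exact hE.not_countable hinj.countable

/-- Every uncountable suborder of `KOrd T` shares an uncountable suborder with `T`. -/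
theorem common_suborder {E : Type} [LinearOrder E] [hE : Uncountable E] (e : E ↪o KOrd T) :
    ∃ (E' : Type) (_ : LinearOrder E') (_ : Uncountable E'),
      Nonempty (E' ↪o E) ∧ Nonempty (E' ↪o T) := by
  classical
  obtain ⟨m, s, hs⟩ := exists_branching e.injective
  have hX : ∀ x : {x | ∃ t, KOrd.pre m (e t) = s ∧ KOrd.fn (e t) m = x},
      ∃ t, KOrd.pre m (e t) = s ∧ KOrd.fn (e t) m = x.1 := fun x => x.2
  choose t ht1 ht2 using hX
  have hmono : ∀ x y : {x | ∃ t, KOrd.pre m (e t) = s ∧ KOrd.fn (e t) m = x}, x.1 < y.1 →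
      t x < t y := by
    intro x y hxy
    rw [← e.lt_iff_lt, KOrd.lt_iff]
    refine ⟨m, KOrd.pre_eq ((ht1 x).trans (ht1 y).symm), ?_⟩
    rw [ht2, ht2]
    exact hxy
  have hsplit : ¬ {u : T | ∃ t, KOrd.pre m (e t) = s ∧ KOrd.fn (e t) m = Idx.neg u}.Countable ∨
      ¬ {u : T | ∃ t, KOrd.pre m (e t) = s ∧ KOrd.fn (e t) m = Idx.pos u}.Countable := by
    by_contra hcon
    push Not at hcon
    apply hs
    refine (((hcon.1.image Idx.neg).union (Set.countable_singleton 0)).union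
      (hcon.2.image Idx.pos)).mono ?_
    rintro x ⟨t, h1, h2⟩
    rcases Idx.cases x with ⟨u, rfl⟩ | rfl | ⟨u, rfl⟩
    · exact Or.inl (Or.inl ⟨u, ⟨t, h1, h2⟩, rfl⟩)
    · exact Or.inl (Or.inr rfl)
    · exact Or.inr ⟨u, ⟨t, h1, h2⟩, rfl⟩
  rcases hsplit with h | h
  · refine ⟨{u : T | ∃ t, KOrd.pre m (e t) = s ∧ KOrd.fn (e t) m = Idx.neg u}, inferInstance,
      ?_, ⟨?_⟩, ⟨OrderEmbedding.subtype _⟩⟩
    · rw [← not_countable_iff]; exact h
    · refine OrderEmbedding.ofStrictMono (fun u => t ⟨Idx.neg u.1, u.2⟩) (fun u v huv => ?_)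
      exact hmono _ _ (Idx.neg_lt_neg.2 huv)
  · refine ⟨{u : T | ∃ t, KOrd.pre m (e t) = s ∧ KOrd.fn (e t) m = Idx.pos u}, inferInstance,
      ?_, ⟨?_⟩, ⟨OrderEmbedding.subtype _⟩⟩
    · rw [← not_countable_iff]; exact h
    · refine OrderEmbedding.ofStrictMono (fun u => t ⟨Idx.pos u.1, u.2⟩) (fun u v huv => ?_)
      exact hmono _ _ (Idx.pos_lt_pos.2 huv)

theorem MemC.uncountable {L : Type} [LinearOrder L] (h : MemC L) : Uncountable L := by
  obtain ⟨a, b, hab⟩ := h.nontrivial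
  have key : ∀ a b : L, a < b → Uncountable L := by
    intro a b hab
    have := h.uncountable_Ioo hab
    rw [← not_countable_iff]
    intro hc
    exact not_countable (α := Set.Ioo a b) inferInstance
  rcases lt_or_gt_of_ne hab with h | h
  · exact key _ _ h
  · exact key _ _ h

theorem IsLOTSEmbedding.left {D L : Type} [LinearOrder D] [LinearOrder L] (hD : MemC D)
    {f : D → L} (hf : IsLOTSEmbedding f) {x z : D} (hz : z < x) {y : L} (hy : y < f x) :
    ∃ x', x' < x ∧ y < f x' := by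
  let _ := Preorder.topology D
  let _ := Preorder.topology L
  have hD' : OrderTopology D := ⟨rfl⟩
  have hL' : OrderTopology L := ⟨rfl⟩
  have hcont : Continuous f := hf.2
  have h1 : f ⁻¹' Set.Ioi y ∈ nhds x := (isOpen_Ioi.preimage hcont).mem_nhds hy
  obtain ⟨l, hl, hl'⟩ := exists_Ioc_subset_of_mem_nhds h1 ⟨z, hz⟩
  obtain ⟨c, hc1, hc2⟩ := hD.dense hl
  exact ⟨c, hc2, hl' ⟨hc1, hc2.le⟩⟩

theorem IsLOTSEmbedding.right {D L : Type} [LinearOrder D] [LinearOrder L] (hD : MemC D)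
    {f : D → L} (hf : IsLOTSEmbedding f) {x z : D} (hz : x < z) {y : L} (hy : f x < y) :
    ∃ x', x < x' ∧ f x' < y := by
  let _ := Preorder.topology D
  let _ := Preorder.topology L
  have hD' : OrderTopology D := ⟨rfl⟩
  have hL' : OrderTopology L := ⟨rfl⟩
  have hcont : Continuous f := hf.2
  have h1 : f ⁻¹' Set.Iio y ∈ nhds x := (isOpen_Iio.preimage hcont).mem_nhds hy
  obtain ⟨l, hl, hl'⟩ := exists_Ico_subset_of_mem_nhds h1 ⟨z, hz⟩
  obtain ⟨c, hc1, hc2⟩ := hD.dense hl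
  exact ⟨c, hc1, hl' ⟨hc1.le, hc2⟩⟩

/-- A member of `C` which LOTS-embeds into some `KOrd T` is not ccc. -/
theorem hasUncPairs_of_lotsEmbeds [hT : Nonempty T] {D : Type} [LinearOrder D] (hD : MemC D)
    (h : LOTSEmbeds D (KOrd T)) : HasUncPairs D := by
  classical
  obtain ⟨f, hf⟩ := h
  obtain ⟨t₀⟩ := hT
  have hunc := hD.uncountable
  obtain ⟨m, s, hs⟩ := exists_branching hf.1.injective
  -- in every visited cone there are two points
  have hpair : ∀ d : D, ∃ a b : D, a < b ∧ KOrd.pre (m + 1) (f a) = KOrd.pre (m + 1) (f d) ∧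
      KOrd.pre (m + 1) (f b) = KOrd.pre (m + 1) (f d) := by
    intro d
    obtain ⟨N, hN⟩ := KOrd.fn_bdd (f d)
    let M := max N (m + 1)
    have hM0 : KOrd.fn (f d) M = 0 := hN M (le_max_left _ _)
    have hMm : m + 1 ≤ M := le_max_right _ _
    have hex : (∃ z, z < d) ∨ ∃ z, d < z := by
      obtain ⟨a, b, hab⟩ := hD.nontrivial
      by_contra hcon
      push Not at hcon
      exact hab (le_antisymm ((hcon.2 a).trans (hcon.1 b)) ((hcon.2 b).trans (hcon.1 a)))
    rcases hex with ⟨z, hz⟩ | ⟨z, hz⟩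
    · have hlt : KOrd.cut (f d) M (Idx.neg t₀) < f d :=
        KOrd.cut_lt_self _ _ (by rw [hM0]; exact Idx.neg_lt_zero t₀)
      obtain ⟨x', hx', hx''⟩ := hf.left hD hz hlt
      refine ⟨x', d, hx', ?_, rfl⟩
      have h1 : f x' < f d := hf.1 hx'
      ext i
      by_contra hne
      -- first difference between `f x'` and `f d`
      obtain ⟨j, hj1, hj2⟩ := KOrd.lt_iff.1 h1
      have hji : j ≤ i := by
        by_contra hcon
        exact hne (hj1 i (not_le.1 hcon))
      have h2 : f x' < KOrd.cut (f d) M (Idx.neg t₀) := by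
        refine KOrd.lt_iff.2 ⟨j, fun k hk => ?_, ?_⟩
        · rw [KOrd.fn_cut_lt _ _ _ (by omega)]; exact hj1 k hk
        · rw [KOrd.fn_cut_lt _ _ _ (by omega)]; exact hj2
      exact absurd h2 hx''.not_gt
    · have hlt : f d < KOrd.cut (f d) M (Idx.pos t₀) :=
        KOrd.self_lt_cut _ _ (by rw [hM0]; exact Idx.zero_lt_pos t₀)
      obtain ⟨x', hx', hx''⟩ := hf.right hD hz hlt
      refine ⟨d, x', hx', rfl, ?_⟩
      have h1 : f d < f x' := hf.1 hx'
      ext i
      by_contra hne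
      obtain ⟨j, hj1, hj2⟩ := KOrd.lt_iff.1 h1
      have hji : j ≤ i := by
        by_contra hcon
        exact hne (hj1 i (not_le.1 hcon)).symm
      have h2 : KOrd.cut (f d) M (Idx.pos t₀) < f x' := by
        refine KOrd.lt_iff.2 ⟨j, fun k hk => ?_, ?_⟩
        · rw [KOrd.fn_cut_lt _ _ _ (by omega)]; exact hj1 k hk
        · rw [KOrd.fn_cut_lt _ _ _ (by omega)]; exact hj2
      exact absurd h2 hx''.not_gt
  have hX : ∀ x : {x | ∃ t, KOrd.pre m (f t) = s ∧ KOrd.fn (f t) m = x},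
      ∃ t, KOrd.pre m (f t) = s ∧ KOrd.fn (f t) m = x.1 := fun x => x.2
  choose t ht1 ht2 using hX
  choose a b hab ha hb using hpair
  refine ⟨{x | ∃ t, KOrd.pre m (f t) = s ∧ KOrd.fn (f t) m = x}, ?_, fun x => a (t x),
    fun x => b (t x), fun x => hab _, ?_⟩
  · rw [← not_countable_iff]; exact hs
  · have key : ∀ x y : {x | ∃ t, KOrd.pre m (f t) = s ∧ KOrd.fn (f t) m = x}, x.1 < y.1 →
        b (t x) ≤ a (t y) := by
      intro x y hxy
      apply le_of_lt
      rw [← hf.1.lt_iff_lt, KOrd.lt_iff]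
      have e1 := KOrd.pre_eq (hb (t x))
      have e2 := KOrd.pre_eq (ha (t y))
      have e3 := KOrd.pre_eq ((ht1 x).trans (ht1 y).symm)
      refine ⟨m, fun j hj => ?_, ?_⟩
      · rw [e1 j (by omega), e2 j (by omega), e3 j hj]
      · rw [e1 m (by omega), e2 m (by omega), ht2, ht2]
        exact hxy
    intro x y hne
    rcases lt_or_gt_of_ne (fun h => hne (Subtype.ext h)) with h | h
    · exact Or.inl (key x y h)
    · exact Or.inr (key y x h)

/-- No uncountable order embeds into both. -/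
def Incomp (S T : Type) [LinearOrder S] [LinearOrder T] : Prop :=
  ∀ (E : Type) [LinearOrder E], Uncountable E → Nonempty (E ↪o S) → Nonempty (E ↪o T) → False

theorem Incomp.kord {S T : Type} [LinearOrder S] [LinearOrder T] (h : Incomp S T)
    {D : Type} [LinearOrder D] (hD : MemC D) (h1 : LOTSEmbeds D (KOrd S))
    (h2 : LOTSEmbeds D (KOrd T)) : False := by
  obtain ⟨f, hf⟩ := h1
  obtain ⟨g, hg⟩ := h2
  have hunc := hD.uncountable
  obtain ⟨E, hEo, hE, ⟨e1⟩, ⟨e2⟩⟩ := common_suborder (OrderEmbedding.ofStrictMono f hf.1)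
  obtain ⟨E', hEo', hE', ⟨e3⟩, ⟨e4⟩⟩ := common_suborder (e1.trans (OrderEmbedding.ofStrictMono g hg.1))
  exact h E' hE' ⟨e3.trans e2⟩ ⟨e4⟩

/-- **Lower bound.** Every finite basis for `C` has at least six elements. -/
theorem six_le {n : ℕ} {K : Fin n → Type} [∀ i, LinearOrder (K i)] (hK : IsBasisForC K) :
    6 ≤ n := by
  classical
  obtain ⟨CC, hCCo, hCC, hCtry⟩ := exists_countryman
  obtain ⟨W, hW, hWX⟩ := exists_lambda
  have unc_of : ∀ {T : Type}, #T = ℵ₁ → Uncountable T := fun {T} h => by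
    rw [← Cardinal.aleph0_lt_mk_iff, h]; exact Cardinal.aleph0_lt_aleph_one
  have hCCu : Uncountable CC := unc_of hCC
  have hWu : Uncountable W := unc_of hW
  have hWunc : ¬ W.Countable := fun h => hWu.not_countable h
  obtain ⟨X, -, hXC, -⟩ := hWX W le_rfl hWunc
  have hXr : RealType X := LN.realType.of_embedding (OrderEmbedding.subtype _)
  have hWr : RealType W := LN.realType.of_embedding (OrderEmbedding.subtype _)
  have hOmd : #Omᵒᵈ = ℵ₁ := mk_Om
  have hCCd : #CCᵒᵈ = ℵ₁ := hCC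
  have n1 : Nonempty Om := Cardinal.mk_ne_zero_iff.1 (by
    rw [mk_Om]; exact (Cardinal.aleph0_pos.trans Cardinal.aleph0_lt_aleph_one).ne')
  have n1' : Nonempty Omᵒᵈ := n1
  have n2 : Nonempty W := Cardinal.mk_ne_zero_iff.1 (by
    rw [hW]; exact (Cardinal.aleph0_pos.trans Cardinal.aleph0_lt_aleph_one).ne')
  have n3 : Nonempty CC := Cardinal.mk_ne_zero_iff.1 (by
    rw [hCC]; exact (Cardinal.aleph0_pos.trans Cardinal.aleph0_lt_aleph_one).ne')
  have n3' : Nonempty CCᵒᵈ := n3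
  -- incompatibilities
  have i12 : Incomp Om Omᵒᵈ := fun E _ _ ⟨e⟩ ⟨e'⟩ => not_wo_both e e'
  have i13 : Incomp Om W := fun E _ _ ⟨e⟩ ⟨e'⟩ =>
    (HasUncPairs.of_wo e).not_realType (hWr.of_embedding e')
  have i14 : Incomp Om CC := fun E _ _ ⟨e⟩ ⟨e'⟩ => (hCtry.of_embedding e').not_wo e
  have i15 : Incomp Om CCᵒᵈ := fun E _ _ ⟨e⟩ ⟨e'⟩ => (hCtry.dual.of_embedding e').not_wo e
  have i23 : Incomp Omᵒᵈ W := fun E _ _ ⟨e⟩ ⟨e'⟩ =>
    (HasUncPairs.of_wo_dual e).not_realType (hWr.of_embedding e')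
  have i24 : Incomp Omᵒᵈ CC := fun E _ _ ⟨e⟩ ⟨e'⟩ => (hCtry.of_embedding e').not_wo_dual e
  have i25 : Incomp Omᵒᵈ CCᵒᵈ := fun E _ _ ⟨e⟩ ⟨e'⟩ =>
    (hCtry.dual.of_embedding e').not_wo_dual e
  have i34 : Incomp W CC := fun E _ _ ⟨e⟩ ⟨e'⟩ =>
    (hCtry.of_embedding e').not_realType (hWr.of_embedding e)
  have i35 : Incomp W CCᵒᵈ := fun E _ _ ⟨e⟩ ⟨e'⟩ =>
    (hCtry.dual.of_embedding e').not_realType (hWr.of_embedding e)
  have i45 : Incomp CC CCᵒᵈ := fun E _ _ ⟨e⟩ ⟨e'⟩ => hCtry.not_both e e'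
  -- indices
  obtain ⟨k0, h0⟩ := hK.2 X hXC
  obtain ⟨k1, h1⟩ := hK.2 (KOrd Om) (KOrd.memC mk_Om)
  obtain ⟨k2, h2⟩ := hK.2 (KOrd Omᵒᵈ) (KOrd.memC hOmd)
  obtain ⟨k3, h3⟩ := hK.2 (KOrd W) (KOrd.memC hW)
  obtain ⟨k4, h4⟩ := hK.2 (KOrd CC) (KOrd.memC hCC)
  obtain ⟨k5, h5⟩ := hK.2 (KOrd CCᵒᵈ) (KOrd.memC hCCd)
  have hreal : RealType (K k0) := by
    obtain ⟨f, hf⟩ := h0
    exact hXr.of_embedding (OrderEmbedding.ofStrictMono f hf.1)
  have n01 : k0 ≠ k1 := by rintro rfl; exact (hasUncPairs_of_lotsEmbeds (hK.1 _) h1).not_realType hreal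
  have n02 : k0 ≠ k2 := by rintro rfl; exact (hasUncPairs_of_lotsEmbeds (hK.1 _) h2).not_realType hreal
  have n03 : k0 ≠ k3 := by rintro rfl; exact (hasUncPairs_of_lotsEmbeds (hK.1 _) h3).not_realType hreal
  have n04 : k0 ≠ k4 := by rintro rfl; exact (hasUncPairs_of_lotsEmbeds (hK.1 _) h4).not_realType hreal
  have n05 : k0 ≠ k5 := by rintro rfl; exact (hasUncPairs_of_lotsEmbeds (hK.1 _) h5).not_realType hreal
  have n12 : k1 ≠ k2 := by rintro rfl; exact i12.kord (hK.1 _) h1 h2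
  have n13 : k1 ≠ k3 := by rintro rfl; exact i13.kord (hK.1 _) h1 h3
  have n14 : k1 ≠ k4 := by rintro rfl; exact i14.kord (hK.1 _) h1 h4
  have n15 : k1 ≠ k5 := by rintro rfl; exact i15.kord (hK.1 _) h1 h5
  have n23 : k2 ≠ k3 := by rintro rfl; exact i23.kord (hK.1 _) h2 h3
  have n24 : k2 ≠ k4 := by rintro rfl; exact i24.kord (hK.1 _) h2 h4
  have n25 : k2 ≠ k5 := by rintro rfl; exact i25.kord (hK.1 _) h2 h5
  have n34 : k3 ≠ k4 := by rintro rfl; exact i34.kord (hK.1 _) h3 h4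
  have n35 : k3 ≠ k5 := by rintro rfl; exact i35.kord (hK.1 _) h3 h5
  have n45 : k4 ≠ k5 := by rintro rfl; exact i45.kord (hK.1 _) h4 h5
  have hcard : ({k0, k1, k2, k3, k4, k5} : Finset (Fin n)).card = 6 := by
    rw [Finset.card_insert_of_notMem, Finset.card_insert_of_notMem, Finset.card_insert_of_notMem,
      Finset.card_insert_of_notMem, Finset.card_insert_of_notMem, Finset.card_singleton]
    · simpa using n45
    · simpa using ⟨n34, n35⟩
    · simpa using ⟨n23, n24, n25⟩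
    · simpa using ⟨n12, n13, n14, n15⟩
    · simpa using ⟨n01, n02, n03, n04, n05⟩
  have := Finset.card_le_univ ({k0, k1, k2, k3, k4, k5} : Finset (Fin n))
  rw [hcard, Fintype.card_fin] at this
  exact this

end Pool.Agent.Helper69_LOTS

namespace Pool.Agent.Helper69_LOTS

/-- **Lower bound**, for families indexed by an arbitrary type. -/
theorem six_le_mk {ι : Type} {K : ι → Type} [inst : ∀ i, LinearOrder (K i)] (hK : IsBasisForC K) :
    (6 : Cardinal) ≤ #ι := by
  rcases finite_or_infinite ι with h | h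
  · obtain ⟨n, ⟨e⟩⟩ := Finite.exists_equiv_fin ι
    have h1 := six_le (hK.reindex e.symm)
    have h2 : #ι = n := by
      rw [Cardinal.mk_congr e]; simp
    rw [h2]
    exact_mod_cast h1
  · exact (Cardinal.natCast_le_aleph0 (n := 6)).trans (Cardinal.aleph0_le_mk ι)

/-- If every interval of `L` contains a copy of `ω₁` or of its reverse then `KOrd Om` or
`KOrd Omᵒᵈ` LOTS-embeds into `L`. -/
theorem long_case {L : Type} [LinearOrder L] (hL : MemC L)
    (h : ∀ a b : L, a < b → Nonempty (Om ↪o Set.Ioo a b) ∨ Nonempty (Omᵒᵈ ↪o Set.Ioo a b)) :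
    LOTSEmbeds (KOrd Om) L ∨ LOTSEmbeds (KOrd Omᵒᵈ) L := by
  classical
  obtain ⟨a₁, b₁, hab₁⟩ := hL.nontrivial
  obtain ⟨A₀, B₀, hAB⟩ : ∃ A₀ B₀ : L, A₀ < B₀ := by
    rcases lt_or_gt_of_ne hab₁ with h | h
    · exact ⟨_, _, h⟩
    · exact ⟨_, _, h⟩
  have hsucc : ∀ t : Om, ∃ t' : Om, t < t' ∧ ∀ s, t < s → t' ≤ s := by
    intro t
    have hne : ({s | t < s} : Set Om).Nonempty := by
      by_contra hcon
      rw [Set.not_nonempty_iff_eq_empty] at hcon
      have h1 : (Set.univ : Set Om).Countable := (Om_Iic_countable t).mono (fun s _ => by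
        by_contra hs
        have hs' : t < s := not_le.1 hs
        have : s ∈ ({s | t < s} : Set Om) := hs'
        rw [hcon] at this
        exact this)
      exact not_countable (Set.countable_univ_iff.1 h1)
    have hwf := wellFounded_lt (α := Om)
    exact ⟨hwf.min _ hne, hwf.min_mem _ hne, fun s hs => not_lt.1 (hwf.not_lt_min _ hs)⟩
  choose σ hσ1 hσ2 using hsucc
  let F : Bool → L → L → Prop := fun c a b => if c then Fam Om a b else Fam Omᵒᵈ a b
  obtain ⟨c, -, A', B', h1, h2, h3, h4⟩ := exists_hereditary (Finset.univ : Finset Bool) F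
    (fun c a b a' b' ha hb hF => by
      cases c
      · exact Fam.mono ha hb hF
      · exact Fam.mono ha hb hF) A₀ B₀ hAB (fun a b ha hab hb => by
      rcases h a b hab with ⟨⟨e⟩⟩ | ⟨⟨e⟩⟩
      · refine ⟨true, Finset.mem_univ _, ?_⟩
        refine ⟨fun t => (e t).1, fun t => (e (σ t)).1, fun t => ⟨(e t).2.1,
          e.lt_iff_lt.2 (hσ1 t), (e (σ t)).2.2⟩, fun s t hst => ?_⟩
        exact e.le_iff_le.2 (hσ2 s t hst)
      · refine ⟨false, Finset.mem_univ _, ?_⟩
        refine ⟨fun t => (e (OrderDual.toDual (σ (OrderDual.ofDual t)))).1, fun t => (e t).1,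
          fun t => ⟨(e _).2.1, e.lt_iff_lt.2 (hσ1 (OrderDual.ofDual t)), (e t).2.2⟩,
          fun s t hst => ?_⟩
        exact e.le_iff_le.2 (hσ2 (OrderDual.ofDual t) (OrderDual.ofDual s) hst))
  have n1 : Nonempty Om := Cardinal.mk_ne_zero_iff.1 (by
    rw [mk_Om]; exact (Cardinal.aleph0_pos.trans Cardinal.aleph0_lt_aleph_one).ne')
  have n1' : Nonempty Omᵒᵈ := n1
  cases c
  · right
    exact KOrd.embeds h2 (fun a b _ hab _ => hL.dense hab)
      (fun p hp _ => hL.exists_seq_left hp) (fun p _ hp => hL.exists_seq_right hp) h4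
  · left
    exact KOrd.embeds h2 (fun a b _ hab _ => hL.dense hab)
      (fun p hp _ => hL.exists_seq_left hp) (fun p _ hp => hL.exists_seq_right hp) h4

/-- Every interval of `KOrd T` contains a copy of `T`. -/
theorem KOrd.exists_copy {T : Type} [LinearOrder T] [Nonempty T] {a b : KOrd T} (hab : a < b) :
    Nonempty (T ↪o Set.Ioo a b) := by
  obtain ⟨N, hN⟩ := KOrd.exists_lt_of_lt hab
  refine ⟨OrderEmbedding.ofStrictMono
    (fun t => ⟨KOrd.cut a N (Idx.pos t), (hN t).2, (hN t).1⟩) (fun s t hst => ?_)⟩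
  exact KOrd.cut_lt_cut a N (Idx.pos_lt_pos.2 hst)

/-- The two orders `KOrd Om` and `KOrd Omᵒᵈ`. -/
def twoOrders : Bool → Type
  | true => KOrd Om
  | false => KOrd Omᵒᵈ

noncomputable instance twoOrders.inst : ∀ c, LinearOrder (twoOrders c)
  | true => inferInstanceAs (LinearOrder (KOrd Om))
  | false => inferInstanceAs (LinearOrder (KOrd Omᵒᵈ))

theorem two_basis : IsBasisForLongC twoOrders := by
  have n1 : Nonempty Om := Cardinal.mk_ne_zero_iff.1 (by
    rw [mk_Om]; exact (Cardinal.aleph0_pos.trans Cardinal.aleph0_lt_aleph_one).ne')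
  have n1' : Nonempty Omᵒᵈ := n1
  refine ⟨?_, fun L _ hL hlong => ?_⟩
  · rintro (_ | _)
    · exact ⟨KOrd.memC (T := Omᵒᵈ) mk_Om, fun a b hab => Or.inr (KOrd.exists_copy (T := Omᵒᵈ) hab)⟩
    · exact ⟨KOrd.memC (T := Om) mk_Om, fun a b hab => Or.inl (KOrd.exists_copy (T := Om) hab)⟩
  · rcases long_case hL hlong with h | h
    · exact ⟨true, h⟩
    · exact ⟨false, h⟩

theorem two_le_mk {ι : Type} {K : ι → Type} [inst : ∀ i, LinearOrder (K i)]
    (hK : IsBasisForLongC K) : (2 : Cardinal) ≤ #ι := by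
  obtain ⟨k1, h1⟩ := hK.2 (KOrd Om) (two_basis.1 true).1 (two_basis.1 true).2
  obtain ⟨k2, h2⟩ := hK.2 (KOrd Omᵒᵈ) (two_basis.1 false).1 (two_basis.1 false).2
  have i12 : Incomp Om Omᵒᵈ := fun E _ _ ⟨e⟩ ⟨e'⟩ => not_wo_both e e'
  have hne : k1 ≠ k2 := by rintro rfl; exact i12.kord (hK.1 _).1 h1 h2
  rw [Cardinal.two_le_iff]
  exact ⟨k1, k2, hne⟩

theorem IsBasisForLongC.reindex {ι κ : Type} (e : κ ≃ ι) {K : ι → Type}
    [inst : ∀ i, LinearOrder (K i)] (h : IsBasisForLongC K) :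
    @IsBasisForLongC κ (fun i => K (e i)) (fun i => inst (e i)) := by
  refine ⟨fun i => h.1 (e i), fun L _ hL hL' => ?_⟩
  obtain ⟨i, hi⟩ := h.2 L hL hL'
  obtain ⟨k, rfl⟩ := e.surjective i
  exact ⟨k, hi⟩

theorem exists_two_basis : ∃ (K : Fin 2 → Type) (_ : ∀ i, LinearOrder (K i)), IsBasisForLongC K :=
  ⟨_, _, two_basis.reindex finTwoEquiv⟩

end Pool.Agent.Helper69_LOTS
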